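import Pool.Agent.Lib.MP_3b0e0c_al.Mag
import Mathlib.GroupTheory.QuotientGroup.Basic

/-! The formula of Dynkin, Specht and Wever in the lower central factors, and a Nakayama argument
in odd weight. -/

namespace Pool.Agent.Lib.MP_3b0e0c_al.Y

open Subgroup
open scoped commutatorElement

variable {A : Type} [AddCommGroup A]

/-- Sum over the words of a given length. -/
def sW : ℕ → (W → A) → A
  | 0, g => g []
  | k + 1, g => sW k (fun m => g (false :: m)) + sW k fun m => g (true :: m)

lemma sW_congr (k : ℕ) : ∀ g g' : W → A, (∀ m : W, m.length = k → g m = g' m) →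
    sW k g = sW k g' := by
  induction k with
  | zero => exact fun g g' h => h [] rfl
  | succ k ih =>
    intro g g' h
    rw [sW, sW, ih _ (fun m => g' (false :: m)) fun m hm => h _ (by simp [hm]),
      ih _ (fun m => g' (true :: m)) fun m hm => h _ (by simp [hm])]

lemma sW_mem (S : AddSubgroup A) (k : ℕ) : ∀ g : W → A, (∀ m : W, m.length = k → g m ∈ S) →
    sW k g ∈ S := by
  induction k with
  | zero => exact fun g h => h [] rfl
  | succ k ih =>
    exact fun g h => add_mem (ih _ fun m hm => h _ (by simp [hm])) (ih _ fun m hm => h _ (by simp [hm]))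

lemma sW_zero (k : ℕ) : sW k (fun _ => (0 : A)) = 0 :=
  AddSubgroup.mem_bot.1 (sW_mem ⊥ k _ fun _ _ => zero_mem _)

lemma sW_add (k : ℕ) : ∀ g g' : W → A, sW k (fun m => g m + g' m) = sW k g + sW k g' := by
  induction k with
  | zero => exact fun _ _ => rfl
  | succ k ih => intro g g'; simp only [sW, ih]; abel

lemma sW_sub (k : ℕ) : ∀ g g' : W → A, sW k (fun m => g m - g' m) = sW k g - sW k g' := by
  induction k with
  | zero => exact fun _ _ => rfl
  | succ k ih => intro g g'; simp only [sW, ih]; abel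

lemma sW_last (k : ℕ) : ∀ g : W → A,
    sW (k + 1) g = sW k (fun m => g (m ++ [false])) + sW k fun m => g (m ++ [true]) := by
  induction k with
  | zero => exact fun _ => rfl
  | succ k ih =>
    intro g
    rw [sW, ih, ih]
    simp only [sW, List.cons_append]
    abel

/-- The leading term of a left-normed commutator, evaluated on `val`. -/
def Pm : W → (W → A) → A
  | [], _ => 0
  | [x], val => val [x]
  | x :: y :: r, val => Pm (y :: r) (fun m => val (m ++ [x])) - Pm (y :: r) fun m => val (x :: m)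

lemma sW_cth : ∀ (k : ℕ) (r : W) (val : W → A), r.length = k + 1 →
    sW (k + 1) (fun m => cth r m • val m) = Pm r val
  | 0, [x], val, _ => by cases x <;> simp [sW, cth, Pm]
  | k + 1, x :: y :: r, val, h => by
    have h' : (y :: r).length = k + 1 := by simpa using h
    rw [Pm, ← sW_cth k _ _ h', ← sW_cth k _ _ h']
    simp only [cth, sub_smul]
    rw [sW_sub]
    congr 1
    · rw [sW_last]
      cases x <;> simp [sW_zero]
    · rw [sW]
      cases x <;> simp [sW_zero]

lemma Ev_Pm (val : W → A) : ∀ r p s : W,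
    Ev val r p s = Pm r fun m => val (s.reverse ++ (m.reverse ++ p))
  | [], _, _ => rfl
  | [x], p, s => by simp [Ev, Pm]
  | x :: y :: r, p, s => by
    rw [Ev, Pm, Ev_Pm val (y :: r), Ev_Pm val (y :: r)]
    simp

lemma Pm_LR : ∀ (k : ℕ) (r : W) (f : F → A), IsHom k f → r.length = k + 1 →
    Pm r (fun m => f (LR m.reverse)) = (k + 1) • f (LR r)
  | 0, [x], f, _, _ => by simp [Pm]
  | k + 1, x :: y :: r, f, hf, h => by
    have h' : (y :: r).length = k + 1 := by simpa using h
    have e1 := Pm_LR k _ _ (hf.left (j := 0) rfl (mem_zero (.of x))) h'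
    have e2 := hf.expand k (y :: r) [x] [] 0 rfl h' (by simp)
    rw [Ev_Pm, lc, hf.anti (j := 0) rfl (LR_mem k _ h') (mem_zero _)] at e2
    have e3 : Pm (y :: r) (fun m => f (LR (m ++ [x]).reverse)) =
        Pm (y :: r) fun m => f ⁅LR m.reverse, .of x⁆ := by
      rw [← sW_cth k _ _ h', ← sW_cth k _ _ h']
      refine sW_congr _ _ _ fun m hm => ?_
      rw [List.reverse_concat', LR_cons x (k := k) (by simpa using hm)]
    simp only [List.reverse_nil, List.nil_append] at e2
    rw [Pm, e3, e1]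
    simp only [List.reverse_cons]
    rw [← e2, succ_nsmul _ (k + 1), sub_neg_eq_add]
    rfl

lemma dynkin {n : ℕ} {bs : List W} (hv : Van n bs) (hb : ∀ b ∈ bs, b.length = n + 1) {f : F → A}
    (hf : IsHom n f) {u : F} (hu : u ∈ Γ F n) :
    (n + 1) • f u = sW (n + 1) fun m => ser u m • f (LR m.reverse) := by
  rw [← sub_eq_zero]
  refine hv A (fun u => (n + 1) • f u - sW (n + 1) fun m => ser u m • f (LR m.reverse))
    ⟨fun u hu v hv => ?_, fun u hu => ?_⟩ (fun w hw => ?_) u hu
  · rw [hf.add u hu v hv, sW_congr _ _ (fun m => ser u m • f (LR m.reverse) +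
      ser v m • f (LR m.reverse)) fun m hm => by rw [(ser_hom hm).add u hu v hv, add_smul],
      sW_add, smul_add]
    abel
  · rw [hf.kill u hu, sW_congr _ _ (fun _ => 0) fun m hm => by
      rw [(ser_hom hm).kill u hu, zero_smul], sW_zero, smul_zero, sub_zero]
  · rw [sW_congr _ _ (fun m => cth w m • f (LR m.reverse)) fun m hm => by
      rw [ser_LR n w m (hb w hw) hm], sW_cth n w _ (hb w hw), Pm_LR n w f hf (hb w hw), sub_self]

/-- A Nakayama argument in odd weight. -/
lemma dyn_nak {n : ℕ} {bs : List W} (hv : Van (2 * n) bs) (hb : ∀ b ∈ bs, b.length = 2 * n + 1)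
    (M : Subgroup F) [M.Normal] (hM : Γ F (2 * n + 1) ≤ M) {e : ℕ} (he : ∀ u : F, u ^ 2 ^ e ∈ M)
    (hu : ∀ b ∈ bs, ∃ u ∈ Γ F (2 * n), u ∈ M ∧
      ∀ w : W, w.length = 2 * n + 1 → (2 : ℤ) ∣ ser u w - cth b w) : Γ F (2 * n) ≤ M := by
  obtain ⟨A, _, f, hf, hk, hx⟩ := exists_univ (2 * n) M hM
  let S : AddSubgroup A :=
    { carrier := {a | ∃ v ∈ Γ F (2 * n), a = 2 • f v}
      zero_mem' := ⟨1, one_mem _, by rw [hf.one, smul_zero]⟩
      add_mem' := by
        rintro _ _ ⟨a, ha, rfl⟩ ⟨b, hb, rfl⟩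
        exact ⟨_, mul_mem ha hb, by rw [hf.add a ha b hb, smul_add]⟩
      neg_mem' := by
        rintro _ ⟨a, ha, rfl⟩
        exact ⟨_, inv_mem ha, by rw [hf.inv ha, smul_neg]⟩ }
  have h1 : ∀ u ∈ Γ F (2 * n), f u ∈ S := fun u hu' => by
    rw [← QuotientAddGroup.eq_zero_iff]
    refine hv _ (fun u => QuotientAddGroup.mk' S (f u)) ⟨fun u hu v hv => ?_, fun u hu => ?_⟩
      (fun b hb' => ?_) u hu'
    · rw [hf.add u hu v hv, map_add]
    · rw [hf.kill u hu, map_zero]
    · refine (QuotientAddGroup.eq_zero_iff _).2 ?_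
      obtain ⟨t, ht, hm, hp⟩ := hu b hb'
      have hl := LR_mem _ b (hb b hb')
      have e1 := dynkin hv hb hf ht
      have e2 := dynkin hv hb hf hl
      rw [(hk t ht).2 hm, smul_zero] at e1
      have e3 : sW (2 * n + 1) (fun m => ser t m • f (LR m.reverse) -
          ser (LR b) m • f (LR m.reverse)) ∈ S := by
        refine sW_mem S _ _ fun m hm => ?_
        obtain ⟨d, hd⟩ := hp m hm
        rw [← sub_smul, ser_LR _ b m (hb b hb') hm, hd, mul_comm, mul_smul]
        exact S.zsmul_mem ⟨_, LR_mem _ _ (by simpa using hm), ofNat_zsmul _ 2⟩ d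
      rw [sW_sub, ← e1, ← e2, zero_sub, neg_mem_iff, succ_nsmul, mul_comm, mul_smul] at e3
      exact (add_mem_cancel_left (S.nsmul_mem ⟨_, hl, rfl⟩ n)).1 e3
  have h2 : ∀ k : ℕ, ∀ u ∈ Γ F (2 * n), ∃ v ∈ Γ F (2 * n), f u = 2 ^ k • f v := by
    intro k
    induction k with
    | zero => exact fun u hu => ⟨u, hu, by simp⟩
    | succ k ih =>
      intro u hu
      obtain ⟨v, hv, e1⟩ := ih u hu
      obtain ⟨w, hw, e2⟩ := h1 v hv
      exact ⟨w, hw, by rw [e1, e2, pow_succ, mul_smul]⟩
  intro u hu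
  obtain ⟨v, -, e1⟩ := h2 e u hu
  rw [← hk u hu, e1, hx _ he]

end Pool.Agent.Lib.MP_3b0e0c_al.Y
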