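import Pool.Agent.Lib.MP_3b0e0c_al.Y.Ten

/-! Spanning commutators of weight eleven in the free group of rank two. -/

namespace Pool.Agent.Lib.MP_3b0e0c_al.Y

/-- Spanning words. -/
def bs10 : List W := List.map wM [
  2560, 2561, 2562, 2563, 2564, 2565, 2566, 2567, 2568, 2569, 2570, 2571, 2572, 2573, 2574, 2575,
  2576, 2577, 2578, 2579, 2580, 2581, 2582, 2583, 2584, 2585, 2586, 2587, 2588, 2589, 2590, 2591,
  2594, 2595, 2596, 2597, 2598, 2599, 2600, 2601, 2602, 2603, 2606, 2607, 2610, 2611, 2612, 2613,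
  2614, 2615, 2617, 2618, 2619, 2620, 2621, 2632, 2633, 2634, 2635, 2636, 2637, 2638, 2639, 2640,
  2641, 2642, 2643, 2644, 2645, 2646, 2647, 2648, 2649, 2650, 2651, 2652, 2653, 2654, 2655, 2657,
  2658, 2659, 2660, 2661, 2662, 2663, 2664, 2665, 2666, 2667, 2669, 2670, 2671, 2674, 2675, 2676,
  2677, 2678, 2679, 2682, 2683, 2685, 2724, 2725, 2726, 2727, 2728, 2729, 2730, 2731, 2732, 2733,
  2734, 2735, 2739, 2740, 2741, 2742, 2743, 2744, 2745, 2746, 2747, 2749, 2750, 2751, 2761, 2762,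
  2763, 2764, 2765, 2766, 2767, 2772, 2773, 2774, 2775, 2776, 2777, 2778, 2779, 2780, 2781, 2782,
  2783, 2793, 2795, 2796, 2797, 2798, 2799, 2802, 2804, 2805, 2806, 2807, 2808, 2809, 2810, 2811,
  2812, 2813, 2814, 2815, 2986, 2987, 2988, 2989, 2990, 2991, 2998, 2999, 3002, 3003, 3004, 3005,
  3006, 3007, 3053, 3054, 3055, 3064, 3065, 3067, 3070, 3071]

/-- Relations. -/
def cs10 : List Cert := List.map cM [
  (2656, [(5, 2640), (-10, 2632), (30, 2596), (-33, 2580), (10, 2572), (-15, 2594), (18, 2578), (-5, 2570), (7, 2577), (-14, 2569), (9, 2565), (-2, 2563), (1, 2584)], [(-1, 80, 41, 1), (-10, 20, 20, 9), (5, 20, 20, 10), (-1, 20, 20, 12), (-3, 40, 40, 3)]),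
  (2760, [(24, 2724), (-48, 2644), (16, 2612), (12, 2636), (-5, 2728), (109, 2634), (-123, 2602), (-103, 2598), (154, 2582), (-57, 2574), (5, 2648), (-43, 2642), (59, 2610), (24, 2586), (1, 2664), (1, 2660), (-5, 2588), (-20, 2658), (-14, 2601), (-3, 2585), (76, 2641), (-11, 2657), (100, 2579), (-81, 2595), (-61, 2571), (14, 2567), (267, 2597), (-124, 2633), (-244, 2581), (81, 2573)], [(-1, 80, 43, 1), (-3, 41, 21, 4), (-4, 21, 20, 9), (25, 10, 10, 37), (-8, 10, 10, 38), (2, 21, 21, 8), (-3, 10, 10, 35), (1, 42, 42, 2), (-45, 10, 10, 42), (17, 10, 10, 44), (40, 20, 20, 11), (-1, 41, 42, 2), (33, 10, 10, 41), (-17, 40, 21, 5), (22, 21, 20, 10), (7, 41, 41, 2), (-4, 21, 20, 12), (-6, 10, 10, 49), (8, 10, 10, 50), (3, 40, 21, 6), (-3, 10, 10, 52), (-78, 20, 20, 13), (-15, 41, 40, 3), (18, 20, 20, 14), (-3, 81, 41, 1)]),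
  (2616, [(-12, 2641), (18, 2633), (-39, 2597), (36, 2581), (-12, 2573), (12, 2595), (-15, 2579), (9, 2571), (1, 2664), (3, 2642), (2, 2658), (-3, 2634), (3, 2598), (-3, 2582), (1, 2574), (-3, 2660), (3, 2601), (-2, 2567), (2, 2657), (3, 2612), (-3, 2610)], [(1, 81, 41, 1), (12, 20, 20, 13), (-3, 20, 20, 14), (-1, 41, 41, 2), (-1, 20, 20, 11), (2, 41, 40, 3)]),
  (2738, [(12, 2725), (-32, 2645), (18, 2613), (6, 2637), (42, 2635), (-50, 2603), (-40, 2599), (62, 2583), (-23, 2575), (-3, 2617), (-12, 2643), (18, 2611), (8, 2587), (2, 2665), (-4, 2661), (-2, 2589), (-4, 2659), (-12, 2646), (1, 2662), (2, 2726), (-1, 2590), (5, 2614), (4, 2730), (-4, 2762), (2, 2772), (-2, 2740), (1, 2744), (1, 2764), (-1, 2776), (-2, 2652), (1, 2620), (4, 2650), (-2, 2618), (4, 2638), (-2, 2729), (4, 2649)], [(1, 81, 43, 1), (-2, 21, 20, 13), (14, 10, 10, 53), (-4, 10, 10, 54), (-2, 10, 10, 51), (2, 42, 42, 3), (-18, 10, 10,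 58), (7, 10, 10, 60), (16, 20, 20, 15), (-2, 41, 42, 3), (12, 10, 10, 57), (-7, 40, 21, 7), (8, 21, 20, 14), (2, 41, 41, 3), (-1, 21, 20, 11), (5, 10, 10, 45), (1, 43, 42, 2), (-2, 10, 10, 46), (-2, 82, 43, 1)]),
  (2792, [(12, 2730), (-14, 2650), (8, 2618), (9, 2726), (11, 2606), (-7, 2590), (-40, 2646), (7, 2662), (9, 2614), (10, 2638), (-9, 2762), (8, 2666), (-4, 2674), (3, 2772), (-6, 2732), (7, 2652), (-4, 2620), (3, 2761), (-18, 2725), (40, 2645), (-27, 2613), (-9, 2637), (1, 2729), (-51, 2635), (67, 2603), (46, 2599), (-77, 2583), (29, 2575), (-2, 2649), (4, 2617), (18, 2643), (-24, 2611), (-10, 2587), (-3, 2665), (6, 2661), (3, 2589), (4, 2659), (1, 2776)], [(1, 82, 43, 1), (-6, 21, 21, 10), (6, 10, 10, 43), (4, 41, 21, 5), (-7, 21, 20, 11), (9, 10, 10, 45), (-3, 10, 10, 46), (3, 21, 21, 9), (-3, 10, 10, 39), (-2, 41, 21, 6), (3, 21, 20, 13), (-23, 10, 10, 53), (6, 10, 10, 54), (2, 21, 21, 12),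 (3, 10, 10, 51), (-5, 42, 42, 3), (25, 10, 10, 58), (-10, 10, 10, 60), (-19, 20, 20, 15), (5, 41, 42, 3), (-15, 10, 10, 57), (10, 40, 21, 7), (-10, 21, 20, 14), (-3, 41, 41, 3), (-1, 81, 43, 1)]),
  (2668, [(39, 2643), (-54, 2611), (148, 2603), (-25, 2587), (10, 2659), (-126, 2635), (119, 2599), (-183, 2583), (68, 2575), (10, 2729), (-33, 2725), (76, 2645), (-12, 2637), (-8, 2665), (-11, 2649), (17, 2661), (9, 2740), (-6, 2666), (-9, 2662), (74, 2646), (-24, 2614), (-9, 2606), (-18, 2730), (-15, 2726), (-9, 2772), (-3, 2764), (21, 2762), (9, 2590), (4, 2776), (-22, 2638), (-8, 2650), (3, 2618), (7, 2652), (-3, 2620), (-45, 2613), (8, 2617), (5, 2589), (-3, 2761), (-4, 2744), (4, 2674)], [(-1, 83, 42, 1), (-36, 10, 10, 57), (21, 40, 21, 7), (-25, 21, 20, 14), (50, 10, 10, 58), (-19, 10, 10, 60), (-47, 20, 20, 15), (6, 41, 42, 3), (-8, 41, 41, 3), (-3, 43, 42, 2), (-24, 10, 10, 45), (9, 21, 20, 11), (-1,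 43, 41, 2), (-3, 41, 21, 5), (9, 10, 10, 46), (3, 21, 21, 10), (-3, 10, 10, 43), (-3, 81, 43, 1), (2, 41, 21, 6), (5, 21, 20, 13), (-33, 10, 10, 53), (10, 10, 10, 54), (-2, 21, 21, 12), (5, 10, 10, 51), (-3, 42, 42, 3), (7, 82, 43, 1)]),
  (2684, [(6, 2607), (-6, 2591), (-46, 2647), (6, 2663), (14, 2615), (15, 2639), (34, 2731), (-18, 2651), (9, 2619), (-10, 2763), (6, 2667), (-2, 2675), (-4, 2739), (-8, 2741), (4, 2745), (4, 2765), (4, 2777), (-18, 2733), (18, 2653), (-9, 2621), (3, 2804), (-1, 2808), (-3, 2802), (-2, 2677), (2, 2727), (2, 2773), (-1, 2793), (2, 2682)], [(-1, 83, 43, 1), (4, 41, 21, 7), (-6, 21, 20, 15), (14, 10, 10, 61), (-6, 10, 10, 62), (-9, 21, 21, 14), (9, 10, 10, 59), (4, 43, 42, 3), (9, 21, 21, 13), (-9, 10, 10, 55), (-1, 43, 41, 3)]),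
  (2803, [(6, 2987), (18, 2747), (-18, 2779), (1, 2795), (-4, 2679), (-4, 2775), (7, 2671), (-7, 2735), (4, 2767), (-2, 2805), (1, 2809), (-6, 2683), (-2, 2655), (-12, 2749), (4, 2685), (-6, 2989), (3, 2797), (6, 2743), (-1, 3004), (1, 2812), (2, 3002), (-3, 2810), (3, 2806), (-2, 2798), (12, 2781)], [(1, 83, 47, 1), (-3, 11, 11, 57), (-3, 5, 5, 231), (-6, 42, 23, 7), (6, 23, 21, 14), (6, 11, 10, 61), (12, 5, 5, 245), (-6, 5, 5, 246), (-2, 11, 10, 62), (-4, 5, 5, 249), (2, 5, 5, 250), (10, 43, 43, 3), (-1, 21, 21, 15), (3, 11, 11, 58), (3, 5, 5, 235), (-3, 11, 11, 60), (-3, 5, 5, 243), (-2, 10, 10, 63), (-2, 23, 20, 15), (3, 43, 23, 6), (6, 11, 11, 53), (6, 5, 5, 215), (-3, 23, 21, 13), (-3, 11, 11, 54), (-3, 5, 5, 219), (-12, 43, 46, 3), (1, 23, 23, 9), (3, 11, 11, 39), (3, 5, 5, 159), (-2, 23, 23, 10), (-6, 11, 11, 43), (-6, 5, 5, 175), (4, 43, 23, 5), (3, 23, 21, 11), (1, 11, 11, 46), (1, 5, 5, 187),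 (-7, 47, 43, 2), (-1, 11, 10, 47), (-2, 5, 5, 189), (1, 5, 5, 190), (-3, 190, 21, 1), (-6, 174, 23, 1)]),
  (2748, [(-28, 2647), (4, 2727), (5, 2607), (8, 2615), (12, 2731), (-6, 2741), (2, 2745), (8, 2639), (-2, 2774), (1, 2766), (-1, 2802), (-4, 2733), (4, 2653), (-2, 2621), (4, 2773), (-6, 2651), (3, 2619), (-4, 2591), (4, 2663), (-6, 2763), (4, 2667), (-2, 2675), (1, 2796), (2, 2746)], [(-1, 85, 43, 1), (8, 10, 10, 61), (1, 43, 42, 3), (-3, 10, 10, 62), (1, 43, 43, 2), (2, 21, 21, 13), (-2, 10, 10, 55), (-3, 21, 21, 14), (3, 10, 10, 59), (2, 41, 21, 7), (-4, 21, 20, 15)]),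
  (2794, [(-15, 2741), (14, 2733), (15, 2607), (-62, 2647), (16, 2615), (-1, 2745), (-6, 2653), (4, 2621), (15, 2639), (-3, 2651), (1, 2619), (-2, 2986), (-6, 2742), (3, 2774), (3, 2734), (-2, 2780), (3, 2746), (2, 2796), (-1, 2804), (-8, 2669), (8, 2677), (10, 2773), (-6, 2765), (14, 2667), (-9, 2675), (9, 2739), (16, 2727), (-10, 2591), (10, 2663), (-12, 2763), (1, 2988), (-1, 2766), (1, 2802)], [(-1, 85, 46, 1), (-8, 11, 10, 53), (-16, 5, 5, 213), (8, 5, 5, 214), (16, 10, 10, 61), (-1, 42, 23, 6), (1, 23, 21, 12), (6, 10, 10, 55), (1, 11, 10, 58), (2, 5, 5, 233), (-1, 5, 5, 234), (-1, 11, 10, 60), (-2, 5, 5, 241), (1, 5, 5, 242), (-5, 10, 10, 62), (1, 11, 10, 51), (2, 5, 5, 205), (-1, 5, 5, 206), (1, 43, 41, 3), (4, 41, 21, 7), (-7, 21, 21, 13), (1, 21, 21, 11), (1, 43, 46, 2), (1, 42, 23, 5), (-1, 23, 21, 10), (-2, 43, 43, 2), (2, 23, 20, 13), (2, 11, 11, 52), (2, 5, 5, 211), (2, 11, 10, 54), (4, 5,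 5, 217), (-2, 5, 5, 218), (-1, 23, 20, 14), (-1, 11, 11, 56), (-1, 5, 5, 227), (3, 11, 10, 57), (6, 5, 5, 229), (-3, 5, 5, 230), (-10, 21, 20, 15), (1, 85, 43, 1), (-1, 43, 42, 3)]),
  (3066, [(5, 3005), (-3, 3053), (-18, 2799), (3, 2991), (19, 2807), (-6, 2999), (5, 3003), (7, 3054), (-14, 3006), (8, 2814), (-2, 2751), (9, 2783), (-12, 2811)], [(1, 93, 47, 1), (1, 11, 11, 55), (1, 5, 5, 223), (1, 23, 23, 13), (2, 11, 11, 62), (2, 5, 5, 251), (-5, 11, 11, 61), (-5, 5, 5, 247), (6, 11, 11, 59), (6, 5, 5, 239), (-3, 23, 23, 11), (-8, 11, 11, 47), (-8, 5, 5, 191), (-1, 47, 47, 2), (2, 23, 21, 15), (-1, 47, 43, 3), (-2, 43, 23, 7), (1, 23, 23, 14)]),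
  (3052, [(-4, 2750), (13, 2782), (-20, 2798), (16, 2806), (-7, 2810), (-1, 2812), (-12, 2775), (9, 2767), (-5, 2795), (-13, 2735), (-12, 2805), (3, 2809), (10, 2743), (30, 2747), (-11, 2749), (-4, 2781), (24, 2797), (-8, 2989), (6, 2685), (14, 2671), (-8, 2679), (-11, 2683), (-18, 2779), (10, 2987), (-4, 2655), (-8, 2998), (4, 2990), (6, 3002), (2, 3004)], [(1, 190, 21, 1), (-5, 43, 43, 3), (7, 21, 21, 15), (-2, 23, 21, 13), (-6, 11, 10, 55), (-12, 5, 5, 221), (6, 5, 5, 222), (-4, 11, 11, 53), (-4, 5, 5, 215), (-4, 46, 46, 3), (11, 11, 10, 59), (22, 5, 5, 237), (-11, 5, 5, 238), (8, 43, 46, 3), (4, 42, 23, 7), (-3, 23, 21, 14), (-4, 23, 20, 15), (-4, 11, 11, 60), (-4, 5, 5, 243), (-4, 10, 10, 63), (2, 11, 11, 57), (2, 5, 5, 231), (4, 11, 10, 61), (8, 5, 5, 245), (-4, 5, 5, 246), (-2, 11, 10, 62), (-4, 5, 5, 249), (2, 5, 5, 250), (-4, 43, 23, 5), (-4, 11, 11, 45), (-4, 5, 5, 183), (2, 23, 21, 11), (2, 11,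 11, 46), (2, 5, 5, 187), (2, 23, 23, 10), (6, 11, 11, 43), (6, 5, 5, 175), (2, 47, 43, 2), (2, 174, 23, 1)])]

lemma sq0 : stepOK 9 ((bs9.drop 0).take 3) bs10 cs10 = true := by decide +kernel
lemma sq1 : stepOK 9 ((bs9.drop 3).take 3) bs10 cs10 = true := by decide +kernel
lemma sq2 : stepOK 9 ((bs9.drop 6).take 3) bs10 cs10 = true := by decide +kernel
lemma sq3 : stepOK 9 ((bs9.drop 9).take 3) bs10 cs10 = true := by decide +kernel
lemma sq4 : stepOK 9 ((bs9.drop 12).take 3) bs10 cs10 = true := by decide +kernel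
lemma sq5 : stepOK 9 ((bs9.drop 15).take 3) bs10 cs10 = true := by decide +kernel
lemma sq6 : stepOK 9 ((bs9.drop 18).take 3) bs10 cs10 = true := by decide +kernel
lemma sq7 : stepOK 9 ((bs9.drop 21).take 3) bs10 cs10 = true := by decide +kernel
lemma sq8 : stepOK 9 ((bs9.drop 24).take 3) bs10 cs10 = true := by decide +kernel
lemma sq9 : stepOK 9 ((bs9.drop 27).take 3) bs10 cs10 = true := by decide +kernel
lemma sq10 : stepOK 9 ((bs9.drop 30).take 3) bs10 cs10 = true := by decide +kernel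
lemma sq11 : stepOK 9 ((bs9.drop 33).take 3) bs10 cs10 = true := by decide +kernel
lemma sq12 : stepOK 9 ((bs9.drop 36).take 3) bs10 cs10 = true := by decide +kernel
lemma sq13 : stepOK 9 ((bs9.drop 39).take 3) bs10 cs10 = true := by decide +kernel
lemma sq14 : stepOK 9 ((bs9.drop 42).take 3) bs10 cs10 = true := by decide +kernel
lemma sq15 : stepOK 9 ((bs9.drop 45).take 3) bs10 cs10 = true := by decide +kernel
lemma sq16 : stepOK 9 ((bs9.drop 48).take 3) bs10 cs10 = true := by decide +kernel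
lemma sq17 : stepOK 9 ((bs9.drop 51).take 3) bs10 cs10 = true := by decide +kernel
lemma sq18 : stepOK 9 ((bs9.drop 54).take 3) bs10 cs10 = true := by decide +kernel
lemma sq19 : stepOK 9 ((bs9.drop 57).take 3) bs10 cs10 = true := by decide +kernel
lemma sq20 : stepOK 9 ((bs9.drop 60).take 3) bs10 cs10 = true := by decide +kernel
lemma sq21 : stepOK 9 ((bs9.drop 63).take 3) bs10 cs10 = true := by decide +kernel
lemma sq22 : stepOK 9 ((bs9.drop 66).take 3) bs10 cs10 = true := by decide +kernel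
lemma sq23 : stepOK 9 ((bs9.drop 69).take 3) bs10 cs10 = true := by decide +kernel
lemma sq24 : stepOK 9 ((bs9.drop 72).take 3) bs10 cs10 = true := by decide +kernel
lemma sq25 : stepOK 9 ((bs9.drop 75).take 3) bs10 cs10 = true := by decide +kernel
lemma sq26 : stepOK 9 ((bs9.drop 78).take 3) bs10 cs10 = true := by decide +kernel
lemma sq27 : stepOK 9 ((bs9.drop 81).take 3) bs10 cs10 = true := by decide +kernel
lemma sq28 : stepOK 9 ((bs9.drop 84).take 3) bs10 cs10 = true := by decide +kernel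
lemma sq29 : stepOK 9 ((bs9.drop 87).take 3) bs10 cs10 = true := by decide +kernel
lemma sq30 : stepOK 9 ((bs9.drop 90).take 3) bs10 cs10 = true := by decide +kernel
lemma sq31 : stepOK 9 ((bs9.drop 93).take 3) bs10 cs10 = true := by decide +kernel
lemma sq32 : stepOK 9 (bs9.drop 96) bs10 cs10 = true := by decide +kernel

lemma van10 : Van 10 bs10 := van9.step (cs := cs10)
  (step_split 0 3 sq0
  (step_split 3 3 sq1
  (step_split 6 3 sq2
  (step_split 9 3 sq3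
  (step_split 12 3 sq4
  (step_split 15 3 sq5
  (step_split 18 3 sq6
  (step_split 21 3 sq7
  (step_split 24 3 sq8
  (step_split 27 3 sq9
  (step_split 30 3 sq10
  (step_split 33 3 sq11
  (step_split 36 3 sq12
  (step_split 39 3 sq13
  (step_split 42 3 sq14
  (step_split 45 3 sq15
  (step_split 48 3 sq16
  (step_split 51 3 sq17
  (step_split 54 3 sq18
  (step_split 57 3 sq19
  (step_split 60 3 sq20
  (step_split 63 3 sq21
  (step_split 66 3 sq22
  (step_split 69 3 sq23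
  (step_split 72 3 sq24
  (step_split 75 3 sq25
  (step_split 78 3 sq26
  (step_split 81 3 sq27
  (step_split 84 3 sq28
  (step_split 87 3 sq29
  (step_split 90 3 sq30
  (step_split 93 3 sq31
  sq32))))))))))))))))))))))))))))))))

end Pool.Agent.Lib.MP_3b0e0c_al.Y
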