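import Pool.Agent.Lib.MP_3b0e0c_al.Y.Lin

/-! The final test of the certificate. -/

namespace Pool.Agent.Lib.MP_3b0e0c_al.Y

/-- The numbers that code the entries in `D 6`. -/
def gens (o : List ℕ) : List En → List ℕ
  | [] => []
  | ⟨m, none⟩ :: st => zz m o :: gens o st
  | ⟨_, some _⟩ :: st => gens o st

/-- Test for one spanning commutator of weight eleven. -/
noncomputable def tB (μ ν : ℕ) (o gs : List ℕ) (a : W × ℕ) : Bool :=
  fS (Nat.land (lin 2 gs (Nat.div a.2 4294967296)) μ) fun z => Nat.blt z o.headI &&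
    fW a.1 fun w => Nat.beq (Nat.land (Nat.add ((tF o.tail w).getD 0 0) z) ν) 0 &&
      Nat.beq w.length 11

/-- Test for one identity. -/
noncomputable def tT (μ : ℕ) (g : Bool × Bool → Mt) (q : Bool × Bool → Ent) (st : List En)
    (o gs : List ℕ) (w : List (Bool × Bool)) (a : ℕ × ℕ) : Bool :=
  match st[a.1]? with
  | some ⟨m, some e⟩ => wdN μ g w fun m' => mK μ m' m fun m => wdK B5 5 q w fun e' =>
      mulK B5 5 e' e fun e => high 6 e &&
        Nat.blt (Nat.land (Nat.add (zz m o) (lin 262144 gs (Nat.div a.2 4294967296))) μ) o.headI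
  | _ => false

/-- The final test for the identities. -/
noncomputable def finT (c1 c2 : ℕ × ℕ) (μ : ℕ) (g : Bool × Bool → Mt)
    (q : Bool × Bool → Ent) (st : List En) : Bool :=
  fLN (oN (2 ^ 45) 12) fun o => fLN (gens o st) fun gs => Nat.blt gs.length 512 &&
    (tT μ g q st o gs tw1 c1 && tT μ g q st o gs tw2 c2)

/-- The final test for the class. -/
noncomputable def finB (cA cB : List ℕ) (μ : ℕ) (_ : Bool × Bool → Mt)
    (_ : Bool × Bool → Ent) (st : List En) : Bool :=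
  fLN (oN (2 ^ 45) 12) fun o => fLN (gens o st) fun gs => Nat.blt gs.length 512 &&
    fLN (cA.map (fun c => Nat.land (lin 262144 gs (Nat.div c 4294967296)) μ) ++
        gs.filter fun z => Nat.blt z o.headI) fun ps => fN (mk 1 (2 ^ 45) 11) fun ν =>
      Nat.blt ps.length 512 && (Nat.beq bs10.length cB.length &&
        (bs10.zip cB).all (tB μ ν o ps))

/-- Both tests. -/
noncomputable def finA (cA cB : List ℕ) (c1 c2 : ℕ × ℕ) (μ : ℕ) (g : Bool × Bool → Mt)
    (q : Bool × Bool → Ent) (st : List En) : Bool :=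
  finB cA cB μ g q st && finT c1 c2 μ g q st

variable {H : Type} [Group H] {π : F →* H} {g : Bool × Bool → Mt} {q : Bool × Bool → Ent}

lemma gens_sound : ∀ st : List En, (∀ a ∈ st, Iv π a) →
    ∀ z ∈ gens (oN (2 ^ 45) 12) st, Rl π (2 ^ 18) z
  | [], _ => by simp [gens]
  | ⟨m, none⟩ :: st, h => by
    obtain ⟨u, pu, gu, -, hu⟩ := h _ List.mem_cons_self
    exact List.forall_mem_cons.2 ⟨⟨u, pu, gu.rz (hu rfl)⟩,
      gens_sound st fun a ha => h a (List.mem_cons_of_mem _ ha)⟩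
  | ⟨_, some _⟩ :: st, h => gens_sound st fun a ha => h a (List.mem_cons_of_mem _ ha)

lemma tB_sound {gs : List ℕ} (hg : ∀ z ∈ gs, Rl π (2 ^ 18) z) (hl : gs.length < 512) {a : W × ℕ}
    (ok : tB MU (mk 1 (2 ^ 45) 11) (oN (2 ^ 45) 12) gs a = true) :
    ∃ u, Low u ∧ π u = 1 ∧ ∀ w : W, w.length = 11 → (2 : ℤ) ∣ ser u w - cth a.1 w := by
  rw [tB, fS_eq, Bool.and_eq_true, Nat.blt_eq] at ok
  obtain ⟨u, pu, hu⟩ := lin_sound two_pos gs hg (Nat.div a.2 4294967296)
  obtain ⟨h1, f, e, hf⟩ := (hu.mask (by omega)).low ok.1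
  replace ok := ok.2
  rw [fW_eq, Bool.and_eq_true, Nat.beq_eq, Nat.beq_eq] at ok
  have h2 := tF_sound (oN_length (2 ^ 45) 11) a.1 0 (by omega)
  have h3 := EL_lin 1 (oN (2 ^ 45) 11) f (ct a.1)
  have h4 := EL_mask (c := 45) (m := 1) (by norm_num) 0 11 0 (fun s => 1 * ct a.1 s + f s)
    fun w hw => by
      have := ct_le a.1 w
      have := (hf w hw).1
      rw [ok.2] at *
      omega
  rw [ok.2, List.drop_zero, List.take_of_length_le (oN_length _ _).le] at h2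
  rw [pow_zero, pow_one, h3, one_mul, ← h2, ← e] at h4
  refine ⟨u, h1, pu, fun w hw => ?_⟩
  have h5 := EL_zero (B := 2 ^ 45) (by norm_num) w _ (by rw [hw]; exact h4.symm.trans ok.1)
  have h6 := ct_mod a.1 w
  have h7 := (hf w hw).2.dvd
  omega

lemma tT_sound (hg : ∀ a, Gd (g a) (gl a)) (hq : ∀ a, Good B5 5 (q a) (gl a)) {st : List En}
    (hs : ∀ a ∈ st, Iv π a) {gs : List ℕ} (hr : ∀ z ∈ gs, Rl π (2 ^ 18) z) (hl : gs.length < 512)
    {w : List (Bool × Bool)} {a : ℕ × ℕ} (ok : tT MU g q st (oN (2 ^ 45) 12) gs w a = true) :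
    ∃ u, Low u ∧ π u = π (gw w) := by
  simp only [tT] at ok
  split at ok
  · rename_i m e hi
    obtain ⟨u, pu, gu, hu, -⟩ := hs _ (List.mem_of_getElem? hi)
    obtain ⟨m', hm, ok⟩ := cn_wd hg _ _ ok
    obtain ⟨m, hm, ok⟩ := hm.mK gu _ ok
    obtain ⟨e', he, ok⟩ := cmp_wd hq _ _ ok
    obtain ⟨e, he, ok⟩ := he.mulK (hu _ rfl) _ ok
    rw [Bool.and_eq_true, Nat.blt_eq] at ok
    obtain ⟨v, pv, hv⟩ := lin_sound (r := 262144) (by norm_num) gs hr (Nat.div a.2 4294967296)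
    have h1 := (hm.rz (he.high le_rfl ok.1)).add hv 1
    rw [one_mul] at h1
    exact ⟨_, ((h1.mask (by omega)).low ok.2).1, by simp [pu, pv]⟩
  · exact absurd ok (by simp)

theorem spec_of {cA cB : List ℕ} {c1 c2 : ℕ × ℕ} {os : List Op2}
    (ok : start2 (finA cA cB c1 c2) os = true) : Spec := by
  intro H _ π hy
  obtain ⟨g, q, st, hg, hq, hs, ok⟩ := start2_sound hy ok
  have hr := gens_sound st hs
  rw [finA, Bool.and_eq_true] at ok
  obtain ⟨ok, ok'⟩ := ok
  refine ⟨fun b hb => ?_, ?_⟩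
  swap
  · rw [finT, fLN_eq, fLN_eq] at ok'
    simp only [Bool.and_eq_true, Nat.blt_eq] at ok'
    exact ⟨tT_sound hg hq hs hr ok'.1 ok'.2.1, tT_sound hg hq hs hr ok'.1 ok'.2.2⟩
  clear ok'
  rw [finB, fLN_eq, fLN_eq, fLN_eq, fN_eq] at ok
  generalize gens (oN (2 ^ 45) 12) st = gs at hr ok
  simp only [Bool.and_eq_true, Nat.blt_eq, Nat.beq_eq, List.all_eq_true] at ok
  obtain ⟨h1, h4, h5, h6⟩ := ok
  obtain ⟨i, hi, rfl⟩ := List.getElem_of_mem hb
  refine tB_sound (a := (bs10[i], cB[i])) (List.forall_mem_append.2 ⟨fun z hz => ?_,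
    fun z hz => hr z (List.mem_of_mem_filter hz)⟩) h4
    (h6 _ (List.mem_iff_getElem.2 ⟨i, by simp; omega, by simp⟩))
  obtain ⟨c, -, rfl⟩ := List.mem_map.1 hz
  obtain ⟨u, pu, hu⟩ := lin_sound (r := 262144) (by norm_num) gs hr (Nat.div c 4294967296)
  exact ⟨u, pu, hu.mask (by omega)⟩

end Pool.Agent.Lib.MP_3b0e0c_al.Y
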