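import Pool.Agent.Lib.MP_3b0e0c_al.Y.Spec
import Pool.Agent.Lib.MP_3b0e0c_al.V.Nine
import Pool.Agent.Lib.MP_3b0e0c_al.Y.Dyn

/-! From the certificate to local finiteness of binary finite 6-Engel 2-groups. -/

namespace Pool.Agent.Lib.MP_3b0e0c_al.Y

open Subgroup
open scoped commutatorElement

variable {H : Type} [Group H] {π : F →* H}

lemma eight_smul (h8 : ∀ x, π (.of x) ^ 8 = 1) {A : Type} [AddCommGroup A] (n : ℕ) :
    ∀ f : F → A, IsHom n f → (∀ u ∈ Γ F n, π u = 1 → f u = 0) → ∀ u ∈ Γ F n, 8 • f u = 0 := by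
  induction n with
  | zero =>
    intro f h hk
    refine van_zero A (fun u => 8 • f u) ⟨fun u hu v hv => by rw [h.add u hu v hv, smul_add],
      fun u hu => by rw [h.kill u hu, smul_zero]⟩ fun w hw => ?_
    have h1 : ∀ x, 8 • f (.of x) = 0 := fun x => by
      rw [← h.pow (mem_zero _)]
      exact hk _ (mem_zero _) (by rw [map_pow, h8])
    simp only [List.mem_cons, List.not_mem_nil, or_false] at hw
    rcases hw with rfl | rfl <;> exact h1 _
  | succ n ih =>
    intro f h hk u hu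
    induction hu using closure_induction with
    | mem g hg =>
      obtain ⟨v, hv, g, -, rfl⟩ := hg
      refine ih _ (h.left (j := 0) rfl (mem_zero g)) (fun w hw e => hk _
        (comm_mem hw (mem_zero g) le_rfl) ?_) v hv
      rw [map_commutatorElement, e, commutatorElement_one_left]
    | one => rw [h.one, smul_zero]
    | mul a b ha hb ia ib => rw [h.add a ha b hb, smul_add, ia, ib, add_zero]
    | inv a ha ia => rw [h.inv ha, smul_neg, ia, neg_zero]

lemma pow_eight (h8 : ∀ x, π (.of x) ^ 8 = 1) (n : ℕ) {u : F} (hu : u ∈ Γ F n ⊔ π.ker) :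
    u ^ 8 ∈ Γ F (n + 1) ⊔ π.ker := by
  rw [← comap_map_eq, mem_comap] at hu ⊢
  obtain ⟨a, ha, e⟩ := hu
  rw [map_pow, ← e, ← map_pow, ← mem_comap, comap_map_eq]
  obtain ⟨A, _, f, hf, hk, -⟩ := exists_univ n (Γ F (n + 1) ⊔ π.ker) le_sup_left
  rw [← hk _ (pow_mem ha 8), hf.pow ha]
  exact eight_smul h8 n f hf (fun v hv e => (hk v hv).2 (mem_sup_right e)) a ha

lemma pow_big (h8 : ∀ x, π (.of x) ^ 8 = 1) {u : F} (hu : u ∈ Γ F 5) :
    u ^ 2 ^ 18 ∈ Γ F 11 ⊔ π.ker := by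
  have := pow_eight h8 10 (pow_eight h8 9 (pow_eight h8 8 (pow_eight h8 7 (pow_eight h8 6
    (pow_eight h8 5 (mem_sup_left hu))))))
  simp only [← pow_mul] at this
  exact this

lemma root_step {n : ℕ} {ds : List (W × List (ℤ × W))} (h : Mg n ds) (N : ℕ) {u : F}
    (hu : u ∈ Γ F n) (hd : ∀ w : W, w.length = n + 1 → (N : ℤ) ∣ ser u w) :
    ∃ v ∈ Γ F n, u * (v ^ N)⁻¹ ∈ Γ F (n + 1) := by
  classical
  obtain ⟨A, _, f, hf, hk, -⟩ := exists_univ n (Γ F (n + 1)) le_rfl
  have hg : IsHom n fun u => if u ∈ Γ F n then f u else 0 :=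
    ⟨fun u hu v hv => by rw [if_pos hu, if_pos hv, if_pos (mul_mem hu hv), hf.add u hu v hv],
      fun u hu => by rw [if_pos (gam_mono n.le_succ hu), hf.kill u hu]⟩
  let S : AddSubgroup A :=
    { carrier := {a | ∃ v ∈ Γ F n, f v = a}
      zero_mem' := ⟨1, one_mem _, hf.one⟩
      add_mem' := by
        rintro _ _ ⟨a, ha, rfl⟩ ⟨b, hb, rfl⟩
        exact ⟨_, mul_mem ha hb, hf.add a ha b hb⟩
      neg_mem' := by
        rintro _ ⟨a, ha, rfl⟩
        exact ⟨_, inv_mem ha, hf.inv ha⟩ }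
  have h1 : ∀ l : List (ℤ × W), evL (fun w => if LR w ∈ Γ F n then f (LR w) else 0) l ∈ S := by
    intro l
    induction l with
    | nil => exact zero_mem _
    | cons a l ih =>
      refine add_mem (S.zsmul_mem ?_ _) ih
      beta_reduce
      split_ifs with e
      · exact ⟨_, e, rfl⟩
      · exact zero_mem _
  obtain ⟨v, hv, e⟩ := dsum_mem (fun m => ser u m / N) _ S ds fun a _ => h1 a.2
  have h2 := h.2 A _ hg u hu
  rw [if_pos hu, dsum_congr (c' := fun m => 0 + N * (ser u m / N)) _ _ fun a ha => by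
    rw [zero_add, Int.mul_ediv_cancel' (hd _ (h.1 a ha))], dsum_lin, dsum_zero, zero_add, ← e] at h2
  refine ⟨v, hv, (hk _ (mul_mem hu (inv_mem (pow_mem hv N)))).1 ?_⟩
  rw [hf.add _ hu _ (inv_mem (pow_mem hv N)), hf.inv (pow_mem hv N), hf.pow hv, h2, natCast_zsmul,
    add_neg_cancel]

/-- A reduced form of `u` in depth `k`. -/
def Red (π : F →* H) (u : F) (k : ℕ) : Prop :=
  ∃ t ∈ Γ F k, Low t ∧ u * t⁻¹ ∈ Γ F 11 ⊔ π.ker ∧
    ∀ w : W, w.length = 11 → ser t w % 2 = ser u w % 2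

lemma Red.step (h8 : ∀ x, π (.of x) ^ 8 = 1) {u : F} {k : ℕ} {ds : List (W × List (ℤ × W))}
    (h : Mg k ds) (h5 : 5 ≤ k) (h9 : k ≤ 9) (hr : Red π u k) : Red π u (k + 1) := by
  obtain ⟨t, ht, hl, hm, hp⟩ := hr
  obtain ⟨N, hN, hb⟩ : ∃ N : ℕ, (N : ℤ) = 2 ^ 18 ∧ ∀ u ∈ Γ F 5, u ^ N ∈ Γ F 11 ⊔ π.ker :=
    ⟨2 ^ 18, by norm_num, fun u hu => pow_big h8 hu⟩
  obtain ⟨v, hv, h1⟩ := root_step h N ht fun w hw =>
    hN ▸ hl.2 w (by rintro rfl; simp at hw) (by omega)
  have h2 : v ∈ Γ F 5 := gam_mono h5 hv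
  have h3 : v ∈ D 6 := gam_le_D 5 h2
  have h4 : ∀ w : W, w ≠ [] → w.length ≤ 11 →
      ser (t * (v ^ N)⁻¹) w = ser t w - 2 ^ 18 * ser v w := fun w h0 hw => by
    rw [ser_add hl.1 (inv_mem (pow_mem h3 _)) h0 (by omega), ← zpow_natCast, ← zpow_neg,
      ser_zpow h3 h0 (by omega), hN]
    ring
  refine ⟨_, h1, ⟨mul_mem hl.1 (inv_mem (pow_mem h3 _)), fun w h0 hw => ?_⟩, ?_, fun w hw => ?_⟩
  · rw [h4 w h0 (by omega)]
    exact dvd_sub (hl.2 w h0 hw) (dvd_mul_right _ _)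
  · rw [show u * (t * (v ^ N)⁻¹)⁻¹ = u * (v ^ N) * u⁻¹ * (u * t⁻¹) by group]
    exact mul_mem ((inferInstance : (Γ F 11 ⊔ π.ker).Normal).conj_mem _ (hb v h2) u) hm
  · rw [h4 w (by rintro rfl; simp at hw) hw.le, ← hp w hw]
    omega

lemma D6_le : D 6 ≤ Γ F 5 := mg4.step <| mg3.step <| mg2.step <| mg1.step <| mg0.step le_top

lemma red_ten (h8 : ∀ x, π (.of x) ^ 8 = 1) {u : F} (hu : Low u) : Red π u 10 := by
  have h5 : Red π u 5 := ⟨u, D6_le hu.1, hu, by simp, fun _ _ => rfl⟩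
  exact ((((h5.step h8 mg5 (by omega) (by omega)).step h8 mg6 (by omega) (by omega)).step h8 mg7
    (by omega) (by omega)).step h8 mg8 (by omega) (by omega)).step h8 mg9 (by omega) (by omega)

lemma len10 : ∀ b ∈ bs10, b.length = 11 := by decide +kernel

lemma low_triv (hs : Spec) (h2 : IsPGroup 2 H) {x y : H} (hy : Hy (pi2 x y))
    (hf : (closure {x, y} : Set H).Finite) {u : F} (hu : Low u) : pi2 x y u = 1 := by
  have : Finite (closure {x, y} : Subgroup H) := hf
  have h3 := h2.to_subgroup (closure {x, y})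
  obtain ⟨e, hc⟩ := IsPGroup.iff_card.1 h3
  obtain ⟨n, hn⟩ := (Subgroup.isNilpotent_iff_lowerCentralSeries _).1 h3.isNilpotent
  have h4 : Γ F 10 ≤ Γ F 11 ⊔ (pi2 x y).ker := by
    refine dyn_nak (n := 5) van10 len10 _ le_sup_left (e := e) (fun u => mem_sup_right ?_)
      fun a ha => ?_
    · have hu : pi2 x y u ∈ closure {x, y} := by
        have := pi2_map x y 0
        rw [Subgroup.lowerCentralSeries_zero] at this
        exact this ▸ mem_map_of_mem _ (mem_zero u)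
      rw [MonoidHom.mem_ker, map_pow, ← hc]
      exact congrArg Subtype.val (pow_card_eq_one' (x := (⟨_, hu⟩ : closure {x, y})))
    · obtain ⟨u, h5, h6, h7⟩ := (hs H _ hy).1 _ ha
      obtain ⟨t, ht, -, hm, hp⟩ := red_ten hy.r8 h5
      refine ⟨t, ht, ?_, fun b hb => ?_⟩
      · have := mul_mem (inv_mem hm) (mem_sup_right (T := (pi2 x y).ker) h6)
        rwa [show (u * t⁻¹)⁻¹ * u = t by group] at this
      · have h8 := hp b hb
        have h9 := h7 b hb
        omega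
  have h5 := map_mono (f := pi2 x y) h4
  rw [Subgroup.map_sup, (Subgroup.map_eq_bot_iff _).2 le_rfl, sup_bot_eq, pi2_map, pi2_map] at h5
  have h6 : ∀ k, (closure {x, y}).lowerCentralSeries 10 ≤
      (closure {x, y}).lowerCentralSeries (10 + k) := by
    intro k
    induction k with
    | zero => exact le_rfl
    | succ k ih => exact h5.trans (commutator_mono ih le_rfl)
  have h7 : Γ F 10 ≤ (pi2 x y).ker := by
    rw [← Subgroup.map_eq_bot_iff, pi2_map, ← le_bot_iff, ← hn]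
    exact (h6 n).trans (Subgroup.lowerCentralSeries_antitone _ (by omega))
  obtain ⟨t, ht, -, hm, -⟩ := red_ten hy.r8 hu
  have h9 : Γ F 11 ⊔ (pi2 x y).ker ≤ (pi2 x y).ker :=
    sup_le (fun v hv => h7 (gam_mono (by omega) hv)) le_rfl
  have := mul_mem (h9 hm) (h7 ht)
  rwa [inv_mul_cancel_right] at this

lemma gw_cmw (a b : List (Bool × Bool)) : gw (cmw a b) = ⁅gw a, gw b⁆ := by
  rw [cmw, gw_append, gw_append, gw_append, gw_iw, gw_iw, commutatorElement_def]; group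

lemma gw_rp (x : Bool) (n : ℕ) : gw (rp x n) = .of x ^ n := gw_replicate _ _

lemma map_eng {G K : Type*} [Group G] [Group K] (f : G →* K) (v : G) (n : ℕ) :
    ∀ u, f (engel v n u) = engel (f v) n (f u) := by
  induction n with
  | zero => exact fun _ => rfl
  | succ n ih => intro u; rw [engel, engel, ih, map_commutatorElement]

lemma pair_comm (hs : Spec) (h2 : IsPGroup 2 H)
    (hf : ∀ a b : H, (closure {a, b * a * b⁻¹} : Set H).Finite) (he : ∀ u v : H, engel v 6 u = 1)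
    {x : H} (hx : x ^ 8 = 1) (g : H) : Commute ⁅x ^ 4, g * x ^ 4 * g⁻¹⁆ (x ^ 2) ∧
      Commute (g * x ^ 4 * g⁻¹) (x ^ 2 * (g * x ^ 4 * g⁻¹) * (x ^ 2)⁻¹) := by
  have p0 : pi2 x (g * x * g⁻¹) (.of false) = x := by simp [pi2]
  have p1 : pi2 x (g * x * g⁻¹) (.of true) = g * x * g⁻¹ := by simp [pi2]
  have hy : Hy (pi2 x (g * x * g⁻¹)) := by
    refine ⟨?_, he, ?_⟩
    · rintro (_ | _)
      · rw [p0, hx]
      · rw [p1, conj_pow, hx]; simp
    · rintro (_ | _) (_ | _)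
      · exact ⟨1, by simp⟩
      · exact ⟨g⁻¹, by rw [p0, p1]; group⟩
      · exact ⟨g, by rw [p0, p1]⟩
      · exact ⟨1, by simp⟩
  obtain ⟨-, ⟨u, hu, e1⟩, v, hv, e2⟩ := hs H _ hy
  rw [low_triv hs h2 hy (hf _ _) hu] at e1
  rw [low_triv hs h2 hy (hf _ _) hv] at e2
  simp only [tw1, tw2, gw_cmw, gw_append, gw_iw, gw_rp, map_commutatorElement, map_mul, map_inv,
    map_pow, p0, p1, conj_pow] at e1 e2
  exact ⟨commutatorElement_eq_one_iff_commute.1 e1.symm,
    commutatorElement_eq_one_iff_commute.1 e2.symm⟩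

/-- A 6-Engel 2-group in which conjugate pairs generate finite subgroups is locally finite, given
the certificate. -/
theorem LF_six_conj (hs : Spec) {G : Type} [Group G] (h2 : IsPGroup 2 G)
    (hf : ∀ a b : G, (closure {a, b * a * b⁻¹} : Set G).Finite)
    (he : ∀ u v : G, engel v 6 u = 1) :
    LF (⊤ : Subgroup G) := by
  have hq := h2.to_quotient (rad G)
  have hf' : ∀ a b : G ⧸ rad G, (closure {a, b * a * b⁻¹} : Set (G ⧸ rad G)).Finite := by
    intro a b
    obtain ⟨a, rfl⟩ := QuotientGroup.mk'_surjective _ a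
    obtain ⟨b, rfl⟩ := QuotientGroup.mk'_surjective _ b
    rw [← map_inv, ← map_mul, ← map_mul, ← Set.image_pair, ← MonoidHom.map_closure]
    exact (hf a b).image _
  have he' : ∀ u v : G ⧸ rad G, engel v 6 u = 1 := by
    intro u v
    obtain ⟨u, rfl⟩ := QuotientGroup.mk'_surjective _ u
    obtain ⟨v, rfl⟩ := QuotientGroup.mk'_surjective _ v
    rw [← map_eng, he, map_one]
  have e4 : ∀ u : G ⧸ rad G, u ^ 4 = 1 := fun u => by
    obtain ⟨k, hk⟩ := hq u
    refine descend (c := 4) (fun j e => ?_) hk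
    rw [mul_comm, pow_mul]
    have e1 : (u ^ j) ^ 8 = 1 := by rw [← e, ← pow_mul]; congr 1; ring
    generalize u ^ j = z at e1
    exact quot_triv (V.LF_root3 (r := z ^ 2) (by rw [← pow_mul]) (by rw [← pow_add, e1])
      (fun g => (pair_comm hs hq hf' he' e1 g).1) fun g => (pair_comm hs hq hf' he' e1 g).2)
      (subset_normalClosure rfl)
  have hk : LF (QuotientGroup.mk' (rad G)).ker := by rw [QuotientGroup.ker_mk']; exact LF_rad
  have := LF.comap _ hk (sanov e4)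
  rwa [comap_top] at this

/-- Binary finite 6-Engel 2-groups are locally finite, given the certificate. -/
theorem LF_six (hs : Spec) {G : Type} [Group G] (h2 : IsPGroup 2 G)
    (hf : ∀ a b : G, (closure {a, b} : Set G).Finite) (he : ∀ u v : G, engel v 6 u = 1) :
    LF (⊤ : Subgroup G) := LF_six_conj hs h2 (fun _ _ => hf _ _) he

end Pool.Agent.Lib.MP_3b0e0c_al.Y
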