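import Pool.Agent.Lib.MP_3b0e0c_al.Eng
import Mathlib.Data.Int.ModEq
import Mathlib.Data.Nat.Bitwise

/-! Kronecker sums of natural numbers and reduction of their digits. -/

namespace Pool.Agent.Lib.MP_3b0e0c_al.Y

open Finset

/-- Weighted sum of the coefficients in one degree. -/
def EL : List ℕ → (W → ℕ) → ℕ
  | [], f => f []
  | b :: o, f => EL o (fun s => f (false :: s)) + b * EL o fun s => f (true :: s)

/-- The product `f * g` of two series. -/
def cv (g : W → ℕ) : W → (W → ℕ) → ℕ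
  | [], f => f [] * g []
  | x :: w, f => f [] * g (x :: w) + cv g w fun s => f (x :: s)

lemma EL_lin (a : ℕ) (o : List ℕ) : ∀ f g : W → ℕ,
    EL o (fun s => a * g s + f s) = a * EL o g + EL o f := by
  induction o with
  | nil => intros; rfl
  | cons b o ih => intro f g; simp only [EL, ih]; ring

lemma EL_cv (o : List ℕ) : ∀ f g : W → ℕ, EL o (fun w => cv g w f) =
    ∑ j ∈ range (o.length + 1), EL (o.take j) f * EL (o.drop j) g := by
  induction o with
  | nil => intro f g; simp [EL, cv]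
  | cons b o ih =>
    intro f g
    rw [List.length_cons, sum_range_succ']
    simp only [EL, cv, EL_lin, ih, List.take_succ_cons, List.drop_succ_cons, List.take_zero,
      List.drop_zero, add_mul, sum_add_distrib, mul_assoc, ← mul_sum]
    ring

lemma EL_smul (e : ℕ) (o : List ℕ) : ∀ f g : W → ℕ,
    (∀ w : W, w.length = o.length → g w = e * f w) → EL o g = e * EL o f := by
  induction o with
  | nil => exact fun f g h => h [] rfl
  | cons b o ih =>
    intro f g h
    rw [EL, EL, ih _ _ fun w hw => h (false :: w) (by simp [hw]),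
      ih _ _ fun w hw => h (true :: w) (by simp [hw])]
    ring

lemma EL_congr {o : List ℕ} {f g : W → ℕ} (h : ∀ w : W, w.length = o.length → g w = f w) :
    EL o g = EL o f := by
  rw [EL_smul 1 o f g fun w hw => by rw [h w hw, one_mul], one_mul]

lemma EL_snoc (b : ℕ) (o : List ℕ) : ∀ f : W → ℕ, EL (o ++ [b]) f =
    EL o (fun s => f (s ++ [false])) + b * EL o fun s => f (s ++ [true]) := by
  induction o with
  | nil => intro f; rfl
  | cons a o ih => intro f; simp only [List.cons_append, EL, ih]; ring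

lemma cv_le {K : ℕ} {g : W → ℕ} (hg : ∀ w, g w ≤ K) (w : W) : ∀ f : W → ℕ, (∀ s, f s ≤ K) →
    cv g w f ≤ (w.length + 1) * (K * K) := by
  induction w with
  | nil => intro f hf; simpa [cv] using Nat.mul_le_mul (hf _) (hg _)
  | cons x w ih =>
    intro f hf
    have h1 := ih (fun s => f (x :: s)) fun s => hf _
    have h2 := Nat.mul_le_mul (hf []) (hg (x :: w))
    rw [cv, List.length_cons, add_mul (w.length + 1)]
    omega

lemma cv_mod {n : ℤ} {g : W → ℕ} {g' : V} (w : W) : ∀ (f : W → ℕ) (f' : V),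
    (∀ s : W, s.length ≤ w.length → (f s : ℤ) ≡ f' s [ZMOD n]) →
    (∀ s : W, s.length ≤ w.length → (g s : ℤ) ≡ g' s [ZMOD n]) →
    (cv g w f : ℤ) ≡ conv g' w f' [ZMOD n] := by
  induction w with
  | nil => intro f f' hf hg; simpa [cv, conv] using (hf [] le_rfl).mul (hg [] le_rfl)
  | cons x w ih =>
    intro f f' hf hg
    rw [cv, conv]
    push_cast
    exact ((hf [] (by simp)).mul (hg _ le_rfl)).add (ih _ _ (fun s hs => hf _ (by simpa using hs))
      fun s hs => hg s (by simp; omega))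

/-- Kronecker weights. -/
def oN (B : ℕ) : ℕ → List ℕ
  | 0 => []
  | k + 1 => B ^ 2 ^ k :: oN B k

lemma oN_length (B k : ℕ) : (oN B k).length = k := by
  induction k with
  | zero => rfl
  | succ k ih => simp [oN, ih]

lemma oN_drop (B k i : ℕ) : (oN B (k + i)).drop i = oN B k := by
  induction i with
  | zero => rfl
  | succ i ih => exact ih

lemma oN_take (B t k : ℕ) : (oN B (t + k)).take k = oN (B ^ 2 ^ t) k := by
  induction k with
  | zero => simp [oN]
  | succ k ih => rw [← add_assoc, oN, List.take_succ_cons, ih, oN, ← pow_mul, ← pow_add]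

lemma two_lt {a b β : ℕ} (ha : a < β) (hb : b < β) : a + β * b < β * β := by
  nlinarith [Nat.mul_le_mul_left β (Nat.succ_le_of_lt hb)]

lemma EL_lt {B : ℕ} (k : ℕ) : ∀ f : W → ℕ, (∀ w : W, w.length = k → f w < B) →
    EL (oN B k) f < B ^ 2 ^ k := by
  induction k with
  | zero => intro f h; simpa [oN, EL] using h [] rfl
  | succ k ih =>
    intro f h
    rw [oN, EL, pow_succ 2, pow_mul, sq]
    exact two_lt (ih _ fun w hw => h _ (by simp [hw])) (ih _ fun w hw => h _ (by simp [hw]))

lemma EL_zero {B : ℕ} (hB : 0 < B) (w : W) : ∀ f : W → ℕ, EL (oN B w.length) f = 0 → f w = 0 := by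
  induction w with
  | nil => exact fun f h => h
  | cons x w ih =>
    intro f h
    rw [List.length_cons, oN, EL, Nat.add_eq_zero_iff, mul_eq_zero] at h
    cases x
    · exact ih _ h.1
    · exact ih (fun s => f (true :: s)) (h.2.resolve_left (by positivity))

lemma land_split {c a a' : ℕ} (b b' : ℕ) (ha : a < 2 ^ c) (ha' : a' < 2 ^ c) :
    (a + 2 ^ c * b) &&& (a' + 2 ^ c * b') = (a &&& a') + 2 ^ c * (b &&& b') := by
  refine Nat.eq_of_testBit_eq fun j => ?_
  rw [Nat.testBit_and, add_comm a, add_comm a', add_comm (a &&& a'),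
    Nat.testBit_two_pow_mul_add _ ha, Nat.testBit_two_pow_mul_add _ ha',
    Nat.testBit_two_pow_mul_add _ (Nat.and_le_left.trans_lt ha)]
  split_ifs <;> rw [Nat.testBit_and]

lemma EL_land (c k : ℕ) : ∀ f g : W → ℕ, (∀ w : W, w.length = k → f w < 2 ^ c) →
    (∀ w : W, w.length = k → g w < 2 ^ c) →
    EL (oN (2 ^ c) k) f &&& EL (oN (2 ^ c) k) g = EL (oN (2 ^ c) k) fun w => f w &&& g w := by
  induction k with
  | zero => intros; rfl
  | succ k ih =>
    intro f g hf hg
    have h1 := fun x => EL_lt k (fun s => f (x :: s)) fun w hw => hf _ (by simp [hw])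
    have h2 := fun x => EL_lt k (fun s => g (x :: s)) fun w hw => hg _ (by simp [hw])
    have h3 := fun x => ih (fun s => f (x :: s)) (fun s => g (x :: s))
      (fun w hw => hf _ (by simp [hw])) fun w hw => hg _ (by simp [hw])
    rw [oN, EL, EL, EL, ← h3, ← h3]
    rw [← pow_mul] at h1 h2 ⊢
    exact land_split _ _ (h1 false) (h2 false)

/-- The digit `μ` repeated `2 ^ k` times. -/
def mk (μ B : ℕ) : ℕ → ℕ
  | 0 => μ
  | k + 1 => mk μ B k + B ^ 2 ^ k * mk μ B k

lemma mk_EL (μ B t k : ℕ) : mk μ B (t + k) = EL (oN (B ^ 2 ^ t) k) fun _ => mk μ B t := by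
  induction k with
  | zero => rfl
  | succ k ih => rw [← add_assoc, mk, oN, EL, ← ih, ← pow_mul, ← pow_add]

lemma mk_lt {μ B : ℕ} (h : μ < B) (k : ℕ) : mk μ B k < B ^ 2 ^ k := by
  induction k with
  | zero => simpa [mk] using h
  | succ k ih => rw [mk, pow_succ 2, pow_mul, sq]; exact two_lt ih ih

lemma land_mk {μ c j X : ℕ} (h : μ < 2 ^ c) (hX : X < (2 ^ c) ^ 2 ^ j) (n : ℕ) :
    X &&& mk μ (2 ^ c) (j + n) = X &&& mk μ (2 ^ c) j := by
  induction n with
  | zero => rfl
  | succ n ih =>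
    have h1 := mk_lt h (j + n)
    have h2 : X < (2 ^ c) ^ 2 ^ (j + n) := hX.trans_le
      (Nat.pow_le_pow_right (by positivity) (Nat.pow_le_pow_right two_pos (by omega)))
    rw [← ih, ← add_assoc, mk]
    rw [← pow_mul] at h1 h2 ⊢
    simpa using land_split 0 (mk μ (2 ^ c) (j + n)) h2 h1

lemma EL_mask {c m : ℕ} (hm : m ≤ c) (t k n : ℕ) (f : W → ℕ)
    (hf : ∀ w : W, w.length = k → f w < 2 ^ c) :
    EL (oN ((2 ^ c) ^ 2 ^ t) k) f &&& mk (2 ^ m - 1) (2 ^ c) (t + k + n) =
      EL (oN ((2 ^ c) ^ 2 ^ t) k) fun w => f w % 2 ^ m := by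
  have h0 : 2 ^ m - 1 < 2 ^ c := (Nat.sub_one_lt (by positivity)).trans_le
    (Nat.pow_le_pow_right two_pos hm)
  have h1 : ∀ w : W, w.length = k → f w < (2 ^ c) ^ 2 ^ t := fun w hw => (hf w hw).trans_le
    (Nat.le_self_pow (by positivity) _)
  have h2 := EL_lt k f h1
  have h3 := mk_lt h0 t
  rw [← pow_mul (2 ^ c), ← pow_add] at h2
  rw [land_mk h0 h2, mk_EL]
  rw [← pow_mul] at h1 h3 ⊢
  rw [EL_land _ _ _ _ h1 fun _ _ => h3]
  refine EL_congr fun w hw => ?_
  have := land_mk h0 (j := 0) (X := f w) (by simpa using hf w (hw.trans (oN_length _ _))) t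
  rw [zero_add] at this
  rw [this, mk, Nat.and_two_pow_sub_one_eq_mod]

end Pool.Agent.Lib.MP_3b0e0c_al.Y
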