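import Pool.Agent.Lib.MP_3b0e0c_al.Y.Run

/-! Linear combinations of relators in `D 6` modulo `D 12`. -/

namespace Pool.Agent.Lib.MP_3b0e0c_al.Y

/-- The part of a word after the first `true`. -/
def sl1 : W → W
  | [] => []
  | false :: s => sl1 s
  | true :: s => s

/-- Words of length twelve code the words of length at most eleven. -/
def sl : W → W
  | [] => []
  | false :: s => s
  | true :: s => sl1 s

lemma sl1_le : ∀ w : W, (sl1 w).length ≤ w.length
  | [] => le_rfl
  | false :: s => (sl1_le s).trans (by simp)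
  | true :: s => by simp [sl1]

lemma sl_lt {w : W} (h : w.length = 12) : (sl w).length ≤ 11 := by
  rcases w with _ | ⟨_ | _, s⟩
  · simp at h
  · exact Nat.le_of_succ_le_succ h.le
  · exact (sl1_le s).trans (Nat.le_of_succ_le_succ h.le)

lemma sl1_rep (n : ℕ) (s : W) : sl1 (List.replicate n false ++ true :: s) = s := by
  induction n with
  | zero => rfl
  | succ n ih => exact ih

/-- The coefficients in the degrees six to eleven. -/
def Ph (u : F) (w : W) : ℤ := if 6 ≤ (sl w).length then ser u (sl w) else 0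

/-- The number `Z` codes the series of `u` with digits at most `K`. -/
def RZ (Z K : ℕ) (u : F) : Prop := u ∈ D 6 ∧ ∃ f, Z = EL (oN (2 ^ 45) 12) f ∧
  ∀ w : W, w.length = 12 → f w ≤ K ∧ (f w : ℤ) ≡ Ph u w [ZMOD 2 ^ 18]

/-- The degrees six to ten. -/
def lo (e : Mt) : List ℕ → ℕ
  | [] => 0
  | b :: o => lo e o + b * if 6 ≤ o.length then e.at 1 (11 - o.length) o.length else 0

/-- The degrees six to eleven. -/
def zz (e : Mt) : List ℕ → ℕ
  | [] => 0
  | b :: o => e.at 1 0 11 + b * lo e o

lemma EL_0 (o : List ℕ) : EL o (fun _ => 0) = 0 := by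
  rw [EL_smul 0 o (fun _ => 0) _ (by simp), zero_mul]

lemma Gd.rz {e : Mt} {u : F} (h : Gd e u) (hu : u ∈ D 6) :
    RZ (zz e (oN (2 ^ 45) 12)) (2 ^ 18) u := by
  obtain ⟨f, r, c, b⟩ := h
  have h1 : ∀ k ≤ 11, e.at 1 (11 - k) k = EL (oN (2 ^ 45) k) f := fun k hk => by
    rw [r _ _ (by omega), wn_eq (by omega), show 11 - (11 - k) - k = 0 by omega, pow_zero, pow_one]
  have h2 : ∀ k ≤ 11, lo e (oN (2 ^ 45) k) =
      EL (oN (2 ^ 45) k) fun w => if 6 ≤ (sl1 w).length then f (sl1 w) else 0 := by
    intro k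
    induction k with
    | zero => exact fun _ => rfl
    | succ k ih =>
      intro hk
      rw [oN, lo, EL, ih (by omega), oN_length, h1 k (by omega)]
      congr 2
      split_ifs with h6
      · exact (EL_congr fun w hw => if_pos (by rw [oN_length] at hw; exact hw ▸ h6)).symm
      · exact ((EL_congr fun w hw => if_neg (by
          rw [oN_length] at hw; change ¬6 ≤ w.length; omega)).trans (EL_0 _)).symm
  refine ⟨hu, fun w => if 6 ≤ (sl w).length then f (sl w) else 0, ?_, fun w hw => ?_⟩
  · rw [oN, zz, EL, h2 11 le_rfl, h1 11 le_rfl]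
    exact congrArg₂ (· + ·) (EL_congr fun w hw => if_pos (by
      rw [oN_length] at hw; change 6 ≤ w.length; omega)).symm rfl
  · unfold Ph
    beta_reduce
    split_ifs
    · exact ⟨b _, c _ (sl_lt hw)⟩
    · simp

lemma RZ.add {Z K Z' K' : ℕ} {u v : F} (h : RZ Z K u) (h' : RZ Z' K' v) (c : ℕ) :
    RZ (c * Z + Z') (c * K + K') (u ^ c * v) := by
  obtain ⟨hu, f, e, hf⟩ := h
  obtain ⟨hv, g, e', hg⟩ := h'
  refine ⟨mul_mem (pow_mem hu c) hv, fun w => c * f w + g w, by rw [EL_lin, ← e, ← e'], fun w hw =>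
    ⟨add_le_add (Nat.mul_le_mul_left c (hf w hw).1) (hg w hw).1, ?_⟩⟩
  have h1 : Ph (u ^ c * v) w = c * Ph u w + Ph v w := by
    unfold Ph
    split_ifs with h6
    · have h0 : sl w ≠ [] := by intro e; simp [e] at h6
      have h2 := sl_lt hw
      rw [ser_add (pow_mem hu c) hv h0 (by omega), ← zpow_natCast, ser_zpow hu h0 (by omega)]
    · simp
  rw [h1]
  push_cast
  exact ((hf w hw).2.mul_left _).add (hg w hw).2

lemma RZ.mono {Z K K' : ℕ} {u : F} (h : RZ Z K u) (hK : K ≤ K') : RZ Z K' u :=
  ⟨h.1, h.2.imp fun _ hf => ⟨hf.1, fun w hw => ⟨(hf.2 w hw).1.trans hK, (hf.2 w hw).2⟩⟩⟩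

lemma RZ.mask {Z K : ℕ} {u : F} (h : RZ Z K u) (hK : K < 2 ^ 45) : RZ (Z &&& MU) (2 ^ 18) u := by
  obtain ⟨hu, f, e, hf⟩ := h
  have := EL_mask (c := 45) (m := 18) (by norm_num) 0 12 0 f fun w hw => (hf w hw).1.trans_lt hK
  rw [pow_zero, pow_one, ← e] at this
  refine ⟨hu, _, this, fun w hw => ⟨(Nat.mod_lt _ (by norm_num)).le, ?_⟩⟩
  push_cast
  exact (Int.mod_modEq _ _).trans (hf w hw).2

lemma rz_one : RZ 0 0 1 := ⟨one_mem _, fun _ => 0, (EL_0 _).symm, fun w _ => ⟨le_rfl, by
  unfold Ph
  split_ifs with h6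
  · have h0 : sl w ≠ [] := by intro e; simp [e] at h6
    simp [ser, mu_one, dl, h0]
  · rfl⟩⟩

/-- Linear combination with the digits of `c` in base `r` as coefficients. -/
noncomputable def lin (r : ℕ) (gs : List ℕ) : ℕ → ℕ :=
  List.rec (fun _ => 0) (fun z _ ih c => Nat.rec (ih (Nat.div c r))
    (fun _ _ => Nat.add (Nat.mul (Nat.mod c r) z) (ih (Nat.div c r))) (Nat.mod c r)) gs

variable {H : Type} [Group H] {π : F →* H}

/-- The number `z` codes a relator. -/
def Rl (π : F →* H) (K z : ℕ) : Prop := ∃ u, π u = 1 ∧ RZ z K u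

lemma lin_sound {r : ℕ} (hr : 0 < r) (gs : List ℕ) : (∀ z ∈ gs, Rl π (2 ^ 18) z) →
    ∀ c, Rl π (gs.length * (r * 2 ^ 18)) (lin r gs c) := by
  induction gs with
  | nil => exact fun _ _ => ⟨1, map_one _, rz_one.mono (Nat.zero_le _)⟩
  | cons z gs ih =>
    intro h c
    obtain ⟨u, pu, hu⟩ := h z (by simp)
    obtain ⟨v, pv, hv⟩ := ih (fun y hy => h y (by simp [hy])) (c / r)
    have e : lin r (z :: gs) c = c % r * z + lin r gs (c / r) := by
      have h1 : ∀ d a b : ℕ, (Nat.rec b (fun _ _ => a + b) d : ℕ) = if d = 0 then b else a + b := by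
        intro d; cases d <;> simp
      refine (h1 (c % r) (c % r * z) (lin r gs (c / r))).trans ?_
      split_ifs with h0
      · rw [h0, zero_mul, zero_add]
      · rfl
    refine ⟨u ^ (c % r) * v, by simp [pu, pv], e ▸ (hu.add hv _).mono ?_⟩
    have := Nat.mul_le_mul_right (2 ^ 18) (Nat.mod_lt c hr).le
    rw [List.length_cons, add_mul, one_mul, add_comm]
    exact Nat.add_le_add_left this _

lemma RZ.low {Z : ℕ} {u : F} (h : RZ Z (2 ^ 18) u) (hZ : Z < (2 ^ 45) ^ 2 ^ 11) :
    Low u ∧ ∃ f, Z = EL (oN (2 ^ 45) 11) f ∧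
      ∀ w : W, w.length = 11 → f w ≤ 2 ^ 18 ∧ (f w : ℤ) ≡ ser u w [ZMOD 2 ^ 18] := by
  obtain ⟨hu, f, e, hf⟩ := h
  rw [oN, EL] at e
  generalize ((2 : ℕ) ^ 45) ^ 2 ^ 11 = β at e hZ
  have h0 : EL (oN (2 ^ 45) 11) (fun s => f (true :: s)) = 0 := by
    by_contra hne
    exact hZ.not_ge (((Nat.le_mul_of_pos_right _ (Nat.pos_of_ne_zero hne)).trans
      (Nat.le_add_left _ _)).trans e.ge)
  rw [h0, mul_zero, add_zero] at e
  refine ⟨⟨hu, fun w h1 h2 => ?_⟩, fun s => f (false :: s), e, fun w hw => ?_⟩
  · by_cases h6 : 6 ≤ w.length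
    · have h3 : (List.replicate (10 - w.length) false ++ true :: w).length = 11 := by simp; omega
      have h4 := EL_zero (B := 2 ^ 45) (by norm_num) _ (fun s => f (true :: s)) (h3 ▸ h0)
      have h5 := (hf (true :: (List.replicate (10 - w.length) false ++ true :: w))
        (by rw [List.length_cons, h3])).2
      rw [h4, Ph, sl, sl1_rep, if_pos h6] at h5
      exact Int.modEq_zero_iff_dvd.1 h5.symm
    · rw [ser_D hu h1 (by omega)]; exact dvd_zero _
  · have := hf (false :: w) (by simp [hw])
    rwa [Ph, sl, if_pos (by omega)] at this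

/-- Leading terms of left-normed commutators without signs. -/
def ct : W → W → ℕ
  | [], _ => 0
  | [x], m => if m = [x] then 1 else 0
  | x :: y :: r, m => (if m.getLast? = some x then ct (y :: r) m.dropLast else 0) +
      if m.head? = some x then ct (y :: r) m.tail else 0

lemma ct_le : ∀ r m : W, ct r m ≤ 2 ^ r.length
  | [], _ => by simp [ct]
  | [x], m => by rw [ct]; split_ifs <;> simp
  | x :: y :: r, m => by
    have h1 := ct_le (y :: r) m.dropLast
    have h2 := ct_le (y :: r) m.tail
    rw [ct, List.length_cons, pow_succ]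
    split_ifs <;> omega

lemma ct_mod : ∀ r m : W, (2 : ℤ) ∣ ct r m - cth r m
  | [], _ => by simp [ct, cth]
  | [x], m => by rw [ct, cth]; split_ifs <;> simp
  | x :: y :: r, m => by
    have h1 := ct_mod (y :: r) m.dropLast
    have h2 := ct_mod (y :: r) m.tail
    rw [ct, cth]
    split_ifs <;> push_cast <;> omega

/-- Weight of a letter. -/
def wx (x : Bool) (b : ℕ) : ℕ := bif x then b else 1

/-- Evaluate a list before continuing. -/
noncomputable def fLN (l : List ℕ) : (List ℕ → Bool) → Bool :=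
  List.rec (fun k => k []) (fun c _ ih k => fS c fun c => ih fun l => k (c :: l)) l

lemma fLN_eq (l : List ℕ) : ∀ k, fLN l k = k l := by
  induction l with
  | nil => intro k; rfl
  | cons c l ih =>
    intro k
    change fS c (fun c => fLN l fun l => k (c :: l)) = _
    rw [fS_eq, ih]

/-- Evaluate a word before continuing. -/
noncomputable def fW (w : W) : (W → Bool) → Bool :=
  List.rec (fun k => k []) (fun x _ ih k =>
    Bool.rec (ih fun l => k (false :: l)) (ih fun l => k (true :: l)) x) w

lemma fW_eq (w : W) : ∀ k, fW w k = k w := by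
  induction w with
  | nil => intro k; rfl
  | cons x w ih => intro k; cases x <;> exact ih _

/-- Kronecker sums of the leading term in all windows. -/
def tF (o : List ℕ) : W → List ℕ
  | [] => []
  | [x] => o.map (wx x)
  | x :: y :: r => (List.range (10 - r.length)).map fun i =>
      (tF o (y :: r)).getD i 0 * wx x (o.getD (i + (r.length + 1)) 0) +
        wx x (o.getD i 0) * (tF o (y :: r)).getD (i + 1) 0

lemma tF_sound {o : List ℕ} (ho : o.length = 11) : ∀ (r : W) (i : ℕ), i + r.length ≤ 11 →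
    (tF o r).getD i 0 = EL ((o.drop i).take r.length) (ct r)
  | [], _, _ => by simp [tF, EL, ct]
  | [x], i, hi => by
      have h1 : i < o.length := by simp at hi; omega
      rw [List.drop_eq_getElem_cons h1, List.length_singleton, List.take_succ_cons, List.take_zero]
      cases x <;> simp [tF, EL, ct, wx, h1, -List.getElem_cons_drop]
  | x :: y :: r, i, hi => by
    have ht := tF_sound ho (y :: r)
    rw [tF]
    generalize tF o (y :: r) = t at ht ⊢
    simp only [List.length_cons] at hi ht ⊢
    have h1 : i < o.length := by omega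
    have h2 : r.length + 1 < (o.drop i).length := by simp; omega
    have h5 : i + (r.length + 1) < o.length := by omega
    have e := EL_lin 1 ((o.drop i).take (r.length + 1 + 1))
      (fun m => if m.head? = some x then ct (y :: r) m.tail else 0)
      fun m => if m.getLast? = some x then ct (y :: r) m.dropLast else 0
    simp only [one_mul] at e
    have e1 : EL ((o.drop i).take (r.length + 1 + 1))
        (fun m => if m.getLast? = some x then ct (y :: r) m.dropLast else 0) =
        t.getD i 0 * wx x o[i + (r.length + 1)] := by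
      rw [List.take_add_one, List.getElem?_eq_getElem h2, Option.toList_some, EL_snoc,
        ht i (by omega)]
      cases x <;> simp [wx, EL_0, mul_comm]
    have e2 : EL ((o.drop i).take (r.length + 1 + 1))
        (fun m => if m.head? = some x then ct (y :: r) m.tail else 0) =
        wx x o[i] * t.getD (i + 1) 0 := by
      rw [List.drop_eq_getElem_cons h1, List.take_succ_cons, EL, ht (i + 1) (by omega)]
      cases x <;> simp [wx, EL_0]
    rw [show ct (x :: y :: r) = _ from funext fun m => ct.eq_3 m x y r, e, e1, e2]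
    simp [show i < 10 - r.length by omega, h1, h5]

end Pool.Agent.Lib.MP_3b0e0c_al.Y
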