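import Pool.Agent.Lib.MP_3b0e0c_al.Y.Kron
import Mathlib.Tactic.IntervalCases

/-! Explicit products of triangular matrices of size twelve. -/

namespace Pool.Agent.Lib.MP_3b0e0c_al.Y

open Finset

set_option linter.unusedVariables false
set_option linter.unusedSimpArgs false

/-- The entries above the diagonal. -/
structure MX where
  (e0_1 e0_2 e0_3 e0_4 e0_5 e0_6 e0_7 e0_8 e0_9 e0_10 e0_11 e1_1 e1_2 e1_3 e1_4 e1_5 e1_6 e1_7 e1_8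
   e1_9 e1_10 e2_1 e2_2 e2_3 e2_4 e2_5 e2_6 e2_7 e2_8 e2_9 e3_1 e3_2 e3_3 e3_4 e3_5 e3_6 e3_7 e3_8
   e4_1 e4_2 e4_3 e4_4 e4_5 e4_6 e4_7 e5_1 e5_2 e5_3 e5_4 e5_5 e5_6 e6_1 e6_2 e6_3 e6_4 e6_5 e7_1
   e7_2 e7_3 e7_4 e8_1 e8_2 e8_3 e9_1 e9_2 e10_1 : ℕ)

/-- The rows of the matrix with diagonal `d`. -/
def MX.rows (d : ℕ) (m : MX) : List (List ℕ) := [
  [d, m.e0_1, m.e0_2, m.e0_3, m.e0_4, m.e0_5, m.e0_6, m.e0_7, m.e0_8, m.e0_9, m.e0_10, m.e0_11],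
  [d, m.e1_1, m.e1_2, m.e1_3, m.e1_4, m.e1_5, m.e1_6, m.e1_7, m.e1_8, m.e1_9, m.e1_10],
  [d, m.e2_1, m.e2_2, m.e2_3, m.e2_4, m.e2_5, m.e2_6, m.e2_7, m.e2_8, m.e2_9],
  [d, m.e3_1, m.e3_2, m.e3_3, m.e3_4, m.e3_5, m.e3_6, m.e3_7, m.e3_8],
  [d, m.e4_1, m.e4_2, m.e4_3, m.e4_4, m.e4_5, m.e4_6, m.e4_7],
  [d, m.e5_1, m.e5_2, m.e5_3, m.e5_4, m.e5_5, m.e5_6],
  [d, m.e6_1, m.e6_2, m.e6_3, m.e6_4, m.e6_5],
  [d, m.e7_1, m.e7_2, m.e7_3, m.e7_4],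
  [d, m.e8_1, m.e8_2, m.e8_3],
  [d, m.e9_1, m.e9_2],
  [d, m.e10_1],
  [d]]

/-- An entry of the matrix with diagonal `d`. -/
def MX.at (d : ℕ) (m : MX) (i k : ℕ) : ℕ := ((m.rows d).getD i []).getD k 0

/-- The matrix with given entries. -/
def MX.of (g : ℕ → ℕ → ℕ) : MX := ⟨
  g 0 1, g 0 2, g 0 3, g 0 4, g 0 5, g 0 6, g 0 7, g 0 8, g 0 9, g 0 10, g 0 11, g 1 1, g 1 2,
  g 1 3, g 1 4, g 1 5, g 1 6, g 1 7, g 1 8, g 1 9, g 1 10, g 2 1, g 2 2, g 2 3, g 2 4, g 2 5,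
  g 2 6, g 2 7, g 2 8, g 2 9, g 3 1, g 3 2, g 3 3, g 3 4, g 3 5, g 3 6, g 3 7, g 3 8, g 4 1, g 4 2,
  g 4 3, g 4 4, g 4 5, g 4 6, g 4 7, g 5 1, g 5 2, g 5 3, g 5 4, g 5 5, g 5 6, g 6 1, g 6 2, g 6 3,
  g 6 4, g 6 5, g 7 1, g 7 2, g 7 3, g 7 4, g 8 1, g 8 2, g 8 3, g 9 1, g 9 2, g 10 1⟩

/-- Evaluate all entries before continuing. -/
noncomputable def frc (k : MX → Bool)
    (e0_1 e0_2 e0_3 e0_4 e0_5 e0_6 e0_7 e0_8 e0_9 e0_10 e0_11 e1_1 e1_2 e1_3 e1_4 e1_5 e1_6 e1_7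
     e1_8 e1_9 e1_10 e2_1 e2_2 e2_3 e2_4 e2_5 e2_6 e2_7 e2_8 e2_9 e3_1 e3_2 e3_3 e3_4 e3_5 e3_6
     e3_7 e3_8 e4_1 e4_2 e4_3 e4_4 e4_5 e4_6 e4_7 e5_1 e5_2 e5_3 e5_4 e5_5 e5_6 e6_1 e6_2 e6_3 e6_4
     e6_5 e7_1 e7_2 e7_3 e7_4 e8_1 e8_2 e8_3 e9_1 e9_2 e10_1 : ℕ) : Bool :=
  (fun r : Bool => Bool.rec r r (Nat.ble (
    (Nat.land e0_1 1).add <| (Nat.land e0_2 1).add <| (Nat.land e0_3 1).add <|
    (Nat.land e0_4 1).add <| (Nat.land e0_5 1).add <| (Nat.land e0_6 1).add <|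
    (Nat.land e0_7 1).add <| (Nat.land e0_8 1).add <| (Nat.land e0_9 1).add <|
    (Nat.land e0_10 1).add <| (Nat.land e0_11 1).add <| (Nat.land e1_1 1).add <|
    (Nat.land e1_2 1).add <| (Nat.land e1_3 1).add <| (Nat.land e1_4 1).add <|
    (Nat.land e1_5 1).add <| (Nat.land e1_6 1).add <| (Nat.land e1_7 1).add <|
    (Nat.land e1_8 1).add <| (Nat.land e1_9 1).add <| (Nat.land e1_10 1).add <|
    (Nat.land e2_1 1).add <| (Nat.land e2_2 1).add <| (Nat.land e2_3 1).add <|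
    (Nat.land e2_4 1).add <| (Nat.land e2_5 1).add <| (Nat.land e2_6 1).add <|
    (Nat.land e2_7 1).add <| (Nat.land e2_8 1).add <| (Nat.land e2_9 1).add <|
    (Nat.land e3_1 1).add <| (Nat.land e3_2 1).add <| (Nat.land e3_3 1).add <|
    (Nat.land e3_4 1).add <| (Nat.land e3_5 1).add <| (Nat.land e3_6 1).add <|
    (Nat.land e3_7 1).add <| (Nat.land e3_8 1).add <| (Nat.land e4_1 1).add <|
    (Nat.land e4_2 1).add <| (Nat.land e4_3 1).add <| (Nat.land e4_4 1).add <|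
    (Nat.land e4_5 1).add <| (Nat.land e4_6 1).add <| (Nat.land e4_7 1).add <|
    (Nat.land e5_1 1).add <| (Nat.land e5_2 1).add <| (Nat.land e5_3 1).add <|
    (Nat.land e5_4 1).add <| (Nat.land e5_5 1).add <| (Nat.land e5_6 1).add <|
    (Nat.land e6_1 1).add <| (Nat.land e6_2 1).add <| (Nat.land e6_3 1).add <|
    (Nat.land e6_4 1).add <| (Nat.land e6_5 1).add <| (Nat.land e7_1 1).add <|
    (Nat.land e7_2 1).add <| (Nat.land e7_3 1).add <| (Nat.land e7_4 1).add <|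
    (Nat.land e8_1 1).add <| (Nat.land e8_2 1).add <| (Nat.land e8_3 1).add <|
    (Nat.land e9_1 1).add <| (Nat.land e9_2 1).add <| (Nat.land e10_1 1).add <| 0) 0))
    (k ⟨e0_1, e0_2, e0_3, e0_4, e0_5, e0_6, e0_7, e0_8, e0_9, e0_10, e0_11, e1_1, e1_2, e1_3, e1_4,
      e1_5, e1_6, e1_7, e1_8, e1_9, e1_10, e2_1, e2_2, e2_3, e2_4, e2_5, e2_6, e2_7, e2_8, e2_9,
      e3_1, e3_2, e3_3, e3_4, e3_5, e3_6, e3_7, e3_8, e4_1, e4_2, e4_3, e4_4, e4_5, e4_6, e4_7,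
      e5_1, e5_2, e5_3, e5_4, e5_5, e5_6, e6_1, e6_2, e6_3, e6_4, e6_5, e7_1, e7_2, e7_3, e7_4,
      e8_1, e8_2, e8_3, e9_1, e9_2, e10_1⟩)

lemma frc_eq (k : MX → Bool)
    (e0_1 e0_2 e0_3 e0_4 e0_5 e0_6 e0_7 e0_8 e0_9 e0_10 e0_11 e1_1 e1_2 e1_3 e1_4 e1_5 e1_6 e1_7
     e1_8 e1_9 e1_10 e2_1 e2_2 e2_3 e2_4 e2_5 e2_6 e2_7 e2_8 e2_9 e3_1 e3_2 e3_3 e3_4 e3_5 e3_6
     e3_7 e3_8 e4_1 e4_2 e4_3 e4_4 e4_5 e4_6 e4_7 e5_1 e5_2 e5_3 e5_4 e5_5 e5_6 e6_1 e6_2 e6_3 e6_4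
     e6_5 e7_1 e7_2 e7_3 e7_4 e8_1 e8_2 e8_3 e9_1 e9_2 e10_1 : ℕ) :
    frc k e0_1 e0_2 e0_3 e0_4 e0_5 e0_6 e0_7 e0_8 e0_9 e0_10 e0_11 e1_1 e1_2 e1_3 e1_4 e1_5 e1_6 e1_7
      e1_8 e1_9 e1_10 e2_1 e2_2 e2_3 e2_4 e2_5 e2_6 e2_7 e2_8 e2_9 e3_1 e3_2 e3_3 e3_4 e3_5 e3_6
      e3_7 e3_8 e4_1 e4_2 e4_3 e4_4 e4_5 e4_6 e4_7 e5_1 e5_2 e5_3 e5_4 e5_5 e5_6 e6_1 e6_2 e6_3
      e6_4 e6_5 e7_1 e7_2 e7_3 e7_4 e8_1 e8_2 e8_3 e9_1 e9_2 e10_1 =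
    k ⟨e0_1, e0_2, e0_3, e0_4, e0_5, e0_6, e0_7, e0_8, e0_9, e0_10, e0_11, e1_1, e1_2, e1_3, e1_4,
      e1_5, e1_6, e1_7, e1_8, e1_9, e1_10, e2_1, e2_2, e2_3, e2_4, e2_5, e2_6, e2_7, e2_8, e2_9,
      e3_1, e3_2, e3_3, e3_4, e3_5, e3_6, e3_7, e3_8, e4_1, e4_2, e4_3, e4_4, e4_5, e4_6, e4_7,
      e5_1, e5_2, e5_3, e5_4, e5_5, e5_6, e6_1, e6_2, e6_3, e6_4, e6_5, e7_1, e7_2, e7_3, e7_4,
      e8_1, e8_2, e8_3, e9_1, e9_2, e10_1⟩ := by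
  unfold frc
  beta_reduce
  generalize Nat.ble _ 0 = b
  cases b <;> rfl

/-- Product of two matrices with diagonal one. -/
noncomputable def mx0 (μ : ℕ) (a b : MX) (k : MX → Bool) : Bool :=
  MX.rec (fun a0_1 a0_2 a0_3 a0_4 a0_5 a0_6 a0_7 a0_8 a0_9 a0_10 a0_11 a1_1 a1_2 a1_3 a1_4 a1_5 a1_6 a1_7
      a1_8 a1_9 a1_10 a2_1 a2_2 a2_3 a2_4 a2_5 a2_6 a2_7 a2_8 a2_9 a3_1 a3_2 a3_3 a3_4 a3_5 a3_6
      a3_7 a3_8 a4_1 a4_2 a4_3 a4_4 a4_5 a4_6 a4_7 a5_1 a5_2 a5_3 a5_4 a5_5 a5_6 a6_1 a6_2 a6_3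
      a6_4 a6_5 a7_1 a7_2 a7_3 a7_4 a8_1 a8_2 a8_3 a9_1 a9_2 a10_1 =>
    MX.rec (fun b0_1 b0_2 b0_3 b0_4 b0_5 b0_6 b0_7 b0_8 b0_9 b0_10 b0_11 b1_1 b1_2 b1_3 b1_4 b1_5 b1_6 b1_7
      b1_8 b1_9 b1_10 b2_1 b2_2 b2_3 b2_4 b2_5 b2_6 b2_7 b2_8 b2_9 b3_1 b3_2 b3_3 b3_4 b3_5 b3_6
      b3_7 b3_8 b4_1 b4_2 b4_3 b4_4 b4_5 b4_6 b4_7 b5_1 b5_2 b5_3 b5_4 b5_5 b5_6 b6_1 b6_2 b6_3
      b6_4 b6_5 b7_1 b7_2 b7_3 b7_4 b8_1 b8_2 b8_3 b9_1 b9_2 b10_1 =>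
    frc k
      (Nat.land (a0_1.add b0_1) μ)
      (Nat.land (((a0_1.mul b1_1).add a0_2).add b0_2) μ)
      (Nat.land ((((a0_1.mul b1_2).add (a0_2.mul b2_1)).add a0_3).add b0_3) μ)
      (Nat.land (((((a0_1.mul b1_3).add (a0_3.mul b3_1)).add (a0_2.mul b2_2)).add a0_4).add b0_4) μ)
      (Nat.land ((((((a0_1.mul b1_4).add (a0_4.mul b4_1)).add (a0_2.mul b2_3)).add (a0_3.mul
        b3_2)).add a0_5).add b0_5) μ)
      (Nat.land (((((((a0_1.mul b1_5).add (a0_5.mul b5_1)).add (a0_2.mul b2_4)).add (a0_4.mul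
        b4_2)).add (a0_3.mul b3_3)).add a0_6).add b0_6) μ)
      (Nat.land ((((((((a0_1.mul b1_6).add (a0_6.mul b6_1)).add (a0_2.mul b2_5)).add (a0_5.mul
        b5_2)).add (a0_3.mul b3_4)).add (a0_4.mul b4_3)).add a0_7).add b0_7) μ)
      (Nat.land (((((((((a0_1.mul b1_7).add (a0_7.mul b7_1)).add (a0_2.mul b2_6)).add (a0_6.mul
        b6_2)).add (a0_3.mul b3_5)).add (a0_5.mul b5_3)).add (a0_4.mul b4_4)).add a0_8).add b0_8) μ)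
      (Nat.land ((((((((((a0_1.mul b1_8).add (a0_8.mul b8_1)).add (a0_2.mul b2_7)).add (a0_7.mul
        b7_2)).add (a0_3.mul b3_6)).add (a0_6.mul b6_3)).add (a0_4.mul b4_5)).add (a0_5.mul
        b5_4)).add a0_9).add b0_9) μ)
      (Nat.land (((((((((((a0_1.mul b1_9).add (a0_9.mul b9_1)).add (a0_2.mul b2_8)).add (a0_8.mul
        b8_2)).add (a0_3.mul b3_7)).add (a0_7.mul b7_3)).add (a0_4.mul b4_6)).add (a0_6.mul
        b6_4)).add (a0_5.mul b5_5)).add a0_10).add b0_10) μ)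
      (Nat.land ((((((((((((a0_1.mul b1_10).add (a0_10.mul b10_1)).add (a0_2.mul b2_9)).add
        (a0_9.mul b9_2)).add (a0_3.mul b3_8)).add (a0_8.mul b8_3)).add (a0_4.mul b4_7)).add
        (a0_7.mul b7_4)).add (a0_5.mul b5_6)).add (a0_6.mul b6_5)).add a0_11).add b0_11) μ)
      (Nat.land (a1_1.add b1_1) μ)
      (Nat.land (((a1_1.mul b2_1).add a1_2).add b1_2) μ)
      (Nat.land ((((a1_1.mul b2_2).add (a1_2.mul b3_1)).add a1_3).add b1_3) μ)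
      (Nat.land (((((a1_1.mul b2_3).add (a1_3.mul b4_1)).add (a1_2.mul b3_2)).add a1_4).add b1_4) μ)
      (Nat.land ((((((a1_1.mul b2_4).add (a1_4.mul b5_1)).add (a1_2.mul b3_3)).add (a1_3.mul
        b4_2)).add a1_5).add b1_5) μ)
      (Nat.land (((((((a1_1.mul b2_5).add (a1_5.mul b6_1)).add (a1_2.mul b3_4)).add (a1_4.mul
        b5_2)).add (a1_3.mul b4_3)).add a1_6).add b1_6) μ)
      (Nat.land ((((((((a1_1.mul b2_6).add (a1_6.mul b7_1)).add (a1_2.mul b3_5)).add (a1_5.mul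
        b6_2)).add (a1_3.mul b4_4)).add (a1_4.mul b5_3)).add a1_7).add b1_7) μ)
      (Nat.land (((((((((a1_1.mul b2_7).add (a1_7.mul b8_1)).add (a1_2.mul b3_6)).add (a1_6.mul
        b7_2)).add (a1_3.mul b4_5)).add (a1_5.mul b6_3)).add (a1_4.mul b5_4)).add a1_8).add b1_8) μ)
      (Nat.land ((((((((((a1_1.mul b2_8).add (a1_8.mul b9_1)).add (a1_2.mul b3_7)).add (a1_7.mul
        b8_2)).add (a1_3.mul b4_6)).add (a1_6.mul b7_3)).add (a1_4.mul b5_5)).add (a1_5.mul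
        b6_4)).add a1_9).add b1_9) μ)
      (Nat.land (((((((((((a1_1.mul b2_9).add (a1_9.mul b10_1)).add (a1_2.mul b3_8)).add (a1_8.mul
        b9_2)).add (a1_3.mul b4_7)).add (a1_7.mul b8_3)).add (a1_4.mul b5_6)).add (a1_6.mul
        b7_4)).add (a1_5.mul b6_5)).add a1_10).add b1_10) μ)
      (Nat.land (a2_1.add b2_1) μ)
      (Nat.land (((a2_1.mul b3_1).add a2_2).add b2_2) μ)
      (Nat.land ((((a2_1.mul b3_2).add (a2_2.mul b4_1)).add a2_3).add b2_3) μ)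
      (Nat.land (((((a2_1.mul b3_3).add (a2_3.mul b5_1)).add (a2_2.mul b4_2)).add a2_4).add b2_4) μ)
      (Nat.land ((((((a2_1.mul b3_4).add (a2_4.mul b6_1)).add (a2_2.mul b4_3)).add (a2_3.mul
        b5_2)).add a2_5).add b2_5) μ)
      (Nat.land (((((((a2_1.mul b3_5).add (a2_5.mul b7_1)).add (a2_2.mul b4_4)).add (a2_4.mul
        b6_2)).add (a2_3.mul b5_3)).add a2_6).add b2_6) μ)
      (Nat.land ((((((((a2_1.mul b3_6).add (a2_6.mul b8_1)).add (a2_2.mul b4_5)).add (a2_5.mul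
        b7_2)).add (a2_3.mul b5_4)).add (a2_4.mul b6_3)).add a2_7).add b2_7) μ)
      (Nat.land (((((((((a2_1.mul b3_7).add (a2_7.mul b9_1)).add (a2_2.mul b4_6)).add (a2_6.mul
        b8_2)).add (a2_3.mul b5_5)).add (a2_5.mul b7_3)).add (a2_4.mul b6_4)).add a2_8).add b2_8) μ)
      (Nat.land ((((((((((a2_1.mul b3_8).add (a2_8.mul b10_1)).add (a2_2.mul b4_7)).add (a2_7.mul
        b9_2)).add (a2_3.mul b5_6)).add (a2_6.mul b8_3)).add (a2_4.mul b6_5)).add (a2_5.mul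
        b7_4)).add a2_9).add b2_9) μ)
      (Nat.land (a3_1.add b3_1) μ)
      (Nat.land (((a3_1.mul b4_1).add a3_2).add b3_2) μ)
      (Nat.land ((((a3_1.mul b4_2).add (a3_2.mul b5_1)).add a3_3).add b3_3) μ)
      (Nat.land (((((a3_1.mul b4_3).add (a3_3.mul b6_1)).add (a3_2.mul b5_2)).add a3_4).add b3_4) μ)
      (Nat.land ((((((a3_1.mul b4_4).add (a3_4.mul b7_1)).add (a3_2.mul b5_3)).add (a3_3.mul
        b6_2)).add a3_5).add b3_5) μ)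
      (Nat.land (((((((a3_1.mul b4_5).add (a3_5.mul b8_1)).add (a3_2.mul b5_4)).add (a3_4.mul
        b7_2)).add (a3_3.mul b6_3)).add a3_6).add b3_6) μ)
      (Nat.land ((((((((a3_1.mul b4_6).add (a3_6.mul b9_1)).add (a3_2.mul b5_5)).add (a3_5.mul
        b8_2)).add (a3_3.mul b6_4)).add (a3_4.mul b7_3)).add a3_7).add b3_7) μ)
      (Nat.land (((((((((a3_1.mul b4_7).add (a3_7.mul b10_1)).add (a3_2.mul b5_6)).add (a3_6.mul
        b9_2)).add (a3_3.mul b6_5)).add (a3_5.mul b8_3)).add (a3_4.mul b7_4)).add a3_8).add b3_8) μ)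
      (Nat.land (a4_1.add b4_1) μ)
      (Nat.land (((a4_1.mul b5_1).add a4_2).add b4_2) μ)
      (Nat.land ((((a4_1.mul b5_2).add (a4_2.mul b6_1)).add a4_3).add b4_3) μ)
      (Nat.land (((((a4_1.mul b5_3).add (a4_3.mul b7_1)).add (a4_2.mul b6_2)).add a4_4).add b4_4) μ)
      (Nat.land ((((((a4_1.mul b5_4).add (a4_4.mul b8_1)).add (a4_2.mul b6_3)).add (a4_3.mul
        b7_2)).add a4_5).add b4_5) μ)
      (Nat.land (((((((a4_1.mul b5_5).add (a4_5.mul b9_1)).add (a4_2.mul b6_4)).add (a4_4.mul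
        b8_2)).add (a4_3.mul b7_3)).add a4_6).add b4_6) μ)
      (Nat.land ((((((((a4_1.mul b5_6).add (a4_6.mul b10_1)).add (a4_2.mul b6_5)).add (a4_5.mul
        b9_2)).add (a4_3.mul b7_4)).add (a4_4.mul b8_3)).add a4_7).add b4_7) μ)
      (Nat.land (a5_1.add b5_1) μ)
      (Nat.land (((a5_1.mul b6_1).add a5_2).add b5_2) μ)
      (Nat.land ((((a5_1.mul b6_2).add (a5_2.mul b7_1)).add a5_3).add b5_3) μ)
      (Nat.land (((((a5_1.mul b6_3).add (a5_3.mul b8_1)).add (a5_2.mul b7_2)).add a5_4).add b5_4) μ)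
      (Nat.land ((((((a5_1.mul b6_4).add (a5_4.mul b9_1)).add (a5_2.mul b7_3)).add (a5_3.mul
        b8_2)).add a5_5).add b5_5) μ)
      (Nat.land (((((((a5_1.mul b6_5).add (a5_5.mul b10_1)).add (a5_2.mul b7_4)).add (a5_4.mul
        b9_2)).add (a5_3.mul b8_3)).add a5_6).add b5_6) μ)
      (Nat.land (a6_1.add b6_1) μ)
      (Nat.land (((a6_1.mul b7_1).add a6_2).add b6_2) μ)
      (Nat.land ((((a6_1.mul b7_2).add (a6_2.mul b8_1)).add a6_3).add b6_3) μ)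
      (Nat.land (((((a6_1.mul b7_3).add (a6_3.mul b9_1)).add (a6_2.mul b8_2)).add a6_4).add b6_4) μ)
      (Nat.land ((((((a6_1.mul b7_4).add (a6_4.mul b10_1)).add (a6_2.mul b8_3)).add (a6_3.mul
        b9_2)).add a6_5).add b6_5) μ)
      (Nat.land (a7_1.add b7_1) μ)
      (Nat.land (((a7_1.mul b8_1).add a7_2).add b7_2) μ)
      (Nat.land ((((a7_1.mul b8_2).add (a7_2.mul b9_1)).add a7_3).add b7_3) μ)
      (Nat.land (((((a7_1.mul b8_3).add (a7_3.mul b10_1)).add (a7_2.mul b9_2)).add a7_4).add b7_4)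
        μ)
      (Nat.land (a8_1.add b8_1) μ)
      (Nat.land (((a8_1.mul b9_1).add a8_2).add b8_2) μ)
      (Nat.land ((((a8_1.mul b9_2).add (a8_2.mul b10_1)).add a8_3).add b8_3) μ)
      (Nat.land (a9_1.add b9_1) μ)
      (Nat.land (((a9_1.mul b10_1).add a9_2).add b9_2) μ)
      (Nat.land (a10_1.add b10_1) μ)) b) a

lemma mx0_ok {μ : ℕ} (h : 1 &&& μ = 1) (a b : MX) (k : MX → Bool) (ok : mx0 μ a b k = true) :
    ∃ m, k m = true ∧ ∀ i n, i + n ≤ 11 → m.at 1 i n =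
      (∑ j ∈ range (n + 1), a.at 1 i j * b.at 1 (i + j) (n - j)) &&& μ := by
  cases a
  cases b
  dsimp only [mx0] at ok
  rw [frc_eq] at ok
  refine ⟨_, ok, fun i n hi => ?_⟩
  clear ok
  have h1 : i ≤ 11 := by omega
  have h2 : n ≤ 11 := by omega
  interval_cases i <;> interval_cases n <;> first
    | omega
    | (simp only [sum_range_succ, sum_range_zero, MX.at, MX.rows, Nat.reduceAdd, Nat.reduceSub,
        List.getD_cons_zero, List.getD_cons_succ, Nat.add_eq, Nat.mul_eq, Nat.land_eq, zero_add,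
        add_zero, one_mul, mul_one, zero_mul, mul_zero, h, Nat.zero_and] <;> congr 1 <;> ring)

/-- Product of matrices with diagonals zero and one. -/
noncomputable def mx1 (μ : ℕ) (a b : MX) (k : MX → Bool) : Bool :=
  MX.rec (fun a0_1 a0_2 a0_3 a0_4 a0_5 a0_6 a0_7 a0_8 a0_9 a0_10 a0_11 a1_1 a1_2 a1_3 a1_4 a1_5 a1_6 a1_7
      a1_8 a1_9 a1_10 a2_1 a2_2 a2_3 a2_4 a2_5 a2_6 a2_7 a2_8 a2_9 a3_1 a3_2 a3_3 a3_4 a3_5 a3_6
      a3_7 a3_8 a4_1 a4_2 a4_3 a4_4 a4_5 a4_6 a4_7 a5_1 a5_2 a5_3 a5_4 a5_5 a5_6 a6_1 a6_2 a6_3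
      a6_4 a6_5 a7_1 a7_2 a7_3 a7_4 a8_1 a8_2 a8_3 a9_1 a9_2 a10_1 =>
    MX.rec (fun b0_1 b0_2 b0_3 b0_4 b0_5 b0_6 b0_7 b0_8 b0_9 b0_10 b0_11 b1_1 b1_2 b1_3 b1_4 b1_5 b1_6 b1_7
      b1_8 b1_9 b1_10 b2_1 b2_2 b2_3 b2_4 b2_5 b2_6 b2_7 b2_8 b2_9 b3_1 b3_2 b3_3 b3_4 b3_5 b3_6
      b3_7 b3_8 b4_1 b4_2 b4_3 b4_4 b4_5 b4_6 b4_7 b5_1 b5_2 b5_3 b5_4 b5_5 b5_6 b6_1 b6_2 b6_3
      b6_4 b6_5 b7_1 b7_2 b7_3 b7_4 b8_1 b8_2 b8_3 b9_1 b9_2 b10_1 =>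
    frc k
      (Nat.land a0_1 μ)
      (Nat.land ((a0_1.mul b1_1).add a0_2) μ)
      (Nat.land (((a0_1.mul b1_2).add (a0_2.mul b2_1)).add a0_3) μ)
      (Nat.land ((((a0_1.mul b1_3).add (a0_2.mul b2_2)).add (a0_3.mul b3_1)).add a0_4) μ)
      (Nat.land (((((a0_1.mul b1_4).add (a0_2.mul b2_3)).add (a0_3.mul b3_2)).add (a0_4.mul
        b4_1)).add a0_5) μ)
      (Nat.land ((((((a0_1.mul b1_5).add (a0_2.mul b2_4)).add (a0_3.mul b3_3)).add (a0_4.mul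
        b4_2)).add (a0_5.mul b5_1)).add a0_6) μ)
      (Nat.land (((((((a0_1.mul b1_6).add (a0_2.mul b2_5)).add (a0_3.mul b3_4)).add (a0_4.mul
        b4_3)).add (a0_5.mul b5_2)).add (a0_6.mul b6_1)).add a0_7) μ)
      (Nat.land ((((((((a0_1.mul b1_7).add (a0_2.mul b2_6)).add (a0_3.mul b3_5)).add (a0_4.mul
        b4_4)).add (a0_5.mul b5_3)).add (a0_6.mul b6_2)).add (a0_7.mul b7_1)).add a0_8) μ)
      (Nat.land (((((((((a0_1.mul b1_8).add (a0_2.mul b2_7)).add (a0_3.mul b3_6)).add (a0_4.mul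
        b4_5)).add (a0_5.mul b5_4)).add (a0_6.mul b6_3)).add (a0_7.mul b7_2)).add (a0_8.mul
        b8_1)).add a0_9) μ)
      (Nat.land ((((((((((a0_1.mul b1_9).add (a0_2.mul b2_8)).add (a0_3.mul b3_7)).add (a0_4.mul
        b4_6)).add (a0_5.mul b5_5)).add (a0_6.mul b6_4)).add (a0_7.mul b7_3)).add (a0_8.mul
        b8_2)).add (a0_9.mul b9_1)).add a0_10) μ)
      (Nat.land (((((((((((a0_1.mul b1_10).add (a0_2.mul b2_9)).add (a0_3.mul b3_8)).add (a0_4.mul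
        b4_7)).add (a0_5.mul b5_6)).add (a0_6.mul b6_5)).add (a0_7.mul b7_4)).add (a0_8.mul
        b8_3)).add (a0_9.mul b9_2)).add (a0_10.mul b10_1)).add a0_11) μ)
      (Nat.land a1_1 μ)
      (Nat.land ((a1_1.mul b2_1).add a1_2) μ)
      (Nat.land (((a1_1.mul b2_2).add (a1_2.mul b3_1)).add a1_3) μ)
      (Nat.land ((((a1_1.mul b2_3).add (a1_2.mul b3_2)).add (a1_3.mul b4_1)).add a1_4) μ)
      (Nat.land (((((a1_1.mul b2_4).add (a1_2.mul b3_3)).add (a1_3.mul b4_2)).add (a1_4.mul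
        b5_1)).add a1_5) μ)
      (Nat.land ((((((a1_1.mul b2_5).add (a1_2.mul b3_4)).add (a1_3.mul b4_3)).add (a1_4.mul
        b5_2)).add (a1_5.mul b6_1)).add a1_6) μ)
      (Nat.land (((((((a1_1.mul b2_6).add (a1_2.mul b3_5)).add (a1_3.mul b4_4)).add (a1_4.mul
        b5_3)).add (a1_5.mul b6_2)).add (a1_6.mul b7_1)).add a1_7) μ)
      (Nat.land ((((((((a1_1.mul b2_7).add (a1_2.mul b3_6)).add (a1_3.mul b4_5)).add (a1_4.mul
        b5_4)).add (a1_5.mul b6_3)).add (a1_6.mul b7_2)).add (a1_7.mul b8_1)).add a1_8) μ)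
      (Nat.land (((((((((a1_1.mul b2_8).add (a1_2.mul b3_7)).add (a1_3.mul b4_6)).add (a1_4.mul
        b5_5)).add (a1_5.mul b6_4)).add (a1_6.mul b7_3)).add (a1_7.mul b8_2)).add (a1_8.mul
        b9_1)).add a1_9) μ)
      (Nat.land ((((((((((a1_1.mul b2_9).add (a1_2.mul b3_8)).add (a1_3.mul b4_7)).add (a1_4.mul
        b5_6)).add (a1_5.mul b6_5)).add (a1_6.mul b7_4)).add (a1_7.mul b8_3)).add (a1_8.mul
        b9_2)).add (a1_9.mul b10_1)).add a1_10) μ)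
      (Nat.land a2_1 μ)
      (Nat.land ((a2_1.mul b3_1).add a2_2) μ)
      (Nat.land (((a2_1.mul b3_2).add (a2_2.mul b4_1)).add a2_3) μ)
      (Nat.land ((((a2_1.mul b3_3).add (a2_2.mul b4_2)).add (a2_3.mul b5_1)).add a2_4) μ)
      (Nat.land (((((a2_1.mul b3_4).add (a2_2.mul b4_3)).add (a2_3.mul b5_2)).add (a2_4.mul
        b6_1)).add a2_5) μ)
      (Nat.land ((((((a2_1.mul b3_5).add (a2_2.mul b4_4)).add (a2_3.mul b5_3)).add (a2_4.mul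
        b6_2)).add (a2_5.mul b7_1)).add a2_6) μ)
      (Nat.land (((((((a2_1.mul b3_6).add (a2_2.mul b4_5)).add (a2_3.mul b5_4)).add (a2_4.mul
        b6_3)).add (a2_5.mul b7_2)).add (a2_6.mul b8_1)).add a2_7) μ)
      (Nat.land ((((((((a2_1.mul b3_7).add (a2_2.mul b4_6)).add (a2_3.mul b5_5)).add (a2_4.mul
        b6_4)).add (a2_5.mul b7_3)).add (a2_6.mul b8_2)).add (a2_7.mul b9_1)).add a2_8) μ)
      (Nat.land (((((((((a2_1.mul b3_8).add (a2_2.mul b4_7)).add (a2_3.mul b5_6)).add (a2_4.mul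
        b6_5)).add (a2_5.mul b7_4)).add (a2_6.mul b8_3)).add (a2_7.mul b9_2)).add (a2_8.mul
        b10_1)).add a2_9) μ)
      (Nat.land a3_1 μ)
      (Nat.land ((a3_1.mul b4_1).add a3_2) μ)
      (Nat.land (((a3_1.mul b4_2).add (a3_2.mul b5_1)).add a3_3) μ)
      (Nat.land ((((a3_1.mul b4_3).add (a3_2.mul b5_2)).add (a3_3.mul b6_1)).add a3_4) μ)
      (Nat.land (((((a3_1.mul b4_4).add (a3_2.mul b5_3)).add (a3_3.mul b6_2)).add (a3_4.mul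
        b7_1)).add a3_5) μ)
      (Nat.land ((((((a3_1.mul b4_5).add (a3_2.mul b5_4)).add (a3_3.mul b6_3)).add (a3_4.mul
        b7_2)).add (a3_5.mul b8_1)).add a3_6) μ)
      (Nat.land (((((((a3_1.mul b4_6).add (a3_2.mul b5_5)).add (a3_3.mul b6_4)).add (a3_4.mul
        b7_3)).add (a3_5.mul b8_2)).add (a3_6.mul b9_1)).add a3_7) μ)
      (Nat.land ((((((((a3_1.mul b4_7).add (a3_2.mul b5_6)).add (a3_3.mul b6_5)).add (a3_4.mul
        b7_4)).add (a3_5.mul b8_3)).add (a3_6.mul b9_2)).add (a3_7.mul b10_1)).add a3_8) μ)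
      (Nat.land a4_1 μ)
      (Nat.land ((a4_1.mul b5_1).add a4_2) μ)
      (Nat.land (((a4_1.mul b5_2).add (a4_2.mul b6_1)).add a4_3) μ)
      (Nat.land ((((a4_1.mul b5_3).add (a4_2.mul b6_2)).add (a4_3.mul b7_1)).add a4_4) μ)
      (Nat.land (((((a4_1.mul b5_4).add (a4_2.mul b6_3)).add (a4_3.mul b7_2)).add (a4_4.mul
        b8_1)).add a4_5) μ)
      (Nat.land ((((((a4_1.mul b5_5).add (a4_2.mul b6_4)).add (a4_3.mul b7_3)).add (a4_4.mul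
        b8_2)).add (a4_5.mul b9_1)).add a4_6) μ)
      (Nat.land (((((((a4_1.mul b5_6).add (a4_2.mul b6_5)).add (a4_3.mul b7_4)).add (a4_4.mul
        b8_3)).add (a4_5.mul b9_2)).add (a4_6.mul b10_1)).add a4_7) μ)
      (Nat.land a5_1 μ)
      (Nat.land ((a5_1.mul b6_1).add a5_2) μ)
      (Nat.land (((a5_1.mul b6_2).add (a5_2.mul b7_1)).add a5_3) μ)
      (Nat.land ((((a5_1.mul b6_3).add (a5_2.mul b7_2)).add (a5_3.mul b8_1)).add a5_4) μ)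
      (Nat.land (((((a5_1.mul b6_4).add (a5_2.mul b7_3)).add (a5_3.mul b8_2)).add (a5_4.mul
        b9_1)).add a5_5) μ)
      (Nat.land ((((((a5_1.mul b6_5).add (a5_2.mul b7_4)).add (a5_3.mul b8_3)).add (a5_4.mul
        b9_2)).add (a5_5.mul b10_1)).add a5_6) μ)
      (Nat.land a6_1 μ)
      (Nat.land ((a6_1.mul b7_1).add a6_2) μ)
      (Nat.land (((a6_1.mul b7_2).add (a6_2.mul b8_1)).add a6_3) μ)
      (Nat.land ((((a6_1.mul b7_3).add (a6_2.mul b8_2)).add (a6_3.mul b9_1)).add a6_4) μ)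
      (Nat.land (((((a6_1.mul b7_4).add (a6_2.mul b8_3)).add (a6_3.mul b9_2)).add (a6_4.mul
        b10_1)).add a6_5) μ)
      (Nat.land a7_1 μ)
      (Nat.land ((a7_1.mul b8_1).add a7_2) μ)
      (Nat.land (((a7_1.mul b8_2).add (a7_2.mul b9_1)).add a7_3) μ)
      (Nat.land ((((a7_1.mul b8_3).add (a7_2.mul b9_2)).add (a7_3.mul b10_1)).add a7_4) μ)
      (Nat.land a8_1 μ)
      (Nat.land ((a8_1.mul b9_1).add a8_2) μ)
      (Nat.land (((a8_1.mul b9_2).add (a8_2.mul b10_1)).add a8_3) μ)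
      (Nat.land a9_1 μ)
      (Nat.land ((a9_1.mul b10_1).add a9_2) μ)
      (Nat.land a10_1 μ)) b) a

lemma mx1_ok {μ : ℕ} (h : 1 &&& μ = 1) (a b : MX) (k : MX → Bool) (ok : mx1 μ a b k = true) :
    ∃ m, k m = true ∧ ∀ i n, i + n ≤ 11 → m.at 0 i n =
      (∑ j ∈ range (n + 1), a.at 0 i j * b.at 1 (i + j) (n - j)) &&& μ := by
  cases a
  cases b
  dsimp only [mx1] at ok
  rw [frc_eq] at ok
  refine ⟨_, ok, fun i n hi => ?_⟩
  clear ok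
  have h1 : i ≤ 11 := by omega
  have h2 : n ≤ 11 := by omega
  interval_cases i <;> interval_cases n <;> first
    | omega
    | (simp only [sum_range_succ, sum_range_zero, MX.at, MX.rows, Nat.reduceAdd, Nat.reduceSub,
        List.getD_cons_zero, List.getD_cons_succ, Nat.add_eq, Nat.mul_eq, Nat.land_eq, zero_add,
        add_zero, one_mul, mul_one, zero_mul, mul_zero, h, Nat.zero_and] <;> congr 1 <;> ring)

/-- Product of matrices with diagonals one and zero. -/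
noncomputable def mx2 (μ : ℕ) (a b : MX) (k : MX → Bool) : Bool :=
  MX.rec (fun a0_1 a0_2 a0_3 a0_4 a0_5 a0_6 a0_7 a0_8 a0_9 a0_10 a0_11 a1_1 a1_2 a1_3 a1_4 a1_5 a1_6 a1_7
      a1_8 a1_9 a1_10 a2_1 a2_2 a2_3 a2_4 a2_5 a2_6 a2_7 a2_8 a2_9 a3_1 a3_2 a3_3 a3_4 a3_5 a3_6
      a3_7 a3_8 a4_1 a4_2 a4_3 a4_4 a4_5 a4_6 a4_7 a5_1 a5_2 a5_3 a5_4 a5_5 a5_6 a6_1 a6_2 a6_3
      a6_4 a6_5 a7_1 a7_2 a7_3 a7_4 a8_1 a8_2 a8_3 a9_1 a9_2 a10_1 =>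
    MX.rec (fun b0_1 b0_2 b0_3 b0_4 b0_5 b0_6 b0_7 b0_8 b0_9 b0_10 b0_11 b1_1 b1_2 b1_3 b1_4 b1_5 b1_6 b1_7
      b1_8 b1_9 b1_10 b2_1 b2_2 b2_3 b2_4 b2_5 b2_6 b2_7 b2_8 b2_9 b3_1 b3_2 b3_3 b3_4 b3_5 b3_6
      b3_7 b3_8 b4_1 b4_2 b4_3 b4_4 b4_5 b4_6 b4_7 b5_1 b5_2 b5_3 b5_4 b5_5 b5_6 b6_1 b6_2 b6_3
      b6_4 b6_5 b7_1 b7_2 b7_3 b7_4 b8_1 b8_2 b8_3 b9_1 b9_2 b10_1 =>
    frc k
      (Nat.land b0_1 μ)
      (Nat.land ((a0_1.mul b1_1).add b0_2) μ)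
      (Nat.land (((a0_2.mul b2_1).add (a0_1.mul b1_2)).add b0_3) μ)
      (Nat.land ((((a0_3.mul b3_1).add (a0_2.mul b2_2)).add (a0_1.mul b1_3)).add b0_4) μ)
      (Nat.land (((((a0_4.mul b4_1).add (a0_3.mul b3_2)).add (a0_2.mul b2_3)).add (a0_1.mul
        b1_4)).add b0_5) μ)
      (Nat.land ((((((a0_5.mul b5_1).add (a0_4.mul b4_2)).add (a0_3.mul b3_3)).add (a0_2.mul
        b2_4)).add (a0_1.mul b1_5)).add b0_6) μ)
      (Nat.land (((((((a0_6.mul b6_1).add (a0_5.mul b5_2)).add (a0_4.mul b4_3)).add (a0_3.mul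
        b3_4)).add (a0_2.mul b2_5)).add (a0_1.mul b1_6)).add b0_7) μ)
      (Nat.land ((((((((a0_7.mul b7_1).add (a0_6.mul b6_2)).add (a0_5.mul b5_3)).add (a0_4.mul
        b4_4)).add (a0_3.mul b3_5)).add (a0_2.mul b2_6)).add (a0_1.mul b1_7)).add b0_8) μ)
      (Nat.land (((((((((a0_8.mul b8_1).add (a0_7.mul b7_2)).add (a0_6.mul b6_3)).add (a0_5.mul
        b5_4)).add (a0_4.mul b4_5)).add (a0_3.mul b3_6)).add (a0_2.mul b2_7)).add (a0_1.mul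
        b1_8)).add b0_9) μ)
      (Nat.land ((((((((((a0_9.mul b9_1).add (a0_8.mul b8_2)).add (a0_7.mul b7_3)).add (a0_6.mul
        b6_4)).add (a0_5.mul b5_5)).add (a0_4.mul b4_6)).add (a0_3.mul b3_7)).add (a0_2.mul
        b2_8)).add (a0_1.mul b1_9)).add b0_10) μ)
      (Nat.land (((((((((((a0_10.mul b10_1).add (a0_9.mul b9_2)).add (a0_8.mul b8_3)).add (a0_7.mul
        b7_4)).add (a0_6.mul b6_5)).add (a0_5.mul b5_6)).add (a0_4.mul b4_7)).add (a0_3.mul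
        b3_8)).add (a0_2.mul b2_9)).add (a0_1.mul b1_10)).add b0_11) μ)
      (Nat.land b1_1 μ)
      (Nat.land ((a1_1.mul b2_1).add b1_2) μ)
      (Nat.land (((a1_2.mul b3_1).add (a1_1.mul b2_2)).add b1_3) μ)
      (Nat.land ((((a1_3.mul b4_1).add (a1_2.mul b3_2)).add (a1_1.mul b2_3)).add b1_4) μ)
      (Nat.land (((((a1_4.mul b5_1).add (a1_3.mul b4_2)).add (a1_2.mul b3_3)).add (a1_1.mul
        b2_4)).add b1_5) μ)
      (Nat.land ((((((a1_5.mul b6_1).add (a1_4.mul b5_2)).add (a1_3.mul b4_3)).add (a1_2.mul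
        b3_4)).add (a1_1.mul b2_5)).add b1_6) μ)
      (Nat.land (((((((a1_6.mul b7_1).add (a1_5.mul b6_2)).add (a1_4.mul b5_3)).add (a1_3.mul
        b4_4)).add (a1_2.mul b3_5)).add (a1_1.mul b2_6)).add b1_7) μ)
      (Nat.land ((((((((a1_7.mul b8_1).add (a1_6.mul b7_2)).add (a1_5.mul b6_3)).add (a1_4.mul
        b5_4)).add (a1_3.mul b4_5)).add (a1_2.mul b3_6)).add (a1_1.mul b2_7)).add b1_8) μ)
      (Nat.land (((((((((a1_8.mul b9_1).add (a1_7.mul b8_2)).add (a1_6.mul b7_3)).add (a1_5.mul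
        b6_4)).add (a1_4.mul b5_5)).add (a1_3.mul b4_6)).add (a1_2.mul b3_7)).add (a1_1.mul
        b2_8)).add b1_9) μ)
      (Nat.land ((((((((((a1_9.mul b10_1).add (a1_8.mul b9_2)).add (a1_7.mul b8_3)).add (a1_6.mul
        b7_4)).add (a1_5.mul b6_5)).add (a1_4.mul b5_6)).add (a1_3.mul b4_7)).add (a1_2.mul
        b3_8)).add (a1_1.mul b2_9)).add b1_10) μ)
      (Nat.land b2_1 μ)
      (Nat.land ((a2_1.mul b3_1).add b2_2) μ)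
      (Nat.land (((a2_2.mul b4_1).add (a2_1.mul b3_2)).add b2_3) μ)
      (Nat.land ((((a2_3.mul b5_1).add (a2_2.mul b4_2)).add (a2_1.mul b3_3)).add b2_4) μ)
      (Nat.land (((((a2_4.mul b6_1).add (a2_3.mul b5_2)).add (a2_2.mul b4_3)).add (a2_1.mul
        b3_4)).add b2_5) μ)
      (Nat.land ((((((a2_5.mul b7_1).add (a2_4.mul b6_2)).add (a2_3.mul b5_3)).add (a2_2.mul
        b4_4)).add (a2_1.mul b3_5)).add b2_6) μ)
      (Nat.land (((((((a2_6.mul b8_1).add (a2_5.mul b7_2)).add (a2_4.mul b6_3)).add (a2_3.mul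
        b5_4)).add (a2_2.mul b4_5)).add (a2_1.mul b3_6)).add b2_7) μ)
      (Nat.land ((((((((a2_7.mul b9_1).add (a2_6.mul b8_2)).add (a2_5.mul b7_3)).add (a2_4.mul
        b6_4)).add (a2_3.mul b5_5)).add (a2_2.mul b4_6)).add (a2_1.mul b3_7)).add b2_8) μ)
      (Nat.land (((((((((a2_8.mul b10_1).add (a2_7.mul b9_2)).add (a2_6.mul b8_3)).add (a2_5.mul
        b7_4)).add (a2_4.mul b6_5)).add (a2_3.mul b5_6)).add (a2_2.mul b4_7)).add (a2_1.mul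
        b3_8)).add b2_9) μ)
      (Nat.land b3_1 μ)
      (Nat.land ((a3_1.mul b4_1).add b3_2) μ)
      (Nat.land (((a3_2.mul b5_1).add (a3_1.mul b4_2)).add b3_3) μ)
      (Nat.land ((((a3_3.mul b6_1).add (a3_2.mul b5_2)).add (a3_1.mul b4_3)).add b3_4) μ)
      (Nat.land (((((a3_4.mul b7_1).add (a3_3.mul b6_2)).add (a3_2.mul b5_3)).add (a3_1.mul
        b4_4)).add b3_5) μ)
      (Nat.land ((((((a3_5.mul b8_1).add (a3_4.mul b7_2)).add (a3_3.mul b6_3)).add (a3_2.mul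
        b5_4)).add (a3_1.mul b4_5)).add b3_6) μ)
      (Nat.land (((((((a3_6.mul b9_1).add (a3_5.mul b8_2)).add (a3_4.mul b7_3)).add (a3_3.mul
        b6_4)).add (a3_2.mul b5_5)).add (a3_1.mul b4_6)).add b3_7) μ)
      (Nat.land ((((((((a3_7.mul b10_1).add (a3_6.mul b9_2)).add (a3_5.mul b8_3)).add (a3_4.mul
        b7_4)).add (a3_3.mul b6_5)).add (a3_2.mul b5_6)).add (a3_1.mul b4_7)).add b3_8) μ)
      (Nat.land b4_1 μ)
      (Nat.land ((a4_1.mul b5_1).add b4_2) μ)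
      (Nat.land (((a4_2.mul b6_1).add (a4_1.mul b5_2)).add b4_3) μ)
      (Nat.land ((((a4_3.mul b7_1).add (a4_2.mul b6_2)).add (a4_1.mul b5_3)).add b4_4) μ)
      (Nat.land (((((a4_4.mul b8_1).add (a4_3.mul b7_2)).add (a4_2.mul b6_3)).add (a4_1.mul
        b5_4)).add b4_5) μ)
      (Nat.land ((((((a4_5.mul b9_1).add (a4_4.mul b8_2)).add (a4_3.mul b7_3)).add (a4_2.mul
        b6_4)).add (a4_1.mul b5_5)).add b4_6) μ)
      (Nat.land (((((((a4_6.mul b10_1).add (a4_5.mul b9_2)).add (a4_4.mul b8_3)).add (a4_3.mul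
        b7_4)).add (a4_2.mul b6_5)).add (a4_1.mul b5_6)).add b4_7) μ)
      (Nat.land b5_1 μ)
      (Nat.land ((a5_1.mul b6_1).add b5_2) μ)
      (Nat.land (((a5_2.mul b7_1).add (a5_1.mul b6_2)).add b5_3) μ)
      (Nat.land ((((a5_3.mul b8_1).add (a5_2.mul b7_2)).add (a5_1.mul b6_3)).add b5_4) μ)
      (Nat.land (((((a5_4.mul b9_1).add (a5_3.mul b8_2)).add (a5_2.mul b7_3)).add (a5_1.mul
        b6_4)).add b5_5) μ)
      (Nat.land ((((((a5_5.mul b10_1).add (a5_4.mul b9_2)).add (a5_3.mul b8_3)).add (a5_2.mul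
        b7_4)).add (a5_1.mul b6_5)).add b5_6) μ)
      (Nat.land b6_1 μ)
      (Nat.land ((a6_1.mul b7_1).add b6_2) μ)
      (Nat.land (((a6_2.mul b8_1).add (a6_1.mul b7_2)).add b6_3) μ)
      (Nat.land ((((a6_3.mul b9_1).add (a6_2.mul b8_2)).add (a6_1.mul b7_3)).add b6_4) μ)
      (Nat.land (((((a6_4.mul b10_1).add (a6_3.mul b9_2)).add (a6_2.mul b8_3)).add (a6_1.mul
        b7_4)).add b6_5) μ)
      (Nat.land b7_1 μ)
      (Nat.land ((a7_1.mul b8_1).add b7_2) μ)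
      (Nat.land (((a7_2.mul b9_1).add (a7_1.mul b8_2)).add b7_3) μ)
      (Nat.land ((((a7_3.mul b10_1).add (a7_2.mul b9_2)).add (a7_1.mul b8_3)).add b7_4) μ)
      (Nat.land b8_1 μ)
      (Nat.land ((a8_1.mul b9_1).add b8_2) μ)
      (Nat.land (((a8_2.mul b10_1).add (a8_1.mul b9_2)).add b8_3) μ)
      (Nat.land b9_1 μ)
      (Nat.land ((a9_1.mul b10_1).add b9_2) μ)
      (Nat.land b10_1 μ)) b) a

lemma mx2_ok {μ : ℕ} (h : 1 &&& μ = 1) (a b : MX) (k : MX → Bool) (ok : mx2 μ a b k = true) :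
    ∃ m, k m = true ∧ ∀ i n, i + n ≤ 11 → m.at 0 i n =
      (∑ j ∈ range (n + 1), a.at 1 i j * b.at 0 (i + j) (n - j)) &&& μ := by
  cases a
  cases b
  dsimp only [mx2] at ok
  rw [frc_eq] at ok
  refine ⟨_, ok, fun i n hi => ?_⟩
  clear ok
  have h1 : i ≤ 11 := by omega
  have h2 : n ≤ 11 := by omega
  interval_cases i <;> interval_cases n <;> first
    | omega
    | (simp only [sum_range_succ, sum_range_zero, MX.at, MX.rows, Nat.reduceAdd, Nat.reduceSub,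
        List.getD_cons_zero, List.getD_cons_succ, Nat.add_eq, Nat.mul_eq, Nat.land_eq, zero_add,
        add_zero, one_mul, mul_one, zero_mul, mul_zero, h, Nat.zero_and] <;> congr 1 <;> ring)

/-- Multiplication of the entries above the diagonal by a constant. -/
noncomputable def mxs (μ c : ℕ) (a : MX) (k : MX → Bool) : Bool :=
  MX.rec (fun a0_1 a0_2 a0_3 a0_4 a0_5 a0_6 a0_7 a0_8 a0_9 a0_10 a0_11 a1_1 a1_2 a1_3 a1_4 a1_5 a1_6 a1_7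
      a1_8 a1_9 a1_10 a2_1 a2_2 a2_3 a2_4 a2_5 a2_6 a2_7 a2_8 a2_9 a3_1 a3_2 a3_3 a3_4 a3_5 a3_6
      a3_7 a3_8 a4_1 a4_2 a4_3 a4_4 a4_5 a4_6 a4_7 a5_1 a5_2 a5_3 a5_4 a5_5 a5_6 a6_1 a6_2 a6_3
      a6_4 a6_5 a7_1 a7_2 a7_3 a7_4 a8_1 a8_2 a8_3 a9_1 a9_2 a10_1 =>
    frc k
      (Nat.land (c.mul a0_1) μ) (Nat.land (c.mul a0_2) μ) (Nat.land (c.mul a0_3) μ)
      (Nat.land (c.mul a0_4) μ) (Nat.land (c.mul a0_5) μ) (Nat.land (c.mul a0_6) μ)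
      (Nat.land (c.mul a0_7) μ) (Nat.land (c.mul a0_8) μ) (Nat.land (c.mul a0_9) μ)
      (Nat.land (c.mul a0_10) μ) (Nat.land (c.mul a0_11) μ) (Nat.land (c.mul a1_1) μ)
      (Nat.land (c.mul a1_2) μ) (Nat.land (c.mul a1_3) μ) (Nat.land (c.mul a1_4) μ)
      (Nat.land (c.mul a1_5) μ) (Nat.land (c.mul a1_6) μ) (Nat.land (c.mul a1_7) μ)
      (Nat.land (c.mul a1_8) μ) (Nat.land (c.mul a1_9) μ) (Nat.land (c.mul a1_10) μ)
      (Nat.land (c.mul a2_1) μ) (Nat.land (c.mul a2_2) μ) (Nat.land (c.mul a2_3) μ)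
      (Nat.land (c.mul a2_4) μ) (Nat.land (c.mul a2_5) μ) (Nat.land (c.mul a2_6) μ)
      (Nat.land (c.mul a2_7) μ) (Nat.land (c.mul a2_8) μ) (Nat.land (c.mul a2_9) μ)
      (Nat.land (c.mul a3_1) μ) (Nat.land (c.mul a3_2) μ) (Nat.land (c.mul a3_3) μ)
      (Nat.land (c.mul a3_4) μ) (Nat.land (c.mul a3_5) μ) (Nat.land (c.mul a3_6) μ)
      (Nat.land (c.mul a3_7) μ) (Nat.land (c.mul a3_8) μ) (Nat.land (c.mul a4_1) μ)
      (Nat.land (c.mul a4_2) μ) (Nat.land (c.mul a4_3) μ) (Nat.land (c.mul a4_4) μ)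
      (Nat.land (c.mul a4_5) μ) (Nat.land (c.mul a4_6) μ) (Nat.land (c.mul a4_7) μ)
      (Nat.land (c.mul a5_1) μ) (Nat.land (c.mul a5_2) μ) (Nat.land (c.mul a5_3) μ)
      (Nat.land (c.mul a5_4) μ) (Nat.land (c.mul a5_5) μ) (Nat.land (c.mul a5_6) μ)
      (Nat.land (c.mul a6_1) μ) (Nat.land (c.mul a6_2) μ) (Nat.land (c.mul a6_3) μ)
      (Nat.land (c.mul a6_4) μ) (Nat.land (c.mul a6_5) μ) (Nat.land (c.mul a7_1) μ)
      (Nat.land (c.mul a7_2) μ) (Nat.land (c.mul a7_3) μ) (Nat.land (c.mul a7_4) μ)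
      (Nat.land (c.mul a8_1) μ) (Nat.land (c.mul a8_2) μ) (Nat.land (c.mul a8_3) μ)
      (Nat.land (c.mul a9_1) μ) (Nat.land (c.mul a9_2) μ) (Nat.land (c.mul a10_1) μ)) a

lemma mxs_ok (μ c : ℕ) (a : MX) (k : MX → Bool) (ok : mxs μ c a k = true) :
    ∃ m, k m = true ∧ ∀ i n, i + (n + 1) ≤ 11 → m.at 1 i (n + 1) = (c * a.at 1 i (n + 1)) &&& μ := by
  cases a
  dsimp only [mxs] at ok
  rw [frc_eq] at ok
  refine ⟨_, ok, fun i n hi => ?_⟩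
  clear ok
  have h1 : i ≤ 11 := by omega
  have h2 : n ≤ 11 := by omega
  interval_cases i <;> interval_cases n <;> first | omega | rfl

lemma at_zero (d : ℕ) (m : MX) {i : ℕ} (h : i ≤ 11) : m.at d i 0 = d := by
  interval_cases i <;> rfl

lemma at_succ (d d' : ℕ) (m : MX) {i : ℕ} (h : i ≤ 11) (n : ℕ) :
    m.at d i (n + 1) = m.at d' i (n + 1) := by
  interval_cases i <;> rfl

lemma at_of (g : ℕ → ℕ → ℕ) {i n : ℕ} (hi : i + (n + 1) ≤ 11) :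
    (MX.of g).at 1 i (n + 1) = g i (n + 1) := by
  have h1 : i ≤ 11 := by omega
  have h2 : n ≤ 11 := by omega
  interval_cases i <;> interval_cases n <;> first | omega | rfl

end Pool.Agent.Lib.MP_3b0e0c_al.Y
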