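import Pool.Agent.Lib.MP_3b0e0c_al.Y.MX

/-! Truncated Magnus series modulo `2 ^ 18` as unitriangular matrices of natural numbers. -/

namespace Pool.Agent.Lib.MP_3b0e0c_al.Y

open Finset
open scoped commutatorElement

/-- Case distinction on `c = 0`. -/
noncomputable def ifN {α : Type} (c : ℕ) (a b : α) : α := Nat.rec a (fun _ _ => b) c

lemma ifN_eq {α : Type} (c : ℕ) (a b : α) : ifN c a b = if c = 0 then a else b := by
  cases c <;> rfl

/-- Matrices. -/
abbrev Mt := MX

/-- Evaluate a number before continuing. -/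
noncomputable def fN (c : ℕ) (k : ℕ → Bool) : Bool := Nat.rec (k 0) (fun p _ => k (Nat.succ p)) c

lemma fN_eq (c : ℕ) (k : ℕ → Bool) : fN c k = k c := by cases c <;> rfl

/-- Evaluate a number before continuing, keeping its expression. -/
noncomputable def fS (c : ℕ) (k : ℕ → Bool) : Bool := Nat.rec (k 0) (fun _ _ => k c) c

lemma fS_eq (c : ℕ) (k : ℕ → Bool) : fS c k = k c := by cases c <;> rfl

/-- The windows of the Kronecker weights. -/
def wn (i k : ℕ) : List ℕ := ((oN (2 ^ 45) 11).drop i).take k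

lemma wn_length {i k : ℕ} (h : i + k ≤ 11) : (wn i k).length = k := by
  simp [wn, oN_length]; omega

lemma wn_eq {i k : ℕ} (h : i + k ≤ 11) : wn i k = oN ((2 ^ 45) ^ 2 ^ (11 - i - k)) k := by
  rw [← oN_take, ← oN_drop _ _ i, wn]
  congr 3
  omega

/-- The matrix `e` with diagonal `d` describes the series `f`. -/
def Rep (d : ℕ) (e : Mt) (f : W → ℕ) : Prop := ∀ i k, i + k ≤ 11 → e.at d i k = EL (wn i k) f

/-- The series `f` agrees with the series `φ`. -/
def Cg (f : W → ℕ) (φ : V) : Prop := ∀ w : W, w.length ≤ 11 → (f w : ℤ) ≡ φ w [ZMOD 2 ^ 18]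

/-- The matrix `e` with diagonal `d` describes the series `φ`. -/
def Gs (d : ℕ) (e : Mt) (φ : V) : Prop := ∃ f, Rep d e f ∧ Cg f φ ∧ ∀ w, f w ≤ 2 ^ 18

/-- The matrix `e` describes the group element `u`. -/
def Gd (e : Mt) (u : F) : Prop := Gs 1 e (ser u)

/-- The mask. -/
def MU : ℕ := mk (2 ^ 18 - 1) (2 ^ 45) 12

lemma one_MU : 1 &&& MU = 1 := by decide +kernel

/-- A computation that passes a matrix describing `u` to its continuation. -/
def CN (c : (Mt → Bool) → Bool) (u : F) : Prop := ∀ k, c k = true → ∃ e, Gd e u ∧ k e = true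

lemma gs_mask {d : ℕ} {e : Mt} {f : W → ℕ} {φ : V}
    (h : ∀ i k, i + k ≤ 11 → e.at d i k = EL (wn i k) f &&& MU) (hc : Cg f φ)
    (hb : ∀ w : W, w.length ≤ 11 → f w < 2 ^ 45) : Gs d e φ := by
  refine ⟨fun w => f w % 2 ^ 18, fun i j hij => ?_, fun w hw => ?_,
    fun w => (Nat.mod_lt _ (by norm_num)).le⟩
  · rw [h i j hij, wn_eq hij, MU, show 12 = 11 - i - j + j + (i + 1) by omega]
    exact EL_mask (by norm_num) _ _ _ _ fun w hw => hb w (by omega)
  · push_cast
    exact (Int.mod_modEq _ _).trans (hc w hw)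

lemma Gs.mul {d d' c : ℕ} {e e' m : Mt} {φ ψ : V} (h : Gs d e φ) (h' : Gs d' e' ψ)
    (hm : ∀ i n, i + n ≤ 11 → m.at c i n =
      (∑ j ∈ range (n + 1), e.at d i j * e'.at d' (i + j) (n - j)) &&& MU) :
    Gs c m fun w => conv ψ w φ := by
  obtain ⟨f, r, c, b⟩ := h
  obtain ⟨g, r', c', b'⟩ := h'
  refine gs_mask (f := fun w => cv g w f) (fun i k hk => ?_) (fun w hw => ?_) fun w hw => ?_
  · rw [hm i k hk, EL_cv, wn_length hk]
    refine congrArg (· &&& MU) (sum_congr rfl fun j hj => ?_)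
    have hj' : j ≤ k := by simpa [Nat.lt_succ_iff] using hj
    rw [r i j (by omega), r' (i + j) (k - j) (by omega), wn, wn, wn, List.take_take,
      min_eq_left hj', List.drop_take, List.drop_drop]
  · exact cv_mod w _ _ (fun s hs => c s (by omega)) fun s hs => c' s (by omega)
  · have := cv_le b' w f b
    have h2 := Nat.mul_le_mul_right (2 ^ 18 * 2 ^ 18) (show w.length + 1 ≤ 12 by omega)
    omega

/-- Forced product. -/
noncomputable def mK (μ : ℕ) (e e' : Mt) : (Mt → Bool) → Bool := mx0 μ e e'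

lemma Gd.mK {e e' : Mt} {u v : F} (h : Gd e u) (h' : Gd e' v) : CN (mK MU e e') (u * v) := by
  intro k ok
  obtain ⟨m, ok, hm⟩ := mx0_ok one_MU _ _ _ ok
  exact ⟨m, by rw [Gd, funext (ser_mul u v)]; exact Gs.mul h h' hm, ok⟩

lemma Gs.cst {d : ℕ} {e : Mt} {φ : V} (h : Gs d e φ) {a : ℕ} (ha : a ≤ 1) :
    Gs a e fun w => if w = [] then a else φ w := by
  obtain ⟨f, r, c, b⟩ := h
  refine ⟨fun w => if w = [] then a else f w, fun i k hk => ?_, fun w hw => ?_, fun w => ?_⟩
  · cases k with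
    | zero => simp [wn, EL, at_zero a e (i := i) hk]
    | succ k =>
      rw [EL_congr (f := f) fun w hw => if_neg (by rintro rfl; simp [wn_length hk] at hw),
        ← r i _ hk, at_succ a d e (by omega)]
  · have := c w hw
    beta_reduce
    split_ifs
    exacts [rfl, this]
  · have := b w
    beta_reduce
    split_ifs <;> omega

/-- Conjugation; `a'` describes the inverse of `a`. -/
noncomputable def cK (μ : ℕ) (a a' c : Mt) (k : Mt → Bool) : Bool :=
  mx1 μ c a' fun t => mx2 μ a t k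

lemma Gd.cK {a a' c : Mt} {x u : F} (h : Gd a x) (h' : Gd a' x⁻¹) (hc : Gd c u) :
    CN (cK MU a a' c) (x * (u * x⁻¹)) := by
  intro k ok
  obtain ⟨t, ok, ht⟩ := mx1_ok one_MU _ _ _ ok
  obtain ⟨s, ok, hs⟩ := mx2_ok one_MU _ _ _ ok
  refine ⟨_, ?_, ok⟩
  have h1 : (fun w => if w = [] then ((0 : ℕ) : ℤ) else ser u w) = (mu u - 1) dl := by
    ext w
    have := ser_eq u w
    split_ifs with e
    · rw [e, J_coef (mu_J1 u) (by simp)]; rfl
    · rw [this, dl, if_neg e, add_zero]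
  have h2 : ∀ (g : V) (w : W), conv g w (ser x) = mu x g w := fun g w => by
    have := LinearMap.congr_fun (mu_RC g x).eq dl
    rw [Module.End.mul_apply, RC_dl] at this
    rw [this]; rfl
  have h3 : mu x * mu x⁻¹ = 1 := by rw [← mu_mul, mul_inv_cancel, mu_one]
  have h4 := (Gs.mul h ((Gs.cst hc zero_le_one).mul h' ht) hs).cst le_rfl
  rw [h1, ← funext (mu_apply u (ser x⁻¹))] at h4
  simp only [h2] at h4
  rw [Gd]
  convert h4 using 2 with w
  split_ifs with e
  · rw [e, ser_nil]; rfl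
  · rw [ser_eq, dl, if_neg e, add_zero, show mu (x * (u * x⁻¹)) - 1 = mu x * ((mu u - 1) * mu x⁻¹) by
      rw [mu_mul, mu_mul, sub_mul, mul_sub, one_mul, h3]]
    rfl

/-- Powers of one letter. -/
def dx (x : Bool) : W → ℕ
  | [] => 1
  | y :: w => if y = x then dx x w else 0

/-- Product of the weights of a letter. -/
def px (x : Bool) : List ℕ → ℕ
  | [] => 1
  | b :: o => (if x then b else 1) * px x o

lemma EL_dx (x : Bool) (o : List ℕ) : EL o (dx x) = px x o := by
  induction o with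
  | nil => rfl
  | cons b o ih =>
    have h0 : EL o (fun _ => 0) = 0 := by rw [EL_smul 0 o (dx x) _ (by simp), zero_mul]
    cases x <;> simp [EL, dx, px, h0] <;> first | exact ih | exact Or.inl ih

/-- Coefficients of a generator or its inverse. -/
def cf (s : Bool) (k : ℕ) : ℕ :=
  if s then (if k ≤ 1 then 1 else 0) else if k % 2 = 0 then 1 else 2 ^ 18 - 1

lemma ser_gl (x s : Bool) (w : W) :
    ser (gl (x, s)) w = (if s then (if w.length ≤ 1 then 1 else 0) else (-1) ^ w.length) * dx x w := by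
  induction w with
  | nil => simp [ser_nil, dx]
  | cons y w ih =>
    rw [congrFun (ser_gl_cons x s y) w]
    cases s
    · by_cases h : y = x <;> simp [ih, dx, h, pow_succ]
    · by_cases h : y = x <;> cases w <;> simp [dx, h, dl]

lemma Gs.scal {e m : Mt} {φ ψ : V} (h : Gs 1 e φ) {c : ℕ} (hc : c ≤ 2 ^ 18)
    (hm : ∀ i n, i + (n + 1) ≤ 11 → m.at 1 i (n + 1) = (c * e.at 1 i (n + 1)) &&& MU)
    (h0 : ψ [] = φ []) (h1 : ∀ w : W, w ≠ [] → w.length ≤ 11 → c * φ w ≡ ψ w [ZMOD 2 ^ 18]) :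
    Gs 1 m ψ := by
  obtain ⟨f, r, k, b⟩ := h
  refine gs_mask (f := fun w => (if w.length = 0 then 1 else c) * f w) (fun i n hn => ?_)
    (fun w hw => ?_) fun w _ => ?_
  · rw [EL_smul (if n = 0 then 1 else c) _ f _ fun w hw => by rw [hw, wn_length hn], ← r i n hn]
    cases n with
    | zero => rw [at_zero 1 m (i := i) hn, at_zero 1 e (i := i) hn]; exact one_MU.symm
    | succ n => exact hm i n hn
  · have h2 := k w hw
    by_cases e : w = []
    · subst e
      simpa [h0] using h2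
    · beta_reduce
      rw [if_neg (by simpa using e)]
      push_cast
      exact (h2.mul_left _).trans (h1 w e hw)
  · have := Nat.mul_le_mul hc (b w)
    have := b w
    split_ifs <;> omega

/-- The matrix of a letter. -/
def genN (a : Bool × Bool) : Mt := MX.of fun i k => cf a.2 k * px a.1 (wn i k)

lemma cn_gen (a : Bool × Bool) : CN (mxs MU 1 (genN a)) (gl a) := by
  intro k ok
  obtain ⟨m, ok, hm⟩ := mxs_ok _ _ _ _ ok
  have h1 : ∀ w, dx a.1 w ≤ 1 := fun w => by
    induction w with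
    | nil => rfl
    | cons y w ih => rw [dx]; split_ifs <;> omega
  refine ⟨m, Gs.scal (φ := ser (gl a)) ⟨fun w => cf a.2 w.length * dx a.1 w, fun i k hk => ?_,
    fun w _ => ?_, fun w => ?_⟩ (by norm_num) hm rfl (by simp), ok⟩
  · rw [EL_smul (cf a.2 k) _ (dx a.1) _ fun w hw => by rw [hw, wn_length hk], EL_dx]
    cases k with
    | zero => rw [at_zero 1 _ (i := i) hk]; simp [cf, wn, px]
    | succ k => exact at_of _ hk
  · rw [ser_gl a.1 a.2]
    push_cast
    refine Int.ModEq.mul_right _ ?_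
    unfold cf
    split_ifs with h2 h3 h4
    · rfl
    · rfl
    · rw [(Nat.even_iff.2 h4).neg_one_pow]; rfl
    · rw [(Nat.odd_iff.2 (by omega)).neg_one_pow]; decide
  · have h2 : cf a.2 w.length ≤ 2 ^ 18 := by unfold cf; split_ifs <;> omega
    have := Nat.mul_le_mul h2 (h1 w)
    omega

lemma Gd.neg {e : Mt} {u : F} (h : Gd e u) (hu : u ∈ D 6) : CN (mxs MU 262143 e) u⁻¹ := by
  intro k ok
  obtain ⟨m, ok, hm⟩ := mxs_ok _ _ _ _ ok
  refine ⟨m, Gs.scal h (by norm_num) hm (by rw [ser_nil, ser_nil]) fun w h0 hw => ?_, ok⟩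
  rw [← zpow_neg_one, ser_zpow hu h0 (by omega)]
  exact Int.ModEq.mul_right _ (by decide)

variable {g : Bool × Bool → Mt}

/-- The matrix of a word. -/
noncomputable def wdN (μ : ℕ) (g : Bool × Bool → Mt) : List (Bool × Bool) → (Mt → Bool) → Bool
  | [], k => mK μ (g (false, true)) (g (false, false)) k
  | [a], k => k (g a)
  | a :: b :: w, k => wdN μ g (b :: w) fun e => mK μ (g a) e k

lemma cn_wd (hg : ∀ a, Gd (g a) (gl a)) : ∀ w, CN (wdN MU g w) (gw w)
  | [] => fun k ok => by simpa [gl, gw] using (hg (false, true)).mK (hg (false, false)) k ok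
  | [a] => fun k ok => ⟨_, by simpa [gw] using hg a, ok⟩
  | a :: b :: w => fun k ok => by
    obtain ⟨e, he, ok⟩ := cn_wd hg (b :: w) _ ok
    exact (hg a).mK he k ok

/-- Computation of Engel words; `v'`, `c'` describe the inverses. -/
noncomputable def enN (μ : ℕ) (v v' : Mt) : ℕ → Mt → Mt → (Mt → Bool) → Bool
  | 0, c, _, k => k c
  | n + 1, c, c', k => cK μ v v' c' fun t => mK μ c t fun d =>
      Nat.rec (k d) (fun _ _ => cK μ v v' c fun t => mK μ t c' fun d' => enN μ v v' n d d' k) n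

lemma cn_en {v v' : Mt} {y : F} (hv : Gd v y) (hv' : Gd v' y⁻¹) :
    ∀ (n : ℕ) {c c' : Mt} {u : F}, Gd c u → Gd c' u⁻¹ → CN (enN MU v v' n c c') (engel y n u)
  | 0, c, _, _, h, _ => fun k ok => ⟨c, h, ok⟩
  | n + 1, c, c', u, h, h' => fun k ok => by
    obtain ⟨t, ht, ok⟩ := hv.cK hv' h' _ ok
    obtain ⟨d, hd, ok⟩ := h.mK ht _ ok
    rw [show u * (y * (u⁻¹ * y⁻¹)) = ⁅u, y⁆ by rw [commutatorElement_def]; group] at hd
    cases n with
    | zero => exact ⟨d, hd, ok⟩
    | succ n =>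
      obtain ⟨t, ht, ok⟩ := hv.cK hv' h _ ok
      obtain ⟨d', hd', ok⟩ := ht.mK h' _ ok
      rw [show y * (u * y⁻¹) * u⁻¹ = ⁅u, y⁆⁻¹ by rw [commutatorElement_def]; group] at hd'
      exact cn_en hv hv' (n + 1) hd hd' k ok

/-- The Engel word of two words. -/
noncomputable def enW (μ : ℕ) (g : Bool × Bool → Mt) (u v : List (Bool × Bool)) (n : ℕ)
    (k : Mt → Bool) : Bool :=
  wdN μ g v fun a => wdN μ g (iw v) fun a' => wdN μ g u fun c => wdN μ g (iw u) fun c' =>
    enN μ a a' n c c' k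

lemma cn_enW (hg : ∀ a, Gd (g a) (gl a)) (u v : List (Bool × Bool)) (n : ℕ) :
    CN (enW MU g u v n) (engel (gw v) n (gw u)) := fun k ok => by
  obtain ⟨a, ha, ok⟩ := cn_wd hg _ _ ok
  obtain ⟨a', ha', ok⟩ := cn_wd hg _ _ ok
  obtain ⟨c, hc, ok⟩ := cn_wd hg _ _ ok
  obtain ⟨c', hc', ok⟩ := cn_wd hg _ _ ok
  rw [gw_iw] at ha' hc'
  exact cn_en ha ha' n hc hc' _ ok

end Pool.Agent.Lib.MP_3b0e0c_al.Y
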