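import Pool.Agent.Lib.MP_3b0e0c_al.Y.Eleven
import Pool.Agent.Lib.MP_3b0e0c_al.Eng

/-! What the certificate for conjugate pairs in 6-Engel groups says. -/

namespace Pool.Agent.Lib.MP_3b0e0c_al.Y

/-- The relators available for a conjugate pair of order eight in a 6-Engel group. -/
structure Hy {H : Type} [Group H] (π : F →* H) : Prop where
  r8 : ∀ x, π (.of x) ^ 8 = 1
  e6 : ∀ u v : H, engel v 6 u = 1
  cj : ∀ a b, ∃ c : H, π (.of a) = c * π (.of b) * c⁻¹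

/-- The commutator of two words. -/
def cmw (a b : List (Bool × Bool)) : List (Bool × Bool) := (a ++ b) ++ (iw a ++ iw b)

/-- A power of a generator. -/
def rp (x : Bool) (n : ℕ) : List (Bool × Bool) := List.replicate n (x, true)

/-- `⁅⁅x ^ 4, y ^ 4⁆, x ^ 2⁆`. -/
def tw1 : List (Bool × Bool) := cmw (cmw (rp false 4) (rp true 4)) (rp false 2)

/-- `⁅y ^ 4, x ^ 2 * y ^ 4 * (x ^ 2)⁻¹⁆`. -/
def tw2 : List (Bool × Bool) := cmw (rp true 4) ((rp false 2 ++ rp true 4) ++ iw (rp false 2))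

/-- The coefficients in the degrees one to ten are divisible by `2 ^ 18`. -/
def Low (u : F) : Prop := u ∈ D 6 ∧ ∀ w : W, w ≠ [] → w.length ≤ 10 → (2 ^ 18 : ℤ) ∣ ser u w

/-- The content of the certificate. -/
def Spec : Prop := ∀ (H : Type) [Group H] (π : F →* H), Hy π →
  (∀ b ∈ bs10, ∃ u, Low u ∧ π u = 1 ∧ ∀ w : W, w.length = 11 → (2 : ℤ) ∣ ser u w - cth b w) ∧
  (∃ u, Low u ∧ π u = π (gw tw1)) ∧ ∃ u, Low u ∧ π u = π (gw tw2)

end Pool.Agent.Lib.MP_3b0e0c_al.Y
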