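import Pool.Agent.Lib.MP_3b0e0c_al.Y.Mat
import Pool.Agent.Lib.MP_3b0e0c_al.Y.Spec

/-! Straight-line programs of relators. -/

namespace Pool.Agent.Lib.MP_3b0e0c_al.Y

open scoped commutatorElement

/-- The base for the exact computation in low degrees. -/
def B5 : ℤ := 18446744073709563961

/-- An entry: the series modulo `2 ^ 18` and, outside `D 6`, the exact series in low degrees. -/
structure En where
  M : Mt
  o : Option Ent

/-- Instructions. -/
inductive Op2
  | rel (x s : Bool)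
  | mul (i j : ℕ)
  | cj (i : ℕ) (x s : Bool)
  | dp (i : ℕ)
  | e6 (u v : List (Bool × Bool))
  | e5 (h : List (Bool × Bool)) (a b s : Bool) (n : ℕ)
  | cm (i : ℕ) (x : Bool)

/-- One instruction. -/
noncomputable def st2 (μ : ℕ) (g : Bool × Bool → Mt) (q : Bool × Bool → Ent) (st : List En)
    (k : En → Bool) : Op2 → Bool
  | .rel x s => wdN μ g (List.replicate 8 (x, s)) fun m =>
      wdK B5 5 q (List.replicate 8 (x, s)) fun e => k ⟨m, some e⟩
  | .mul i j => match st[i]?, st[j]? with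
      | some ⟨m, some e⟩, some ⟨m', some e'⟩ => mK μ m m' fun m => mulK B5 5 e e' fun e =>
          k ⟨m, some e⟩
      | _, _ => false
  | .cj i x s => match st[i]? with
      | some ⟨m, some e⟩ => cK μ (g (x, s)) (g (x, !s)) m fun m =>
          mulK B5 5 e (q (x, !s)) fun e => mulK B5 5 (q (x, s)) e fun e => k ⟨m, some e⟩
      | _ => false
  | .dp i => match st[i]? with
      | some ⟨m, some e⟩ => high 6 e && k ⟨m, none⟩
      | _ => false
  | .e6 u v => enW μ g u v 6 fun m => k ⟨m, none⟩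
  | .e5 h a b s n => enW μ g (h ++ (List.replicate n (a, s) ++ iw h)) (List.replicate n (b, s)) 5
      fun m => k ⟨m, none⟩
  | .cm i x => match st[i]? with
      | some ⟨m, none⟩ => mxs μ 262143 m fun t => cK μ (g (x, true)) (g (x, false)) t fun t =>
          mK μ m t fun t => k ⟨t, none⟩
      | _ => false

/-- Run a program. -/
noncomputable def run2 (μ : ℕ) (g : Bool × Bool → Mt) (q : Bool × Bool → Ent)
    (fin : List En → Bool) : List Op2 → List En → Bool
  | [], st => fin st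
  | o :: os, st => st2 μ g q st (fun a => run2 μ g q fin os (a :: st)) o

variable {H : Type} [Group H] {π : F →* H} {g : Bool × Bool → Mt} {q : Bool × Bool → Ent}

/-- Meaning of an entry. -/
def Iv (π : F →* H) (a : En) : Prop :=
  ∃ u, π u = 1 ∧ Gd a.M u ∧ (∀ e, a.o = some e → Good B5 5 e u) ∧ (a.o = none → u ∈ D 6)

lemma iv_some {u : F} {m : Mt} {e : Ent} (h1 : π u = 1) (h2 : Gd m u) (h3 : Good B5 5 e u) :
    Iv π ⟨m, some e⟩ := ⟨u, h1, h2, fun _ h => Option.some.inj h ▸ h3, fun h => by simp at h⟩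

lemma iv_none {u : F} {m : Mt} (h1 : π u = 1) (h2 : Gd m u) (h3 : u ∈ D 6) :
    Iv π ⟨m, none⟩ := ⟨u, h1, h2, fun _ h => by simp at h, fun _ => h3⟩

lemma engel_mem (v : F) (n : ℕ) : ∀ (i : ℕ) (u : F), u ∈ Γ F i → engel v n u ∈ Γ F (i + n) := by
  induction n with
  | zero => exact fun _ _ h => h
  | succ n ih =>
    intro i u h
    rw [engel, ← add_assoc, add_right_comm]
    exact ih _ _ (comm_mem h (mem_zero v) le_rfl)

lemma map_engel (v : F) (n : ℕ) : ∀ u, π (engel v n u) = engel (π v) n (π u) := by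
  induction n with
  | zero => exact fun _ => rfl
  | succ n ih => intro u; rw [engel, engel, ih, map_commutatorElement]

lemma D_conj {k : ℕ} {u : F} (hu : u ∈ D k) (a : F) : a * (u * a⁻¹) ∈ D k := by
  change mu _ - 1 ∈ J k
  have h1 : mu a * mu a⁻¹ = 1 := by rw [← mu_mul, mul_inv_cancel, mu_one]
  rw [show mu (a * (u * a⁻¹)) - 1 = mu a * ((mu u - 1) * mu a⁻¹) by
    rw [mu_mul, mu_mul, sub_mul, mul_sub, one_mul, h1]]
  exact J_mul (mu_J0 a) (J_mul hu (mu_J0 _) le_rfl) (by omega)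

lemma gw_rep (a : Bool × Bool) (n : ℕ) : gw (List.replicate n a) = gl a ^ n := by
  induction n with
  | zero => simp [gw]
  | succ n ih => rw [List.replicate_succ, gw, ih, pow_succ']

lemma st2_sound (hy : Hy π) (hg : ∀ a, Gd (g a) (gl a)) (hq : ∀ a, Good B5 5 (q a) (gl a))
    {st : List En} (hs : ∀ a ∈ st, Iv π a) {k : En → Bool} (o : Op2)
    (ok : st2 MU g q st k o = true) : ∃ a, Iv π a ∧ k a = true := by
  cases o with
  | rel x s =>
    obtain ⟨m, hm, ok⟩ := cn_wd hg _ _ ok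
    obtain ⟨e, he, ok⟩ := cmp_wd hq _ _ ok
    refine ⟨_, iv_some ?_ hm he, ok⟩
    rw [gw_rep]
    cases s <;> simp [gl, hy.r8]
  | mul i j =>
    simp only [st2] at ok
    split at ok
    · rename_i m e m' e' hi hj
      obtain ⟨u, pu, gu, hu, -⟩ := hs _ (List.mem_of_getElem? hi)
      obtain ⟨v, pv, gv, hv, -⟩ := hs _ (List.mem_of_getElem? hj)
      obtain ⟨m, hm, ok⟩ := gu.mK gv _ ok
      obtain ⟨e, he, ok⟩ := (hu _ rfl).mulK (hv _ rfl) _ ok
      exact ⟨_, iv_some (by rw [map_mul, pu, pv, mul_one]) hm he, ok⟩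
    · exact absurd ok (by simp)
  | cj i x s =>
    simp only [st2] at ok
    split at ok
    · rename_i m e hi
      obtain ⟨u, pu, gu, hu, -⟩ := hs _ (List.mem_of_getElem? hi)
      obtain ⟨m, hm, ok⟩ := (hg _).cK (gl_not x s ▸ hg (x, !s)) gu _ ok
      obtain ⟨e, he, ok⟩ := (hu _ rfl).mulK (hq _) _ ok
      obtain ⟨e, he, ok⟩ := (hq _).mulK he _ ok
      rw [gl_not] at he
      exact ⟨_, iv_some (by simp [pu]) hm he, ok⟩
    · exact absurd ok (by simp)
  | dp i =>
    simp only [st2] at ok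
    split at ok
    · rename_i m e hi
      obtain ⟨u, pu, gu, hu, -⟩ := hs _ (List.mem_of_getElem? hi)
      obtain ⟨h1, ok⟩ := Bool.and_eq_true_iff.1 ok
      exact ⟨_, iv_none pu gu ((hu _ rfl).high le_rfl h1), ok⟩
    · exact absurd ok (by simp)
  | e6 u v =>
    obtain ⟨m, hm, ok⟩ := cn_enW hg _ _ _ _ ok
    exact ⟨_, iv_none (by rw [map_engel, hy.e6]) hm
      (gam_le_D 5 (gam_mono (by omega) (engel_mem _ 6 0 _ (mem_zero _)))), ok⟩
  | e5 h a b s n =>
    obtain ⟨m, hm, ok⟩ := cn_enW hg _ _ _ _ ok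
    refine ⟨_, iv_none ?_ hm (gam_le_D 5 (engel_mem _ 5 0 _ (mem_zero _))), ok⟩
    obtain ⟨c, hc⟩ := hy.cj a b
    have h1 : π (gl (a, s)) = c * π (gl (b, s)) * c⁻¹ := by cases s <;> simp [gl, hc, mul_assoc]
    rw [map_engel, gw_append, gw_append, gw_iw, gw_rep, gw_rep, map_mul, map_mul, map_inv, map_pow,
      map_pow, h1, conj_pow]
    generalize π (gl (b, s)) ^ n = v
    have h2 := hy.e6 (π (gw h) * c) v
    rw [engel, engel] at h2
    rw [engel, ← h2]
    congr 1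
    simp only [commutatorElement_def]
    group
  | cm i x =>
    simp only [st2] at ok
    split at ok
    · rename_i m hi
      obtain ⟨u, pu, gu, -, hu⟩ := hs _ (List.mem_of_getElem? hi)
      obtain ⟨t, ht, ok⟩ := gu.neg (hu rfl) _ ok
      obtain ⟨t, ht, ok⟩ := (hg (x, true)).cK (hg (x, false)) ht _ ok
      obtain ⟨t, ht, ok⟩ := gu.mK ht _ ok
      exact ⟨_, iv_none (by simp [pu, gl]) ht
        (mul_mem (hu rfl) (D_conj (inv_mem (hu rfl)) (.of x))), ok⟩
    · exact absurd ok (by simp)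

lemma run2_sound (hy : Hy π) (hg : ∀ a, Gd (g a) (gl a)) (hq : ∀ a, Good B5 5 (q a) (gl a))
    {fin : List En → Bool} (os : List Op2) : ∀ st, (∀ a ∈ st, Iv π a) →
    run2 MU g q fin os st = true → ∃ st, (∀ a ∈ st, Iv π a) ∧ fin st = true := by
  induction os with
  | nil => exact fun st hs ok => ⟨st, hs, ok⟩
  | cons o os ih =>
    intro st hs ok
    obtain ⟨a, ha, ok⟩ := st2_sound hy hg hq hs o ok
    exact ih _ (List.forall_mem_cons.2 ⟨ha, hs⟩) ok

/-- A function on letters. -/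
def four {α : Type} (e₁ e₂ e₃ e₄ : α) (a : Bool × Bool) : α :=
  bif a.1 then bif a.2 then e₄ else e₃ else bif a.2 then e₂ else e₁

/-- Run a program from the start. -/
noncomputable def start2 (fin : ℕ → (Bool × Bool → Mt) → (Bool × Bool → Ent) → List En → Bool)
    (os : List Op2) : Bool :=
  fN MU fun μ => mxs μ 1 (genN (false, false)) fun m₁ => mxs μ 1 (genN (false, true)) fun m₂ =>
    mxs μ 1 (genN (true, false)) fun m₃ => mxs μ 1 (genN (true, true)) fun m₄ =>
      fE B5 5 (genE B5 5 (false, false)) fun e₁ => fE B5 5 (genE B5 5 (false, true)) fun e₂ =>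
        fE B5 5 (genE B5 5 (true, false)) fun e₃ => fE B5 5 (genE B5 5 (true, true)) fun e₄ =>
          run2 μ (four m₁ m₂ m₃ m₄) (four e₁ e₂ e₃ e₄)
            (fin μ (four m₁ m₂ m₃ m₄) (four e₁ e₂ e₃ e₄)) os []

lemma start2_sound (hy : Hy π)
    {fin : ℕ → (Bool × Bool → Mt) → (Bool × Bool → Ent) → List En → Bool} {os : List Op2}
    (ok : start2 fin os = true) : ∃ g q st, (∀ a, Gd (g a) (gl a)) ∧
      (∀ a, Good B5 5 (q a) (gl a)) ∧ (∀ a ∈ st, Iv π a) ∧ fin MU g q st = true := by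
  rw [start2, fN_eq] at ok
  obtain ⟨m₁, g₁, ok⟩ := cn_gen _ _ ok
  obtain ⟨m₂, g₂, ok⟩ := cn_gen _ _ ok
  obtain ⟨m₃, g₃, ok⟩ := cn_gen _ _ ok
  obtain ⟨m₄, g₄, ok⟩ := cn_gen _ _ ok
  obtain ⟨e₁, h₁, ok⟩ := (good_gen _).fE ok
  obtain ⟨e₂, h₂, ok⟩ := (good_gen _).fE ok
  obtain ⟨e₃, h₃, ok⟩ := (good_gen _).fE ok
  obtain ⟨e₄, h₄, ok⟩ := (good_gen _).fE ok
  have hg : ∀ a, Gd (four m₁ m₂ m₃ m₄ a) (gl a) := by rintro ⟨_ | _, _ | _⟩ <;> assumption
  have hq : ∀ a, Good B5 5 (four e₁ e₂ e₃ e₄ a) (gl a) := by rintro ⟨_ | _, _ | _⟩ <;> assumption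
  obtain ⟨st, hs, ok⟩ := run2_sound hy hg hq os [] (by simp) ok
  exact ⟨_, _, st, hg, hq, hs, ok⟩

end Pool.Agent.Lib.MP_3b0e0c_al.Y
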