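import Pool.Agent.Lib.MP_3b0e0c_al.MagData

/-! Magnus' theorem for the free group of rank two in weight ten. -/

namespace Pool.Agent.Lib.MP_3b0e0c_al.Y

/-- The word coded by a number. -/
def wM (n : ℕ) : W := wF 12 n

/-- Decoding of dual bases. -/
def dM (a : ℕ × List (ℤ × ℕ)) : W × List (ℤ × W) := (wM a.1, a.2.map fun b => (b.1, wM b.2))

/-- Decoding of relations. -/
def cM (a : ℕ × List (ℤ × ℕ) × List (ℤ × ℕ × ℕ × ℕ)) : Cert :=
  (wM a.1, a.2.1.map fun b => (b.1, wM b.2), a.2.2.map fun b => (b.1, wM b.2.1, wM b.2.2.1, wM b.2.2.2))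

/-- Spanning words. -/
def bs9 : List W := List.map wM [
  1280, 1281, 1282, 1283, 1284, 1285, 1286, 1287, 1288, 1289, 1290, 1291, 1292, 1293, 1294, 1295,
  1297, 1298, 1299, 1300, 1301, 1303, 1305, 1306, 1307, 1308, 1309, 1310, 1316, 1317, 1318, 1319,
  1320, 1321, 1322, 1323, 1324, 1325, 1326, 1327, 1328, 1329, 1330, 1331, 1332, 1333, 1334, 1335,
  1337, 1338, 1339, 1341, 1342, 1362, 1363, 1364, 1365, 1366, 1367, 1369, 1370, 1371, 1372, 1373,
  1374, 1375, 1380, 1381, 1382, 1383, 1386, 1387, 1388, 1389, 1390, 1391, 1396, 1397, 1398, 1399,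
  1401, 1402, 1403, 1404, 1405, 1406, 1407, 1493, 1494, 1495, 1499, 1501, 1502, 1503, 1526, 1527,
  1532, 1533, 1535]

/-- Relations. -/
def cs9 : List Cert := List.map cM [
  (1296, [(4, 1288), (-6, 1284), (4, 1282), (-1, 1281)], [(-1, 40, 40, 1)]),
  (1304, [(-6, 1289), (5, 1297), (4, 1285), (-1, 1283), (3, 1300), (-15, 1298), (-4, 1320), (1, 1328), (6, 1316), (12, 1290), (-4, 1286)], [(1, 41, 40, 1), (4, 20, 20, 5), (-1, 20, 20, 6)]),
  (1336, [(-3, 1321), (2, 1329), (3, 1317), (-3, 1299), (3, 1291), (-1, 1287), (3, 1332), (-3, 1330)], [(1, 41, 41, 1), (1, 20, 20, 7)]),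
  (1368, [(5, 1321), (-5, 1305), (11, 1301), (-2, 1293), (-7, 1317), (5, 1299), (-10, 1291), (4, 1287), (3, 1364), (-3, 1362), (-4, 1322), (1, 1318), (-1, 1332), (1, 1324), (3, 1330)], [(1, 41, 42, 1), (-3, 10, 10, 25), (2, 40, 21, 3), (-2, 21, 20, 6), (3, 10, 10, 26), (-1, 10, 10, 28), (-2, 20, 20, 7), (-1, 41, 41, 1)]),
  (1492, [(-10, 1337), (9, 1369), (15, 1363), (14, 1303), (-10, 1295), (-63, 1323), (10, 1331), (18, 1307), (16, 1319), (-9, 1325), (2, 1309), (-12, 1381), (17, 1333), (3, 1365), (-2, 1372), (3, 1388), (11, 1338), (-18, 1370), (9, 1386), (-14, 1334), (15, 1366), (-6, 1382), (1, 1326), (2, 1310)], [(-1, 41, 46, 1), (3, 11, 10, 25), (6, 5, 5, 101), (-3, 5, 5, 102), (4, 41, 21, 3), (-10, 21, 20, 7), (18, 10, 10, 29), (-6, 10, 10, 30), (-2, 23, 20, 6), (-2, 11, 11, 24), (-2, 5, 5, 99), (1, 11, 10, 26), (2, 5, 5, 105), (-1, 5, 5, 106), (-1, 11, 10, 28), (-2, 5, 5, 113), (1, 5, 5, 114), (-1, 42, 23, 2), (1, 23, 21, 4), (-7, 11, 10, 21), (-14, 5, 5, 85), (7, 5,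 5, 86), (2, 11, 10, 22), (4, 5, 5, 89), (-2, 5, 5, 90), (5, 10, 10, 23), (3, 23, 20, 5), (3, 11, 11, 20), (3, 5, 5, 83), (-6, 21, 21, 5), (1, 43, 41, 1)]),
  (1302, [(-4, 1322), (4, 1306), (1, 1318), (-1, 1364), (11, 1317), (-13, 1301), (-10, 1299), (16, 1291), (-6, 1287), (1, 1324), (-1, 1308), (-5, 1321), (5, 1305), (2, 1293), (3, 1362), (1, 1332), (-3, 1330)], [(1, 42, 42, 1), (4, 10, 10, 21), (-1, 10, 10, 22), (-5, 10, 10, 26), (2, 10, 10, 28), (4, 20, 20, 7), (-1, 10, 10, 19), (-1, 41, 42, 1), (3, 10, 10, 25), (-2, 40, 21, 3), (2, 21, 20, 6), (1, 41, 41, 1)]),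
  (1400, [(4, 1323), (-1, 1331), (-4, 1363), (-2, 1303), (1, 1295), (-1, 1307), (4, 1365), (2, 1381), (2, 1396), (-4, 1386), (-1, 1369), (-2, 1370), (1, 1372), (1, 1382), (1, 1388)], [(1, 21, 20, 7), (-1, 10, 10, 29), (1, 43, 42, 1)]),
  (1340, [(-14, 1323), (5, 1307), (2, 1303), (10, 1365), (-1, 1369), (2, 1363), (-2, 1370), (1, 1372), (2, 1386), (1, 1382), (-1, 1396), (-4, 1381), (-2, 1295), (3, 1331), (1, 1388), (4, 1319), (-2, 1333), (2, 1338), (-6, 1325), (3, 1309), (-6, 1366), (6, 1326), (-3, 1310)], [(1, 43, 42, 1), (5, 10, 10, 29), (-2, 21, 20, 7), (-1, 43, 41, 1), (1, 41, 21, 3), (-2, 10, 10, 30), (-3, 21, 21, 6), (3, 10, 10, 27), (3, 21, 21, 5), (-3, 10, 10, 23)]),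
  (1311, [(4, 1387), (-1, 1383), (-4, 1397), (1, 1401), (-2, 1367), (2, 1327), (2, 1402), (-1, 1404)], [(-1, 43, 43, 1), (1, 21, 21, 7), (-1, 10, 10, 31)]),
  (1500, [(6, 1367), (-6, 1493), (-24, 1373), (3, 1397), (3, 1327), (-10, 1335), (6, 1339), (-3, 1383), (-6, 1390), (-9, 1398), (3, 1402), (-4, 1342), (12, 1374), (6, 1494), (6, 1341), (18, 1389)], [(-3, 43, 46, 1), (-3, 42, 23, 3), (3, 23, 21, 6), (3, 23, 20, 7), (3, 11, 11, 28), (3, 5, 5, 115), (-3, 11, 10, 29), (-6, 5, 5, 117), (3, 5, 5, 118), (1, 11, 10, 30), (2, 5, 5, 121), (-1, 5, 5, 122), (-6, 21, 21, 7), (3, 43, 43, 1), (3, 10, 10, 31), (2, 46, 46, 1), (4, 11, 10, 23), (8, 5, 5, 93), (-4, 5, 5, 94), (-6, 11, 10, 27), (-12, 5, 5, 109), (6, 5, 5, 110)]),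
  (1498, [(-2, 1342), (6, 1374), (-4, 1390), (3, 1494), (-3, 1335), (1, 1367), (1, 1339), (3, 1371), (-3, 1387), (3, 1341), (-11, 1373), (9, 1389), (-2, 1493), (1, 1397), (1, 1327), (-3, 1398), (1, 1402)], [(1, 46, 46, 1), (2, 11, 10, 23), (4, 5, 5, 93), (-2, 5, 5, 94), (-3, 11, 10, 27), (-6, 5, 5, 109), (3, 5, 5, 110), (-1, 43, 46, 1), (-1, 42, 23, 3), (1, 23, 21, 6), (1, 23, 20, 7), (1, 11, 11, 28), (1, 5, 5, 115), (-2, 21, 21, 7), (1, 43, 43, 1), (1, 10, 10, 31)]),
  (1343, [(-3, 1391), (-1, 1399), (3, 1403), (-3, 1405), (-7, 1406), (-12, 1499), (6, 1495), (3, 1375), (10, 1501), (10, 1502), (-6, 1526), (1, 1532)], [(1, 47, 43, 1), (-6, 11, 11, 29), (-6, 5, 5, 119), (2, 11, 11, 30), (2, 5, 5, 123), (-1, 43, 23, 3), (2, 23, 23, 6), (6, 11, 11, 27), (6, 5, 5, 111), (1, 11, 10, 31), (2, 5, 5, 125), (-1, 5, 5, 126), (2, 23, 23, 5), (6, 11, 11, 23), (6, 5, 5, 95)]),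
  (1534, [(-17, 1407), (28, 1503), (-14, 1527), (4, 1533)], [(1, 47, 47, 1), (17, 11, 11, 31), (17, 5, 5, 127), (6, 23, 23, 7)])]

/-- Dual bases. -/
def ds9p1q0 : List (ℕ × List (ℤ × ℕ)) := [
  (1536, [(1, 1280)])]

/-- Dual bases. -/
def ds9p2q0 : List (ℕ × List (ℤ × ℕ)) := [
  (1792, [(35, 1281), (-120, 1282), (140, 1284), (-56, 1288)]),
  (1664, [(15, 1281), (-50, 1282), (56, 1284), (-21, 1288)]),
  (1600, [(5, 1281), (-16, 1282), (17, 1284), (-6, 1288)]),
  (1568, [(1, 1281), (-3, 1282), (3, 1284), (-1, 1288)])]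

/-- Dual bases. -/
def ds9p3q0 : List (ℕ × List (ℤ × ℕ)) := [
  (1920, [(225, 1283), (-1680, 1285), (2730, 1286), (3150, 1289), (-7140, 1290), (-504, 1292), (-2205, 1297), (6195, 1298), (945, 1300), (-2730, 1316), (1260, 1320), (-245, 1328)]),
  (1856, [(95, 1283), (-720, 1285), (1174, 1286), (1350, 1289), (-3060, 1290), (-219, 1292), (-945, 1297), (2655, 1298), (405, 1300), (-1170, 1316), (540, 1320), (-105, 1328)]),
  (1728, [(25, 1283), (-180, 1285), (290, 1286), (330, 1289), (-756, 1290), (-54, 1292), (-235, 1297), (675, 1298), (90, 1300), (-300, 1316), (140, 1320), (-25, 1328)]),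
  (1824, [(31, 1283), (-240, 1285), (393, 1286), (450, 1289), (-1020, 1290), (-74, 1292), (-315, 1297), (885, 1298), (135, 1300), (-390, 1316), (180, 1320), (-35, 1328)]),
  (1696, [(5, 1283), (-34, 1285), (54, 1286), (60, 1289), (-141, 1290), (-9, 1292), (-45, 1297), (135, 1298), (10, 1300), (-60, 1316), (30, 1320), (-5, 1328)]),
  (1632, [(15, 1283), (-100, 1285), (160, 1286), (186, 1289), (-432, 1290), (-24, 1292), (-135, 1297), (390, 1298), (45, 1300), (-170, 1316), (80, 1320), (-15, 1328)]),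
  (1808, [(6, 1283), (-48, 1285), (79, 1286), (90, 1289), (-204, 1290), (-15, 1292), (-63, 1297), (177, 1298), (27, 1300), (-78, 1316), (36, 1320), (-7, 1328)]),
  (1680, [(-1, 1283), (9, 1285), (-15, 1286), (-18, 1289), (38, 1290), (4, 1292), (11, 1297), (-27, 1298), (-10, 1300), (12, 1316), (-4, 1320), (1, 1328)]),
  (1616, [(3, 1283), (-18, 1285), (28, 1286), (33, 1289), (-78, 1290), (-3, 1292), (-25, 1297), (74, 1298), (5, 1300), (-32, 1316), (16, 1320), (-3, 1328)]),
  (1584, [(3, 1283), (-22, 1285), (36, 1286), (42, 1289), (-96, 1290), (-6, 1292), (-30, 1297), (84, 1298), (12, 1300), (-36, 1316), (16, 1320), (-3, 1328)]),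
  (1672, [(-1, 1283), (8, 1285), (-13, 1286), (-15, 1289), (33, 1290), (3, 1292), (10, 1297), (-27, 1298), (-6, 1300), (12, 1316), (-5, 1320), (1, 1328)]),
  (1608, [(1, 1285), (-2, 1286), (-2, 1289), (4, 1290), (1, 1292), (1, 1297), (-2, 1298), (-2, 1300), (1, 1316)])]

/-- Dual bases. -/
def ds9p4q0 : List (ℕ × List (ℤ × ℕ)) := [
  (1984, [(5640, 1287), (-15000, 1291), (-2160, 1293), (504, 1294), (9330, 1299), (12960, 1301), (-4860, 1305), (-4320, 1306), (855, 1308), (-10320, 1317), (-1440, 1318), (3840, 1321), (6480, 1322), (-720, 1324), (560, 1329), (2040, 1330), (-960, 1332), (-3240, 1362), (540, 1364), (270, 1380)]),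
  (1952, [(3226, 1287), (-8580, 1291), (-1260, 1293), (339, 1294), (5340, 1299), (7380, 1301), (-2700, 1305), (-2520, 1306), (385, 1308), (-5790, 1317), (-990, 1318), (2010, 1321), (3960, 1322), (-270, 1324), (370, 1329), (1020, 1330), (-480, 1332), (-1800, 1362), (180, 1364), (180, 1380)]),
  (1888, [(1250, 1287), (-3324, 1291), (-510, 1293), (174, 1294), (2070, 1299), (2835, 1301), (-975, 1305), (-1020, 1306), (60, 1308), (-2145, 1317), (-525, 1318), (615, 1321), (1740, 1322), (25, 1324), (180, 1329), (285, 1330), (-135, 1332), (-645, 1362), (-45, 1364), (90, 1380)]),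
  (1760, [(90, 1287), (-240, 1291), (-54, 1293), (54, 1294), (150, 1299), (180, 1301), (-135, 1306), (-75, 1308), (-60, 1317), (-180, 1318), (-120, 1321), (360, 1322), (120, 1324), (50, 1329), (-90, 1330), (40, 1332), (-120, 1364), (30, 1380)]),
  (1936, [(1453, 1287), (-3864, 1291), (-576, 1293), (170, 1294), (2406, 1299), (3312, 1301), (-1188, 1305), (-1152, 1306), (137, 1308), (-2568, 1317), (-504, 1318), (840, 1321), (1872, 1322), (-72, 1324), (184, 1329), (408, 1330), (-192, 1332), (-792, 1362), (36, 1364), (90, 1380)]),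
  (1872, [(614, 1287), (-1633, 1291), (-254, 1293), (93, 1294), (1018, 1299), (1387, 1301), (-467, 1305), (-508, 1306), (14, 1308), (-1037, 1317), (-283, 1318), (275, 1321), (892, 1322), (33, 1324), (96, 1329), (117, 1330), (-55, 1332), (-309, 1362), (-41, 1364), (48, 1380)]),
  (1744, [(90, 1287), (-240, 1291), (-45, 1293), (33, 1294), (150, 1299), (192, 1301), (-36, 1305), (-103, 1306), (-35, 1308), (-108, 1317), (-108, 1318), (-36, 1321), (240, 1322), (60, 1324), (32, 1329), (-36, 1330), (16, 1332), (-24, 1362), (-60, 1364), (18, 1380)]),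
  (1840, [(158, 1287), (-420, 1291), (-60, 1293), (12, 1294), (261, 1299), (366, 1301), (-138, 1305), (-120, 1306), (27, 1308), (-294, 1317), (-34, 1318), (114, 1321), (168, 1322), (-22, 1324), (12, 1329), (66, 1330), (-30, 1332), (-90, 1362), (18, 1364), (6, 1380)]),
  (1712, [(18, 1287), (-48, 1291), (-12, 1293), (12, 1294), (30, 1299), (36, 1301), (3, 1305), (-27, 1306), (-18, 1308), (-9, 1317), (-39, 1318), (-27, 1321), (68, 1322), (31, 1324), (8, 1329), (-15, 1330), (7, 1332), (3, 1362), (-27, 1364), (6, 1380)]),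
  (1648, [(54, 1287), (-144, 1291), (-24, 1293), (12, 1294), (90, 1299), (120, 1301), (-33, 1305), (-54, 1306), (-3, 1308), (-84, 1317), (-36, 1318), (12, 1321), (96, 1322), (12, 1324), (8, 1329), (8, 1330), (-4, 1332), (-24, 1362), (-12, 1364), (6, 1380)]),
  (1928, [(404, 1287), (-1074, 1291), (-162, 1293), (51, 1294), (669, 1299), (918, 1301), (-324, 1305), (-324, 1306), (30, 1308), (-705, 1317), (-153, 1318), (219, 1321), (540, 1322), (-9, 1324), (55, 1329), (102, 1330), (-48, 1332), (-216, 1362), (27, 1380)]),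
  (1864, [(182, 1287), (-484, 1291), (-76, 1293), (29, 1294), (302, 1299), (410, 1301), (-136, 1305), (-152, 1306), (1, 1308), (-304, 1317), (-89, 1318), (76, 1321), (272, 1322), (14, 1324), (30, 1329), (30, 1330), (-14, 1332), (-90, 1362), (-16, 1364), (15, 1380)]),
  (1736, [(36, 1287), (-96, 1291), (-17, 1293), (11, 1294), (60, 1299), (78, 1301), (-18, 1305), (-38, 1306), (-10, 1308), (-48, 1317), (-36, 1318), (-6, 1321), (84, 1322), (18, 1324), (11, 1329), (-9, 1330), (4, 1332), (-12, 1362), (-18, 1364), (6, 1380)]),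
  (1832, [(56, 1287), (-149, 1291), (-22, 1293), (6, 1294), (93, 1299), (128, 1301), (-46, 1305), (-44, 1306), (6, 1308), (-100, 1317), (-18, 1318), (34, 1321), (68, 1322), (-3, 1324), (6, 1329), (18, 1330), (-8, 1332), (-30, 1362), (2, 1364), (3, 1380)])]

/-- Dual bases. -/
def ds9p4q1 : List (ℕ × List (ℤ × ℕ)) := [
  (1704, [(24, 1287), (-64, 1291), (-11, 1293), (6, 1294), (40, 1299), (53, 1301), (-14, 1305), (-23, 1306), (-4, 1308), (-35, 1317), (-19, 1318), (2, 1321), (45, 1322), (9, 1324), (5, 1329), (-9, 1362), (-8, 1364), (3, 1380)]),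
  (1640, [(27, 1287), (-72, 1291), (-12, 1293), (6, 1294), (45, 1299), (60, 1301), (-17, 1305), (-26, 1306), (-2, 1308), (-42, 1317), (-18, 1318), (6, 1321), (48, 1322), (6, 1324), (5, 1329), (2, 1330), (-1, 1332), (-12, 1362), (-6, 1364), (3, 1380)]),
  (1688, [(-27, 1287), (72, 1291), (9, 1293), (-45, 1299), (-63, 1301), (27, 1305), (18, 1306), (-9, 1308), (55, 1317), (-1, 1318), (-27, 1321), (-20, 1322), (11, 1324), (-1, 1329), (-15, 1330), (7, 1332), (18, 1362), (-9, 1364)]),
  (1624, [(-9, 1287), (24, 1291), (3, 1293), (-15, 1299), (-21, 1301), (9, 1305), (6, 1306), (-3, 1308), (18, 1317), (-8, 1321), (-8, 1322), (4, 1324), (-1, 1329), (-4, 1330), (2, 1332), (6, 1362), (-3, 1364)]),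
  (1828, [(-9, 1287), (24, 1291), (4, 1293), (-2, 1294), (-15, 1299), (-20, 1301), (6, 1305), (8, 1306), (1, 1308), (14, 1317), (6, 1318), (-2, 1321), (-16, 1322), (-2, 1324), (-2, 1329), (4, 1362), (2, 1364), (-1, 1380)]),
  (1700, [(3, 1287), (-8, 1291), (-1, 1293), (5, 1299), (7, 1301), (-3, 1305), (-2, 1306), (1, 1308), (-6, 1317), (3, 1321), (2, 1322), (-1, 1324), (2, 1330), (-1, 1332), (-2, 1362), (1, 1364)])]

/-- Dual bases. -/
def ds9p5q0 : List (ℕ × List (ℤ × ℕ)) := [
  (2016, [(11986, 1295), (-16780, 1303), (-20470, 1307), (-6450, 1309), (1035, 1310), (-19160, 1319), (74740, 1323), (12900, 1325), (-2340, 1326), (-12330, 1331), (-9140, 1333), (4440, 1337), (260, 1338), (-17980, 1363), (-11420, 1365), (-2460, 1366), (-3970, 1369), (6460, 1370), (-830, 1372), (13640, 1381), (4690, 1382), (-7660, 1386), (370, 1388), (470, 1396)]),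
  (2000, [(4795, 1295), (-6712, 1303), (-8188, 1307), (-2580, 1309), (413, 1310), (-7664, 1319), (29896, 1323), (5160, 1325), (-936, 1326), (-4932, 1331), (-3656, 1333), (1776, 1337), (104, 1338), (-7192, 1363), (-4568, 1365), (-984, 1366), (-1588, 1369), (2584, 1370), (-332, 1372), (5456, 1381), (1876, 1382), (-3064, 1386), (148, 1388), (188, 1396)]),
  (1968, [(2734, 1295), (-3829, 1303), (-4672, 1307), (-1464, 1309), (231, 1310), (-4370, 1319), (17056, 1323), (2928, 1325), (-520, 1326), (-2808, 1331), (-2096, 1333), (1020, 1337), (56, 1338), (-4108, 1363), (-2576, 1365), (-588, 1366), (-916, 1369), (1480, 1370), (-188, 1372), (3104, 1381), (1078, 1382), (-1744, 1386), (88, 1388), (104, 1396)]),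
  (1904, [(2206, 1295), (-3094, 1303), (-3769, 1307), (-1176, 1309), (183, 1310), (-3524, 1319), (13768, 1323), (2352, 1325), (-408, 1326), (-2262, 1331), (-1712, 1333), (8, 1334), (840, 1337), (32, 1338), (-3322, 1363), (-2048, 1365), (-504, 1366), (-760, 1369), (1216, 1370), (-152, 1372), (2504, 1381), (874, 1382), (-1408, 1386), (76, 1388), (80, 1396)]),
  (1776, [(1330, 1295), (-1870, 1303), (-2266, 1307), (-711, 1309), (111, 1310), (-2120, 1319), (8296, 1323), (1416, 1325), (-240, 1326), (-1362, 1331), (-1040, 1333), (516, 1337), (16, 1338), (-2008, 1363), (-1220, 1365), (-312, 1366), (-472, 1369), (748, 1370), (-98, 1372), (1514, 1381), (526, 1382), (-856, 1386), (58, 1388), (44, 1396)]),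
  (1992, [(1199, 1295), (-1678, 1303), (-2047, 1307), (-645, 1309), (103, 1310), (-1916, 1319), (7474, 1323), (1290, 1325), (-234, 1326), (-1233, 1331), (-914, 1333), (444, 1337), (26, 1338), (-1798, 1363), (-1142, 1365), (-246, 1366), (-397, 1369), (646, 1370), (-83, 1372), (1364, 1381), (469, 1382), (-766, 1386), (37, 1388), (47, 1396)]),
  (1960, [(469, 1295), (-657, 1303), (-802, 1307), (-249, 1309), (38, 1310), (-749, 1319), (2926, 1323), (498, 1325), (-85, 1326), (-480, 1331), (-362, 1333), (177, 1337), (8, 1338), (-706, 1363), (-434, 1365), (-108, 1366), (-160, 1369), (256, 1370), (-32, 1372), (530, 1381), (187, 1382), (-298, 1386), (16, 1388), (17, 1396)]),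
  (1896, [(505, 1295), (-709, 1303), (-864, 1307), (-267, 1309), (41, 1310), (-806, 1319), (3154, 1323), (534, 1325), (-90, 1326), (-516, 1331), (-398, 1333), (5, 1334), (198, 1337), (2, 1338), (-763, 1363), (-458, 1365), (-126, 1366), (-181, 1369), (286, 1370), (-35, 1372), (572, 1381), (202, 1382), (-322, 1386), (19, 1388), (17, 1396)]),
  (1768, [(367, 1295), (-517, 1303), (-625, 1307), (-197, 1309), (32, 1310), (-584, 1319), (2290, 1323), (390, 1325), (-66, 1326), (-375, 1331), (-290, 1333), (147, 1337), (1, 1338), (-556, 1363), (-332, 1365), (-90, 1366), (-136, 1369), (214, 1370), (-29, 1372), (419, 1381), (145, 1382), (-238, 1386), (19, 1388), (11, 1396)]),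
  (1944, [(769, 1295), (-1078, 1303), (-1315, 1307), (-411, 1309), (66, 1310), (-1228, 1319), (4798, 1323), (822, 1325), (-146, 1326), (-789, 1331), (-590, 1333), (288, 1337), (14, 1338), (-1156, 1363), (-722, 1365), (-168, 1366), (-259, 1369), (418, 1370), (-53, 1372), (872, 1381), (304, 1382), (-490, 1386), (25, 1388), (29, 1396)]),
  (1880, [(553, 1295), (-775, 1303), (-946, 1307), (-294, 1309), (45, 1310), (-884, 1319), (3452, 1323), (588, 1325), (-100, 1326), (-567, 1331), (-428, 1333), (2, 1334), (210, 1337), (8, 1338), (-832, 1363), (-512, 1365), (-129, 1366), (-190, 1369), (304, 1370), (-38, 1372), (626, 1381), (220, 1382), (-352, 1386), (19, 1388), (20, 1396)]),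
  (1752, [(313, 1295), (-439, 1303), (-535, 1307), (-168, 1309), (27, 1310), (-500, 1319), (1954, 1323), (334, 1325), (-58, 1326), (-321, 1331), (-242, 1333), (120, 1337), (4, 1338), (-472, 1363), (-290, 1365), (-72, 1366), (-109, 1369), (175, 1370), (-23, 1372), (356, 1381), (124, 1382), (-202, 1386), (13, 1388), (11, 1396)]),
  (1848, [(553, 1295), (-775, 1303), (-943, 1307), (-294, 1309), (42, 1310), (-884, 1319), (3448, 1323), (588, 1325), (-96, 1326), (-569, 1331), (-428, 1333), (4, 1334), (210, 1337), (8, 1338), (-829, 1363), (-512, 1365), (-132, 1366), (-190, 1369), (304, 1370), (-38, 1372), (626, 1381), (220, 1382), (-352, 1386), (19, 1388), (20, 1396)]),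
  (1720, [(292, 1295), (-409, 1303), (-499, 1307), (-156, 1309), (24, 1310), (-467, 1319), (1822, 1323), (312, 1325), (-54, 1326), (-300, 1331), (-226, 1333), (2, 1334), (111, 1337), (4, 1338), (-439, 1363), (-272, 1365), (-66, 1366), (-100, 1369), (160, 1370), (-20, 1372), (332, 1381), (115, 1382), (-187, 1386), (10, 1388), (11, 1396)])]

/-- Dual bases. -/
def ds9p5q1 : List (ℕ × List (ℤ × ℕ)) := [
  (1656, [(298, 1295), (-418, 1303), (-508, 1307), (-159, 1309), (24, 1310), (-476, 1319), (1858, 1323), (318, 1325), (-54, 1326), (-306, 1331), (-230, 1333), (112, 1337), (6, 1338), (-448, 1363), (-278, 1365), (-66, 1366), (-100, 1369), (160, 1370), (-20, 1372), (338, 1381), (118, 1382), (-190, 1386), (10, 1388), (11, 1396)]),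
  (1956, [(-143, 1295), (200, 1303), (244, 1307), (78, 1309), (-13, 1310), (229, 1319), (-892, 1323), (-156, 1325), (30, 1326), (148, 1331), (108, 1333), (-52, 1337), (-4, 1338), (214, 1363), (140, 1365), (26, 1366), (46, 1369), (-76, 1370), (10, 1372), (-164, 1381), (-55, 1382), (92, 1386), (-4, 1388), (-6, 1396)]),
  (1892, [(-31, 1295), (43, 1303), (52, 1307), (18, 1309), (-3, 1310), (50, 1319), (-192, 1323), (-36, 1325), (8, 1326), (33, 1331), (20, 1333), (2, 1334), (-8, 1337), (-4, 1338), (45, 1363), (36, 1365), (6, 1369), (-12, 1370), (2, 1372), (-36, 1381), (-11, 1382), (20, 1386), (-2, 1396)]),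
  (1764, [(23, 1295), (-33, 1303), (-39, 1307), (-13, 1309), (3, 1310), (-36, 1319), (144, 1323), (24, 1325), (-4, 1326), (-23, 1331), (-20, 1333), (12, 1337), (-2, 1338), (-36, 1363), (-18, 1365), (-8, 1366), (-12, 1369), (18, 1370), (-3, 1372), (27, 1381), (9, 1382), (-16, 1386), (3, 1388)]),
  (1940, [(-43, 1295), (60, 1303), (73, 1307), (24, 1309), (-4, 1310), (69, 1319), (-268, 1323), (-48, 1325), (10, 1326), (45, 1331), (32, 1333), (-15, 1337), (-2, 1338), (64, 1363), (44, 1365), (6, 1366), (13, 1369), (-22, 1370), (3, 1372), (-50, 1381), (-16, 1382), (28, 1386), (-1, 1388), (-2, 1396)]),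
  (1876, [(-15, 1295), (21, 1303), (25, 1307), (9, 1309), (-2, 1310), (24, 1319), (-93, 1323), (-18, 1325), (5, 1326), (16, 1331), (10, 1333), (1, 1334), (-4, 1337), (-2, 1338), (22, 1363), (18, 1365), (-1, 1366), (3, 1369), (-6, 1370), (1, 1372), (-18, 1381), (-5, 1382), (10, 1386), (-1, 1396)]),
  (1748, [(5, 1295), (-7, 1303), (-9, 1307), (-3, 1309), (1, 1310), (-8, 1319), (32, 1323), (5, 1325), (-1, 1326), (-5, 1331), (-4, 1333), (3, 1337), (-1, 1338), (-8, 1363), (-4, 1365), (-2, 1366), (-3, 1369), (5, 1370), (-1, 1372), (6, 1381), (2, 1382), (-4, 1386), (1, 1388)]),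
  (1844, [(-15, 1295), (21, 1303), (26, 1307), (9, 1309), (-3, 1310), (24, 1319), (-94, 1323), (-18, 1325), (6, 1326), (15, 1331), (10, 1333), (2, 1334), (-4, 1337), (-2, 1338), (23, 1363), (18, 1365), (-2, 1366), (3, 1369), (-6, 1370), (1, 1372), (-18, 1381), (-5, 1382), (10, 1386), (-1, 1396)]),
  (1716, [(-2, 1295), (3, 1303), (3, 1307), (1, 1309), (3, 1319), (-12, 1323), (-2, 1325), (2, 1331), (1, 1333), (1, 1334), (-1, 1338), (3, 1363), (2, 1365), (-2, 1381), (-1, 1382), (1, 1386)]),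
  (1740, [(5, 1295), (-7, 1303), (-9, 1307), (-2, 1309), (-8, 1319), (32, 1323), (4, 1325), (-5, 1331), (-4, 1333), (2, 1337), (-8, 1363), (-4, 1365), (-2, 1366), (-2, 1369), (4, 1370), (-1, 1372), (6, 1381), (2, 1382), (-4, 1386), (1, 1388)]),
  (1708, [(-2, 1295), (3, 1303), (3, 1307), (1, 1309), (3, 1319), (-12, 1323), (-2, 1325), (2, 1331), (2, 1333), (-1, 1337), (3, 1363), (1, 1365), (1, 1366), (1, 1369), (-1, 1370), (-2, 1381), (-1, 1382), (1, 1386)])]

/-- Dual bases. -/
def ds9p6q0 : List (ℕ × List (ℤ × ℕ)) := [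
  (2032, [(234, 1327), (-960, 1335), (720, 1339), (360, 1341), (-112, 1342), (1206, 1367), (-1440, 1371), (-1080, 1373), (360, 1374), (-1017, 1383), (1908, 1387), (720, 1389), (-360, 1390), (-1008, 1397), (60, 1398), (387, 1401), (594, 1402), (-333, 1404), (-360, 1493), (120, 1494)]),
  (2024, [(116, 1327), (-480, 1335), (360, 1339), (180, 1341), (-55, 1342), (604, 1367), (-720, 1371), (-540, 1373), (180, 1374), (-508, 1383), (952, 1387), (360, 1389), (-180, 1390), (-502, 1397), (30, 1398), (193, 1401), (296, 1402), (-166, 1404), (-180, 1493), (60, 1494)]),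
  (2008, [(94, 1327), (-384, 1335), (288, 1339), (180, 1341), (-82, 1342), (480, 1367), (-576, 1371), (-540, 1373), (255, 1374), (-390, 1383), (708, 1387), (360, 1389), (-192, 1390), (-270, 1397), (-54, 1398), (120, 1401), (210, 1402), (-111, 1404), (-180, 1493), (84, 1494)]),
  (1976, [(114, 1327), (-458, 1335), (342, 1339), (252, 1341), (-136, 1342), (570, 1367), (-684, 1371), (-756, 1373), (414, 1374), (-453, 1383), (798, 1387), (504, 1389), (-279, 1390), (-204, 1397), (-138, 1398), (114, 1401), (228, 1402), (-114, 1404), (-252, 1493), (138, 1494)]),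
  (1912, [(126, 1327), (-504, 1335), (376, 1339), (288, 1341), (-160, 1342), (630, 1367), (-756, 1371), (-864, 1373), (486, 1374), (-501, 1383), (876, 1387), (576, 1389), (-324, 1390), (-204, 1397), (-165, 1398), (123, 1401), (246, 1402), (-123, 1404), (-288, 1493), (162, 1494)]),
  (1784, [(96, 1327), (-384, 1335), (288, 1339), (214, 1341), (-118, 1342), (480, 1367), (-576, 1371), (-648, 1373), (360, 1374), (-384, 1383), (672, 1387), (432, 1389), (-240, 1390), (-168, 1397), (-120, 1398), (99, 1401), (189, 1402), (-96, 1404), (-216, 1493), (120, 1494)]),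
  (2020, [(38, 1327), (-160, 1335), (120, 1339), (60, 1341), (-18, 1342), (202, 1367), (-240, 1371), (-180, 1373), (60, 1374), (-169, 1383), (316, 1387), (120, 1389), (-60, 1390), (-166, 1397), (10, 1398), (64, 1401), (98, 1402), (-55, 1404), (-60, 1493), (20, 1494)]),
  (2004, [(31, 1327), (-128, 1335), (96, 1339), (60, 1341), (-27, 1342), (160, 1367), (-192, 1371), (-180, 1373), (85, 1374), (-130, 1383), (236, 1387), (120, 1389), (-64, 1390), (-90, 1397), (-18, 1398), (40, 1401), (70, 1402), (-37, 1404), (-60, 1493), (28, 1494)]),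
  (1972, [(38, 1327), (-153, 1335), (114, 1339), (84, 1341), (-45, 1342), (190, 1367), (-228, 1371), (-252, 1373), (138, 1374), (-151, 1383), (266, 1387), (168, 1389), (-93, 1390), (-68, 1397), (-46, 1398), (38, 1401), (76, 1402), (-38, 1404), (-84, 1493), (46, 1494)]),
  (1908, [(42, 1327), (-168, 1335), (125, 1339), (96, 1341), (-53, 1342), (210, 1367), (-252, 1371), (-288, 1373), (162, 1374), (-167, 1383), (292, 1387), (192, 1389), (-108, 1390), (-68, 1397), (-55, 1398), (41, 1401), (82, 1402), (-41, 1404), (-96, 1493), (54, 1494)]),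
  (1780, [(32, 1327), (-128, 1335), (96, 1339), (71, 1341), (-39, 1342), (160, 1367), (-192, 1371), (-216, 1373), (120, 1374), (-128, 1383), (224, 1387), (144, 1389), (-80, 1390), (-56, 1397), (-40, 1398), (33, 1401), (63, 1402), (-32, 1404), (-72, 1493), (40, 1494)]),
  (1996, [(-32, 1327), (128, 1335), (-96, 1339), (-84, 1341), (52, 1342), (-162, 1367), (192, 1371), (252, 1373), (-154, 1374), (125, 1383), (-208, 1387), (-168, 1389), (96, 1390), (18, 1397), (62, 1398), (-23, 1401), (-56, 1402), (26, 1404), (84, 1493), (-52, 1494)]),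
  (1964, [(6, 1327), (-24, 1335), (18, 1339), (12, 1341), (-6, 1342), (29, 1367), (-36, 1371), (-36, 1373), (19, 1374), (-23, 1383), (42, 1387), (24, 1389), (-13, 1390), (-12, 1397), (-6, 1398), (6, 1401), (12, 1402), (-6, 1404), (-12, 1493), (6, 1494)]),
  (1900, [(14, 1327), (-56, 1335), (42, 1339), (32, 1341), (-18, 1342), (70, 1367), (-85, 1371), (-96, 1373), (55, 1374), (-55, 1383), (96, 1387), (64, 1389), (-36, 1390), (-20, 1397), (-19, 1398), (13, 1401), (26, 1402), (-13, 1404), (-32, 1493), (18, 1494)])]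

/-- Dual bases. -/
def ds9p6q1 : List (ℕ × List (ℤ × ℕ)) := [
  (1772, [(16, 1327), (-64, 1335), (48, 1339), (36, 1341), (-20, 1342), (80, 1367), (-96, 1371), (-109, 1373), (61, 1374), (-64, 1383), (112, 1387), (72, 1389), (-40, 1390), (-28, 1397), (-20, 1398), (17, 1401), (31, 1402), (-16, 1404), (-36, 1493), (20, 1494)]),
  (1884, [(10, 1327), (-40, 1335), (30, 1339), (24, 1341), (-14, 1342), (50, 1367), (-60, 1371), (-72, 1373), (42, 1374), (-39, 1383), (67, 1387), (48, 1389), (-27, 1390), (-12, 1397), (-15, 1398), (9, 1401), (18, 1402), (-9, 1404), (-24, 1493), (14, 1494)]),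
  (1756, [(14, 1327), (-56, 1335), (42, 1339), (32, 1341), (-18, 1342), (70, 1367), (-84, 1371), (-96, 1373), (54, 1374), (-56, 1383), (98, 1387), (63, 1389), (-35, 1390), (-24, 1397), (-18, 1398), (15, 1401), (27, 1402), (-14, 1404), (-32, 1493), (18, 1494)]),
  (1724, [(8, 1327), (-32, 1335), (24, 1339), (18, 1341), (-10, 1342), (40, 1367), (-48, 1371), (-54, 1373), (30, 1374), (-32, 1383), (56, 1387), (36, 1389), (-20, 1390), (-15, 1397), (-9, 1398), (9, 1401), (15, 1402), (-8, 1404), (-18, 1493), (10, 1494)]),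
  (1962, [(4, 1327), (-16, 1335), (12, 1339), (9, 1341), (-5, 1342), (20, 1367), (-24, 1371), (-27, 1373), (15, 1374), (-16, 1383), (28, 1387), (18, 1389), (-10, 1390), (-7, 1397), (-5, 1398), (4, 1401), (8, 1402), (-4, 1404), (-9, 1493), (5, 1494)]),
  (1898, [(1, 1327), (-4, 1335), (3, 1339), (2, 1341), (-1, 1342), (5, 1367), (-6, 1371), (-6, 1373), (3, 1374), (-4, 1383), (7, 1387), (4, 1389), (-2, 1390), (-2, 1397), (-1, 1398), (1, 1401), (2, 1402), (-1, 1404), (-2, 1493), (1, 1494)])]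

/-- Dual bases. -/
def ds9p7q0 : List (ℕ × List (ℤ × ℕ)) := [
  (2040, [(1722, 1375), (-8526, 1391), (17318, 1399), (-14154, 1403), (1806, 1405), (-7651, 1406), (-588, 1495), (-3864, 1499), (9520, 1501), (10780, 1502), (-7980, 1526), (1618, 1532)]),
  (2036, [(573, 1375), (-2841, 1391), (5773, 1399), (-4719, 1403), (603, 1405), (-2548, 1406), (-198, 1495), (-1284, 1499), (3170, 1501), (3590, 1502), (-2658, 1526), (539, 1532)]),
  (2028, [(383, 1375), (-1896, 1391), (3848, 1399), (-3144, 1403), (400, 1405), (-1703, 1406), (-128, 1495), (-864, 1499), (2120, 1501), (2400, 1502), (-1776, 1526), (360, 1532)]),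
  (2012, [(348, 1375), (-1719, 1391), (3486, 1399), (-2850, 1403), (366, 1405), (-1543, 1406), (-116, 1495), (-780, 1499), (1916, 1501), (2174, 1502), (-1608, 1526), (326, 1532)]),
  (1980, [(276, 1375), (-1362, 1391), (2763, 1399), (-2262, 1403), (294, 1405), (-1221, 1406), (-94, 1495), (-612, 1499), (1512, 1501), (1720, 1502), (-1272, 1526), (258, 1532)]),
  (1916, [(186, 1375), (-918, 1391), (1864, 1399), (-1527, 1403), (198, 1405), (-823, 1406), (-64, 1495), (-412, 1499), (1020, 1501), (1160, 1502), (-858, 1526), (174, 1532)]),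
  (1788, [(96, 1375), (-474, 1391), (962, 1399), (-786, 1403), (99, 1405), (-425, 1406), (-32, 1495), (-216, 1499), (530, 1501), (600, 1502), (-444, 1526), (90, 1532)]),
  (2026, [(-48, 1375), (237, 1391), (-481, 1399), (393, 1403), (-50, 1405), (213, 1406), (16, 1495), (108, 1499), (-265, 1501), (-300, 1502), (222, 1526), (-45, 1532)]),
  (2010, [(-18, 1375), (89, 1391), (-181, 1399), (147, 1403), (-17, 1405), (80, 1406), (6, 1495), (42, 1499), (-102, 1501), (-113, 1502), (84, 1526), (-17, 1532)]),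
  (1978, [(-6, 1375), (30, 1391), (-61, 1399), (48, 1403), (-3, 1405), (28, 1406), (1, 1495), (18, 1499), (-39, 1501), (-40, 1502), (30, 1526), (-6, 1532)]),
  (1914, [(-3, 1375), (15, 1391), (-30, 1399), (23, 1403), (-1, 1405), (14, 1406), (10, 1499), (-20, 1501), (-20, 1502), (15, 1526), (-3, 1532)]),
  (1974, [(1, 1375), (-5, 1391), (10, 1399), (-8, 1403), (1, 1405), (-5, 1406), (-3, 1499), (6, 1501), (7, 1502), (-5, 1526), (1, 1532)])]

/-- Dual bases. -/
def ds9p8q0 : List (ℕ × List (ℤ × ℕ)) := [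
  (2044, [(-175, 1407), (280, 1503), (-126, 1527), (20, 1533)]),
  (2042, [(-87, 1407), (140, 1503), (-63, 1527), (10, 1533)]),
  (2038, [(-34, 1407), (55, 1503), (-25, 1527), (4, 1533)]),
  (2030, [(-8, 1407), (13, 1503), (-6, 1527), (1, 1533)])]

/-- Dual bases. -/
def ds9p9q0 : List (ℕ × List (ℤ × ℕ)) := [
  (2046, [(1, 1535)])]

/-- Dual bases. -/
def ds9 : List (W × List (ℤ × W)) := List.map dM (List.flatten [
  ds9p1q0, ds9p2q0, ds9p3q0, ds9p4q0, ds9p4q1, ds9p5q0, ds9p5q1, ds9p6q0, ds9p6q1, ds9p7q0,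
  ds9p8q0, ds9p9q0])

lemma step_split {n : ℕ} {bs bs' : List W} {cs : List Cert} (j k : ℕ)
    (h1 : stepOK n ((bs.drop j).take k) bs' cs = true)
    (h2 : stepOK n (bs.drop (j + k)) bs' cs = true) : stepOK n (bs.drop j) bs' cs = true := by
  rw [← List.take_append_drop k (bs.drop j), List.drop_drop, stepOK, List.all_append,
    Bool.and_eq_true]
  exact ⟨h1, h2⟩

lemma cth_count : ∀ r m : W, cth r m ≠ 0 → r.count true = m.count true
  | [], _, h => absurd rfl h
  | [x], m, h => by
    rw [cth] at h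
    split_ifs at h with e
    · rw [e]
    · exact absurd rfl h
  | x :: y :: r, m, h => by
    rw [cth] at h
    by_cases h1 : m.getLast? = some x ∧ cth (y :: r) m.dropLast ≠ 0
    · rw [← List.dropLast_append_getLast? x h1.1, List.count_append, ← cth_count _ _ h1.2,
        List.count_cons, List.count_singleton]
    · have h2 : m.head? = some x ∧ cth (y :: r) m.tail ≠ 0 := by
        by_contra h2
        apply h
        split_ifs <;> simp_all
      rw [← List.cons_head?_tail h2.1, List.count_cons, List.count_cons (l := m.tail),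
        ← cth_count _ _ h2.2]

/-- Evaluate a word before continuing. -/
noncomputable def fP {α : Type} (w : W) : (W → α) → α :=
  List.rec (fun k => k []) (fun x _ ih k =>
    Bool.rec (ih fun l => k (false :: l)) (ih fun l => k (true :: l)) x) w

lemma fP_eq {α : Type} (w : W) : ∀ k : W → α, fP w k = k w := by
  induction w with
  | nil => intro k; rfl
  | cons x w ih => intro k; cases x <;> exact ih _

/-- The function `cth` on evaluated words. -/
noncomputable def cq (r : W) : W → ℤ :=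
  List.rec (fun _ => 0) (fun x r ih m => List.rec (if m = [x] then 1 else 0) (fun _ _ _ =>
    (if m.getLast? = some x then fP m.dropLast ih else 0) -
      if m.head? = some x then fP m.tail ih else 0) r) r

lemma cq_eq : ∀ r m : W, cq r m = cth r m
  | [], _ => rfl
  | [_], _ => rfl
  | x :: y :: r, m => by
    rw [cth, ← cq_eq (y :: r), ← cq_eq (y :: r), ← fP_eq m.dropLast (cq (y :: r)),
      ← fP_eq m.tail (cq (y :: r))]
    rfl

/-- Check of the dual basis, degree by degree. -/
noncomputable def dualF (n : ℕ) (ds : List (W × List (ℤ × W))) (bs : List W) : Bool :=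
  bs.all fun w => fP w fun w => decide (w.length = n + 1) && isZ (ins (-1) w
    (dT (fun m => if w.count true = m.count true then fP m (cq w) else 0) ds))

lemma dualF_ok {n : ℕ} {bs : List W} {ds : List (W × List (ℤ × W))}
    (h1 : ds.all (fun a => decide (a.1.length = n + 1)) = true) (h2 : dualF n ds bs = true) :
    dualOK n bs ds = true := by
  have h : ∀ w : W, (fun m : W => if w.count true = m.count true then cth w m else 0) = cth w :=
    fun w => funext fun m => by
      split_ifs with e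
      · rfl
      · exact (not_not.1 (mt (cth_count w m) e)).symm
  simp only [dualF, fP_eq, cq_eq, h] at h2
  rw [dualOK, h1, h2]
  rfl

lemma dual_split {n : ℕ} {bs : List W} {ds : List (W × List (ℤ × W))} (j k : ℕ)
    (h1 : dualF n ds ((bs.drop j).take k) = true) (h2 : dualF n ds (bs.drop (j + k)) = true) :
    dualF n ds (bs.drop j) = true := by
  rw [← List.take_append_drop k (bs.drop j), List.drop_drop, dualF, List.all_append,
    Bool.and_eq_true]
  exact ⟨h1, h2⟩

lemma sp0 : stepOK 8 ((bs8.drop 0).take 4) bs9 cs9 = true := by decide +kernel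
lemma sp1 : stepOK 8 ((bs8.drop 4).take 4) bs9 cs9 = true := by decide +kernel
lemma sp2 : stepOK 8 ((bs8.drop 8).take 4) bs9 cs9 = true := by decide +kernel
lemma sp3 : stepOK 8 ((bs8.drop 12).take 4) bs9 cs9 = true := by decide +kernel
lemma sp4 : stepOK 8 ((bs8.drop 16).take 4) bs9 cs9 = true := by decide +kernel
lemma sp5 : stepOK 8 ((bs8.drop 20).take 4) bs9 cs9 = true := by decide +kernel
lemma sp6 : stepOK 8 ((bs8.drop 24).take 4) bs9 cs9 = true := by decide +kernel
lemma sp7 : stepOK 8 ((bs8.drop 28).take 4) bs9 cs9 = true := by decide +kernel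
lemma sp8 : stepOK 8 ((bs8.drop 32).take 4) bs9 cs9 = true := by decide +kernel
lemma sp9 : stepOK 8 ((bs8.drop 36).take 4) bs9 cs9 = true := by decide +kernel
lemma sp10 : stepOK 8 ((bs8.drop 40).take 4) bs9 cs9 = true := by decide +kernel
lemma sp11 : stepOK 8 ((bs8.drop 44).take 4) bs9 cs9 = true := by decide +kernel
lemma sp12 : stepOK 8 ((bs8.drop 48).take 4) bs9 cs9 = true := by decide +kernel
lemma sp13 : stepOK 8 (bs8.drop 52) bs9 cs9 = true := by decide +kernel

lemma van9 : Van 9 bs9 := van8.step (cs := cs9)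
  (step_split 0 4 sp0
  (step_split 4 4 sp1
  (step_split 8 4 sp2
  (step_split 12 4 sp3
  (step_split 16 4 sp4
  (step_split 20 4 sp5
  (step_split 24 4 sp6
  (step_split 28 4 sp7
  (step_split 32 4 sp8
  (step_split 36 4 sp9
  (step_split 40 4 sp10
  (step_split 44 4 sp11
  (step_split 48 4 sp12
  sp13)))))))))))))

lemma du0 : dualF 9 ds9 ((bs9.drop 0).take 3) = true := by decide +kernel
lemma du1 : dualF 9 ds9 ((bs9.drop 3).take 3) = true := by decide +kernel
lemma du2 : dualF 9 ds9 ((bs9.drop 6).take 3) = true := by decide +kernel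
lemma du3 : dualF 9 ds9 ((bs9.drop 9).take 3) = true := by decide +kernel
lemma du4 : dualF 9 ds9 ((bs9.drop 12).take 3) = true := by decide +kernel
lemma du5 : dualF 9 ds9 ((bs9.drop 15).take 3) = true := by decide +kernel
lemma du6 : dualF 9 ds9 ((bs9.drop 18).take 3) = true := by decide +kernel
lemma du7 : dualF 9 ds9 ((bs9.drop 21).take 3) = true := by decide +kernel
lemma du8 : dualF 9 ds9 ((bs9.drop 24).take 3) = true := by decide +kernel
lemma du9 : dualF 9 ds9 ((bs9.drop 27).take 3) = true := by decide +kernel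
lemma du10 : dualF 9 ds9 ((bs9.drop 30).take 3) = true := by decide +kernel
lemma du11 : dualF 9 ds9 ((bs9.drop 33).take 3) = true := by decide +kernel
lemma du12 : dualF 9 ds9 ((bs9.drop 36).take 3) = true := by decide +kernel
lemma du13 : dualF 9 ds9 ((bs9.drop 39).take 3) = true := by decide +kernel
lemma du14 : dualF 9 ds9 ((bs9.drop 42).take 3) = true := by decide +kernel
lemma du15 : dualF 9 ds9 ((bs9.drop 45).take 3) = true := by decide +kernel
lemma du16 : dualF 9 ds9 ((bs9.drop 48).take 3) = true := by decide +kernel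
lemma du17 : dualF 9 ds9 ((bs9.drop 51).take 3) = true := by decide +kernel
lemma du18 : dualF 9 ds9 ((bs9.drop 54).take 3) = true := by decide +kernel
lemma du19 : dualF 9 ds9 ((bs9.drop 57).take 3) = true := by decide +kernel
lemma du20 : dualF 9 ds9 ((bs9.drop 60).take 3) = true := by decide +kernel
lemma du21 : dualF 9 ds9 ((bs9.drop 63).take 3) = true := by decide +kernel
lemma du22 : dualF 9 ds9 ((bs9.drop 66).take 3) = true := by decide +kernel
lemma du23 : dualF 9 ds9 ((bs9.drop 69).take 3) = true := by decide +kernel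
lemma du24 : dualF 9 ds9 ((bs9.drop 72).take 3) = true := by decide +kernel
lemma du25 : dualF 9 ds9 ((bs9.drop 75).take 3) = true := by decide +kernel
lemma du26 : dualF 9 ds9 ((bs9.drop 78).take 3) = true := by decide +kernel
lemma du27 : dualF 9 ds9 ((bs9.drop 81).take 3) = true := by decide +kernel
lemma du28 : dualF 9 ds9 ((bs9.drop 84).take 3) = true := by decide +kernel
lemma du29 : dualF 9 ds9 ((bs9.drop 87).take 3) = true := by decide +kernel
lemma du30 : dualF 9 ds9 ((bs9.drop 90).take 3) = true := by decide +kernel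
lemma du31 : dualF 9 ds9 ((bs9.drop 93).take 3) = true := by decide +kernel
lemma du32 : dualF 9 ds9 (bs9.drop 96) = true := by decide +kernel

lemma mg9 : Mg 9 ds9 := van9.mg (dualF_ok (by decide +kernel)
  (dual_split 0 3 du0
  (dual_split 3 3 du1
  (dual_split 6 3 du2
  (dual_split 9 3 du3
  (dual_split 12 3 du4
  (dual_split 15 3 du5
  (dual_split 18 3 du6
  (dual_split 21 3 du7
  (dual_split 24 3 du8
  (dual_split 27 3 du9
  (dual_split 30 3 du10
  (dual_split 33 3 du11
  (dual_split 36 3 du12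
  (dual_split 39 3 du13
  (dual_split 42 3 du14
  (dual_split 45 3 du15
  (dual_split 48 3 du16
  (dual_split 51 3 du17
  (dual_split 54 3 du18
  (dual_split 57 3 du19
  (dual_split 60 3 du20
  (dual_split 63 3 du21
  (dual_split 66 3 du22
  (dual_split 69 3 du23
  (dual_split 72 3 du24
  (dual_split 75 3 du25
  (dual_split 78 3 du26
  (dual_split 81 3 du27
  (dual_split 84 3 du28
  (dual_split 87 3 du29
  (dual_split 90 3 du30
  (dual_split 93 3 du31
  du32)))))))))))))))))))))))))))))))))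

end Pool.Agent.Lib.MP_3b0e0c_al.Y
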